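import Mathlib

/-!
# A rational function `P / Q` on `ℂⁿ` has finitely many critical values
-/

open MvPolynomial TensorProduct
open scoped IntermediateField.algebraAdjoinAdjoin


namespace Pool.Agent.Lib.MP_6ff8d9_an.Rat

noncomputable section

/-- in characteristic zero a transcendental element is not killed by all derivations -/
theorem exists_der {k K : Type} [Field k] [Field K] [CharZero k] [Algebra k K] {f : K}
    (hf : Transcendental k f) : ∃ D : Derivation k K K, D f = 1 := by
  have h1 : AlgebraicIndepOn k id ({f} : Set K) := by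
    exact (algebraicIndependent_singleton_iff (⟨f, rfl⟩ : ({f} : Set K))).2 hf
  obtain ⟨s, hs1, hs⟩ := exists_isTranscendenceBasis_superset h1
  have hb : AlgebraicIndependent k ((↑) : s → K) := hs.1
  have hcz : CharZero K := charZero_of_injective_algebraMap (algebraMap k K).injective
  have halg : Algebra.IsAlgebraic (IntermediateField.adjoin k (Set.range ((↑) : s → K))) K :=
    hs.isAlgebraic_field
  have h2 : Algebra.FormallyEtale (IntermediateField.adjoin k (Set.range ((↑) : s → K))) K :=
    Algebra.FormallyEtale.of_isSeparable _ K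
  have h3 : Algebra.FormallyEtale (Algebra.adjoin k (Set.range ((↑) : s → K)))
      (IntermediateField.adjoin k (Set.range ((↑) : s → K))) :=
    .of_isLocalization (nonZeroDivisors _)
  have h4 : Algebra.FormallyEtale (Algebra.adjoin k (Set.range ((↑) : s → K))) K :=
    .comp _ (IntermediateField.adjoin k (Set.range ((↑) : s → K))) _
  let B := Algebra.adjoin k (Set.range ((↑) : s → K))
  let e : MvPolynomial s k ≃ₐ[k] B := hb.aevalEquiv
  let i : s := ⟨f, hs1 rfl⟩
  have he : ∀ b : B, aeval ((↑) : s → K) (e.symm b) = (b : K) := by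
    intro b
    have := hb.aevalEquiv_apply_coe (e.symm b)
    rw [← this]
    simp [e]
  let δl : B →ₗ[k] K :=
    ((aeval ((↑) : s → K) : MvPolynomial s k →ₐ[k] K).toLinearMap.comp
      (pderiv i).toLinearMap).comp e.symm.toLinearMap
  let δ : Derivation k B K := Derivation.mk' δl (by
    intro a b
    change aeval _ (pderiv i (e.symm (a * b))) = a • aeval _ (pderiv i (e.symm b)) +
      b • aeval _ (pderiv i (e.symm a))
    rw [map_mul, Derivation.leibniz, map_add, smul_eq_mul, smul_eq_mul, map_mul, map_mul, he, he]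
    rfl)
  let l : K ⊗[B] Ω[B⁄k] →ₗ[K] K := δ.liftKaehlerDifferential.liftBaseChange K
  let E := KaehlerDifferential.tensorKaehlerEquivOfFormallyEtale k B K
  refine ⟨(l.comp E.symm.toLinearMap).compDer (KaehlerDifferential.D k K), ?_⟩
  have hfB : f = algebraMap B K ⟨f, Algebra.subset_adjoin ⟨i, rfl⟩⟩ := rfl
  have h5 := KaehlerDifferential.tensorKaehlerEquivOfFormallyEtale_symm_D_algebraMap k B K
    ⟨f, Algebra.subset_adjoin ⟨i, rfl⟩⟩
  change l (E.symm (KaehlerDifferential.D k K f)) = 1
  rw [hfB, h5]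
  simp only [l, LinearMap.liftBaseChange_tmul, Derivation.liftKaehlerDifferential_comp_D, one_smul]
  change aeval _ (pderiv i (e.symm ⟨f, Algebra.subset_adjoin ⟨i, rfl⟩⟩)) = 1
  have h6 : e.symm ⟨f, Algebra.subset_adjoin ⟨i, rfl⟩⟩ = X i := by
    rw [AlgEquiv.symm_apply_eq]
    apply Subtype.ext
    rw [hb.aevalEquiv_apply_coe]
    simp [i]
  rw [h6, pderiv_X_self, map_one]

/-- chain rule for a derivation of a field containing a quotient of a polynomial ring -/
theorem der_mv {K : Type} [Field K] {n : ℕ} [Algebra ℂ K] (a : MvPolynomial (Fin n) ℂ →ₐ[ℂ] K)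
    (D : Derivation ℂ K K) (p : MvPolynomial (Fin n) ℂ) :
    D (a p) = ∑ j, a (pderiv j p) * D (a (X j)) := by
  induction p using MvPolynomial.induction_on with
  | C c =>
    have : a (C c) = algebraMap ℂ K c := a.commutes c
    rw [this, D.map_algebraMap]
    simp
  | add p q hp hq =>
    simp only [map_add, hp, hq, add_mul, Finset.sum_add_distrib]
  | mul_X p i hp =>
    rw [map_mul, D.leibniz, hp, smul_eq_mul, smul_eq_mul, Finset.mul_sum]
    have : ∀ j, a (pderiv j (p * X i)) * D (a (X j)) =
        a (X i) * (a (pderiv j p) * D (a (X j))) + (if j = i then a p * D (a (X i)) else 0) := by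
      intro j
      rw [pderiv_mul, map_add, map_mul, map_mul]
      by_cases h : j = i
      · subst h
        rw [pderiv_X_self, map_one, if_pos rfl]
        ring
      · rw [pderiv_X_of_ne (Ne.symm h), map_zero, if_neg h]
        ring
    rw [Finset.sum_congr rfl fun j _ => this j, Finset.sum_add_distrib]
    simp [add_comm]

/-- on an irreducible subvariety of `{Q ∂_j P = P ∂_j Q}` on which `Q` is not identically zero
the function `P / Q` is constant -/
theorem const_of_prime {n : ℕ} (P Q : MvPolynomial (Fin n) ℂ) (p : Ideal (MvPolynomial (Fin n) ℂ))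
    [hp : p.IsPrime] (hQ : Q ∉ p) (hW : ∀ j, Q * pderiv j P - P * pderiv j Q ∈ p) :
    ∃ c : ℂ, P - C c * Q ∈ p := by
  let A := MvPolynomial (Fin n) ℂ ⧸ p
  let K := FractionRing A
  let a : MvPolynomial (Fin n) ℂ →ₐ[ℂ] K :=
    (IsScalarTower.toAlgHom ℂ A K).comp (Ideal.Quotient.mkₐ ℂ p)
  have ha : ∀ q, a q = 0 ↔ q ∈ p := by
    intro q
    change algebraMap A K (Ideal.Quotient.mk p q) = 0 ↔ q ∈ p
    rw [map_eq_zero_iff _ (IsFractionRing.injective A K), Ideal.Quotient.eq_zero_iff_mem]
  have hQ0 : a Q ≠ 0 := fun h => hQ ((ha Q).1 h)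
  by_cases hf : Transcendental ℂ (a P / a Q)
  · exfalso
    obtain ⟨D, hD⟩ := exists_der hf
    have h1 : a P = a P / a Q * a Q := (div_mul_cancel₀ (a P) hQ0).symm
    have h2 : D (a P) = a P / a Q * D (a Q) + a Q * D (a P / a Q) := by
      conv_lhs => rw [h1]
      rw [D.leibniz, smul_eq_mul, smul_eq_mul]
    rw [hD, der_mv a D P, der_mv a D Q, mul_one] at h2
    have h3 : ∀ j, a Q * a (pderiv j P) = a P * a (pderiv j Q) := by
      intro j
      have := (ha _).2 (hW j)
      rw [map_sub, map_mul, map_mul, sub_eq_zero] at this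
      exact this
    have h4 : a Q * ∑ j, a (pderiv j P) * D (a (X j)) =
        a P * ∑ j, a (pderiv j Q) * D (a (X j)) := by
      rw [Finset.mul_sum, Finset.mul_sum]
      refine Finset.sum_congr rfl fun j _ => ?_
      rw [← mul_assoc, h3 j, mul_assoc]
    rw [h2, mul_add] at h4
    have h5 : a Q * (a P / a Q * ∑ j, a (pderiv j Q) * D (a (X j))) =
        a P * ∑ j, a (pderiv j Q) * D (a (X j)) := by
      rw [← mul_assoc, mul_div_cancel₀ _ hQ0]
    rw [h5] at h4
    have h6 : a Q * a Q = 0 := by linear_combination h4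
    exact hQ0 (mul_self_eq_zero.1 h6)
  · have h1 : IsAlgebraic ℂ (a P / a Q) := by
      rwa [Transcendental, not_not] at hf
    have hint : IsIntegral ℂ (a P / a Q) := h1.isIntegral
    have hq : (minpoly ℂ (a P / a Q)).leadingCoeff = 1 := minpoly.monic hint
    have h2 : (minpoly ℂ (a P / a Q)).degree = 1 :=
      IsAlgClosed.degree_eq_one_of_irreducible ℂ (minpoly.irreducible hint)
    have h3 : Polynomial.aeval (a P / a Q) (minpoly ℂ (a P / a Q)) = 0 := minpoly.aeval _ _
    rw [Polynomial.eq_X_add_C_of_degree_eq_one h2, hq, Polynomial.C_1, one_mul, Polynomial.aeval_add,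
      Polynomial.aeval_X, Polynomial.aeval_C, add_eq_zero_iff_eq_neg] at h3
    refine ⟨-(minpoly ℂ (a P / a Q)).coeff 0, ?_⟩
    rw [← ha, map_sub, map_mul, map_neg, map_neg]
    have h4 : a (C ((minpoly ℂ (a P / a Q)).coeff 0)) =
        algebraMap ℂ K ((minpoly ℂ (a P / a Q)).coeff 0) := a.commutes _
    rw [h4, ← h3, div_mul_cancel₀ (a P) hQ0, sub_self]

/-- **the rational function `P / Q` has only finitely many critical values** -/
theorem critfin (n : ℕ) (P Q : MvPolynomial (Fin n) ℂ) :
    {c : ℂ | ∃ z : Fin n → ℂ, eval z Q ≠ 0 ∧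
      (∀ j, eval z (Q * pderiv j P - P * pderiv j Q) = 0) ∧ eval z P / eval z Q = c}.Finite := by
  let I : Ideal (MvPolynomial (Fin n) ℂ) :=
    Ideal.span (Set.range fun j => Q * pderiv j P - P * pderiv j Q)
  have hfin : I.minimalPrimes.Finite := Ideal.finite_minimalPrimes_of_isNoetherianRing _ I
  refine (hfin.biUnion (t := fun p => {c : ℂ | Q ∉ p ∧ P - C c * Q ∈ p}) fun p hp => ?_).subset ?_
  · refine Set.Subsingleton.finite fun c hc c' hc' => ?_
    have hpp : p.IsPrime := hp.1.1
    by_contra hne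
    have h1 : C (c' - c) * Q ∈ p := by
      have := p.sub_mem hc.2 hc'.2
      have h2 : P - C c * Q - (P - C c' * Q) = C (c' - c) * Q := by
        rw [map_sub]
        ring
      rwa [h2] at this
    rcases hpp.mem_or_mem h1 with h2 | h2
    · refine hpp.ne_top (Ideal.eq_top_of_isUnit_mem _ h2 ?_)
      exact (isUnit_iff_ne_zero.2 (sub_ne_zero.2 (Ne.symm hne))).map C
    · exact hc.1 h2
  · rintro c ⟨z, hQ, hW, rfl⟩
    have hI : I ≤ RingHom.ker (eval z : MvPolynomial (Fin n) ℂ →+* ℂ) := by
      rw [Ideal.span_le]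
      rintro _ ⟨j, rfl⟩
      exact hW j
    have hpr : (RingHom.ker (eval z : MvPolynomial (Fin n) ℂ →+* ℂ)).IsPrime :=
      RingHom.ker_isPrime _
    obtain ⟨p, hp, hpz⟩ := Ideal.exists_minimalPrimes_le hI
    have hpp : p.IsPrime := hp.1.1
    have hQp : Q ∉ p := fun h => hQ (hpz h)
    obtain ⟨c', hc'⟩ := const_of_prime P Q p hQp
      (fun j => hp.1.2 (Ideal.subset_span ⟨j, rfl⟩))
    refine Set.mem_biUnion hp ⟨hQp, ?_⟩
    have h1 : eval z (P - C c' * Q) = 0 := hpz hc'
    rw [map_sub, map_mul, eval_C, sub_eq_zero] at h1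
    have h2 : eval z P / eval z Q = c' := by
      rw [h1, mul_div_assoc, div_self hQ, mul_one]
    rw [h2]
    exact hc'

end

end Pool.Agent.Lib.MP_6ff8d9_an.Rat
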