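import Mathlib

/-!
# MP_6ff8d9 PERRON, row EXTND, part 2: differentiation of circle averages with a parameter
-/

set_option autoImplicit false

open Metric Filter Topology Real MeasureTheory

namespace Pool.Agent.Lib.MP_6ff8d9_an.H21R

noncomputable section

/-- uniform radius -/
lemma unif_radius {E : Type*} [NormedAddCommGroup E] {V : Set E} (hV : IsOpen V) {K : Set E}
    (hK : IsCompact K) {z0 : E} (h0 : ∀ y ∈ K, z0 + y ∈ V) :
    ∃ δ : ℝ, 0 < δ ∧ ∀ z ∈ ball z0 δ, ∀ y ∈ K, z + y ∈ V := by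
  have hK' : IsCompact ((fun y => z0 + y) '' K) := hK.image (continuous_const.add continuous_id)
  obtain ⟨δ, hδ, hδV⟩ := hK'.exists_thickening_subset_open hV (by
    rintro _ ⟨y, hy, rfl⟩
    exact h0 y hy)
  refine ⟨δ, hδ, fun z hz y hy => hδV ?_⟩
  rw [mem_thickening_iff]
  refine ⟨z0 + y, ⟨y, hy, rfl⟩, ?_⟩
  rw [dist_add_right]
  exact hz

/-- differentiation under the integral sign -/
theorem param {𝕜 E F : Type*} [RCLike 𝕜] [NormedAddCommGroup E] [NormedSpace 𝕜 E] [ProperSpace E]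
    [NormedAddCommGroup F] [NormedSpace ℝ F] [NormedSpace 𝕜 F] {V : Set E}
    (hV : IsOpen V) {G : E → F} {G' : E → E →L[𝕜] F} (hG : ∀ z ∈ V, HasFDerivAt G (G' z) z)
    (hG' : ContinuousOn G' V) {γ : ℝ → E} (hγ : Continuous γ) {a b : ℝ} (hab : a ≤ b) {z0 : E}
    (h0 : ∀ θ ∈ Set.Icc a b, z0 + γ θ ∈ V) :
    ∃ δ : ℝ, 0 < δ ∧ ∀ z ∈ ball z0 δ, (∀ θ ∈ Set.Icc a b, z + γ θ ∈ V) ∧
      HasFDerivAt (fun z => ∫ θ in a..b, G (z + γ θ)) (∫ θ in a..b, G' (z + γ θ)) z := by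
  have hK : IsCompact (γ '' Set.Icc a b) := isCompact_Icc.image hγ
  obtain ⟨δ₀, hδ₀, hδV⟩ := unif_radius hV hK (z0 := z0) (by
    rintro _ ⟨θ, hθ, rfl⟩
    exact h0 θ hθ)
  have hGc : ContinuousOn G V := fun z hz => (hG z hz).continuousAt.continuousWithinAt
  -- compact set containing everything
  set δ : ℝ := δ₀ / 2 with hδ
  have hδ0 : 0 < δ := by positivity
  set K : Set E := (fun p : E × ℝ => p.1 + γ p.2) '' (closedBall z0 δ ×ˢ Set.Icc a b) with hKd
  have hKc : IsCompact K := ((isCompact_closedBall z0 δ).prod isCompact_Icc).image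
    (continuous_fst.add (hγ.comp continuous_snd))
  have hKV : K ⊆ V := by
    rintro _ ⟨⟨z, θ⟩, ⟨hz, hθ⟩, rfl⟩
    exact hδV z (closedBall_subset_ball (by rw [hδ]; linarith) hz) _ ⟨θ, hθ, rfl⟩
  obtain ⟨M, hM⟩ := hKc.exists_bound_of_continuousOn (hG'.mono hKV)
  have hmem : ∀ z ∈ ball z0 δ, ∀ θ ∈ Set.Icc a b, z + γ θ ∈ K := fun z hz θ hθ =>
    ⟨(z, θ), ⟨ball_subset_closedBall hz, hθ⟩, rfl⟩
  have hIoc : Set.uIoc a b ⊆ Set.Icc a b := by
    rw [Set.uIoc_of_le hab]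
    exact Set.Ioc_subset_Icc_self
  have hcont : ∀ z ∈ ball z0 δ, ContinuousOn (fun θ => G (z + γ θ)) (Set.Icc a b) := fun z hz =>
    hGc.comp (continuous_const.add hγ).continuousOn fun θ hθ => hKV (hmem z hz θ hθ)
  have hcont' : ∀ z ∈ ball z0 δ, ContinuousOn (fun θ => G' (z + γ θ)) (Set.Icc a b) :=
    fun z hz =>
    hG'.comp (continuous_const.add hγ).continuousOn fun θ hθ => hKV (hmem z hz θ hθ)
  refine ⟨δ, hδ0, fun z hz => ⟨fun θ hθ => hKV (hmem z hz θ hθ), ?_⟩⟩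
  have hnhds : ball z0 δ ∈ 𝓝 z := isOpen_ball.mem_nhds hz
  refine intervalIntegral.hasFDerivAt_integral_of_dominated_of_fderiv_le (𝕜 := 𝕜)
    (F := fun z θ => G (z + γ θ)) (F' := fun z θ => G' (z + γ θ)) (bound := fun _ => M) hnhds
    ?_ ?_ ?_ ?_ ?_ ?_
  · filter_upwards [hnhds] with y hy
    exact ((hcont y hy).mono hIoc).aestronglyMeasurable measurableSet_uIoc
  · refine ContinuousOn.intervalIntegrable ?_
    rw [Set.uIcc_of_le hab]
    exact hcont z hz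
  · exact ((hcont' z hz).mono hIoc).aestronglyMeasurable measurableSet_uIoc
  · exact Eventually.of_forall fun θ hθ y hy => hM _ (hmem y hy θ (hIoc hθ))
  · exact intervalIntegrable_const
  · refine Eventually.of_forall fun θ hθ y hy => ?_
    have h1 := hG _ (hKV (hmem y hy θ (hIoc hθ)))
    exact (hasFDerivAt_comp_add_right (γ θ)).2 h1

end

end Pool.Agent.Lib.MP_6ff8d9_an.H21R
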