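import Pool.Agent.Lib.MP_6ff8d9_an_h21r.Ext1
import Pool.Agent.Lib.MP_6ff8d9_an_h21r.Ext2
import Pool.Agent.Lib.K708.HdOsg

/-!
# MP_6ff8d9 PERRON, row EXTND: extension across the zero set of a holomorphic function
-/

set_option autoImplicit false

open Metric Filter Topology InnerProductSpace Real MeasureTheory

namespace Pool.Agent.Lib.MP_6ff8d9_an.H21R

open Pool.Agent.Lib.MP_6ff8d9_an Pool.Agent.Lib.MP_6ff8d9_an.H11

noncomputable section

variable {n : ℕ}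

/-- the complex form whose real part is the derivative of `v` -/
def al (v : Cn n → ℝ) (z : Cn n) : Cn n →L[ℂ] ℂ :=
  StrongDual.extendRCLike (𝕜 := ℂ) (fderiv ℝ v z)

/-- real part of a complex functional, as a continuous linear map -/
def Lre (n : ℕ) : (Cn n →L[ℂ] ℂ) →L[ℝ] (Cn n →L[ℝ] ℝ) :=
  (ContinuousLinearMap.compL ℝ (Cn n) ℂ ℝ Complex.reCLM).comp
    (ContinuousLinearMap.restrictScalarsL ℂ (Cn n) ℂ ℝ ℝ)

lemma Lre_apply (φ : Cn n →L[ℂ] ℂ) :
    Lre n φ = Complex.reCLM.comp (φ.restrictScalars ℝ) := rfl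

lemma re_hasFDerivAt {k : Cn n → ℂ} {v : Cn n → ℝ} {z : Cn n} (hk : DifferentiableAt ℂ k z)
    (hv : v =ᶠ[𝓝 z] fun z => (k z).re) : HasFDerivAt v (Lre n (fderiv ℂ k z)) z := by
  have h1 : HasFDerivAt k ((fderiv ℂ k z).restrictScalars ℝ) z := hk.hasFDerivAt.restrictScalars ℝ
  have h2 : HasFDerivAt (fun z => (k z).re) (Complex.reCLM.comp
      ((fderiv ℂ k z).restrictScalars ℝ)) z := Complex.reCLM.hasFDerivAt.comp z h1
  exact h2.congr_of_eventuallyEq hv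

lemma al_eq {k : Cn n → ℂ} {v : Cn n → ℝ} {z : Cn n} (hk : DifferentiableAt ℂ k z)
    (hv : v =ᶠ[𝓝 z] fun z => (k z).re) : al v z = fderiv ℂ k z := by
  rw [al, (re_hasFDerivAt hk hv).fderiv]
  ext x
  rw [StrongDual.extendRCLike_apply]
  apply Complex.ext <;> simp [Lre_apply]

lemma al_props {v : Cn n → ℝ} {V : Set (Cn n)} (hL : ∀ z ∈ V, LRe v z) :
    (∀ z ∈ V, HasFDerivAt v (Lre n (al v z)) z) ∧ ContDiffOn ℂ 1 (al v) V := by
  have key : ∀ z ∈ V, HasFDerivAt v (Lre n (al v z)) z ∧ ContDiffAt ℂ 1 (al v) z := by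
    intro z hz
    obtain ⟨k, hk⟩ := hL z hz
    obtain ⟨ε, hε, hεk⟩ := Metric.eventually_nhds_iff_ball.1 hk
    have hd : DifferentiableOn ℂ k (ball z ε) := fun y hy =>
      (hεk y hy).1.differentiableWithinAt
    have hev : ∀ y ∈ ball z ε, v =ᶠ[𝓝 y] fun z => (k z).re := by
      intro y hy
      filter_upwards [isOpen_ball.mem_nhds hy] with x hx
      exact (hεk x hx).2
    have h1 : al v z = fderiv ℂ k z := al_eq (hεk z (mem_ball_self hε)).1 (hev z (mem_ball_self hε))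
    refine ⟨?_, ?_⟩
    · rw [h1]
      exact re_hasFDerivAt (hεk z (mem_ball_self hε)).1 (hev z (mem_ball_self hε))
    · have h2 : ContDiffOn ℂ 1 (fderiv ℂ k) (ball z ε) :=
        ((Pool.Agent.K708.Hd.holo_contDiffOn_nat isOpen_ball 2 k hd).fderiv_of_isOpen isOpen_ball
          (by norm_num))
      have h3 : ContDiffAt ℂ 1 (fderiv ℂ k) z :=
        h2.contDiffAt (isOpen_ball.mem_nhds (mem_ball_self hε))
      refine h3.congr_of_eventuallyEq ?_
      filter_upwards [isOpen_ball.mem_nhds (mem_ball_self hε)] with y hy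
      exact al_eq (hεk y hy).1 (hev y hy)
  exact ⟨fun z hz => (key z hz).1, fun z hz => (key z hz).2.contDiffWithinAt⟩

/-- a good line through each point -/
lemma line {Φ : Cn n → ℂ} (hΦ : DifferentiableOn ℂ Φ (ball 0 1))
    (hne : ∃ z ∈ ball (0 : Cn n) 1, Φ z ≠ 0) {z0 : Cn n} (hz0 : z0 ∈ ball (0 : Cn n) 1) :
    ∃ (e : Cn n) (r : ℝ), 0 < r ∧ ∀ w : ℂ, 0 < ‖w‖ → ‖w‖ < r →
      z0 + w • e ∈ ball (0 : Cn n) 1 ∧ Φ (z0 + w • e) ≠ 0 := by
  obtain ⟨z1, hz1, hz1'⟩ := hne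
  set e := z1 - z0 with he
  have hcont : Continuous fun w : ℂ => z0 + w • e := by fun_prop
  set S : Set ℂ := (fun w : ℂ => z0 + w • e) ⁻¹' ball 0 1 with hS
  have hSo : IsOpen S := isOpen_ball.preimage hcont
  have hSc : Convex ℝ S := by
    intro a ha b hb s t hs ht hst
    have h1 := (convex_ball (0 : Cn n) 1) ha hb hs ht hst
    change z0 + (s • a + t • b) • e ∈ ball (0 : Cn n) 1
    have h2 : z0 + (s • a + t • b) • e = s • (z0 + a • e) + t • (z0 + b • e) := by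
      have h3 : z0 = s • z0 + t • z0 := by rw [← add_smul, hst, one_smul]
      conv_lhs => rw [h3]
      rw [add_smul, smul_add, smul_add, smul_assoc, smul_assoc]
      abel
    rw [h2]
    exact h1
  have hψ : DifferentiableOn ℂ (fun w : ℂ => Φ (z0 + w • e)) S := by
    refine hΦ.comp ?_ fun w hw => hw
    exact (by fun_prop : Differentiable ℂ fun w : ℂ => z0 + w • e).differentiableOn
  have h0S : (0 : ℂ) ∈ S := by
    change z0 + (0 : ℂ) • e ∈ ball (0 : Cn n) 1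
    rw [zero_smul, add_zero]
    exact hz0
  have h1S : (1 : ℂ) ∈ S := by
    change z0 + (1 : ℂ) • e ∈ ball (0 : Cn n) 1
    rw [one_smul, he, add_sub_cancel]
    exact hz1
  have hnf : ∀ᶠ w in 𝓝[≠] (0 : ℂ), Φ (z0 + w • e) ≠ 0 := by
    by_contra hcon
    have hfr : ∃ᶠ w in 𝓝[≠] (0 : ℂ), Φ (z0 + w • e) = 0 := by
      rw [Filter.not_eventually] at hcon
      exact hcon.mono fun w hw => not_not.1 hw
    have h1 := (hψ.analyticOnNhd hSo).eqOn_zero_of_preconnected_of_frequently_eq_zero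
      hSc.isPreconnected h0S hfr h1S
    refine hz1' ?_
    have h2 : Φ (z0 + (1 : ℂ) • e) = 0 := h1
    rwa [one_smul, he, add_sub_cancel] at h2
  have hev : ∀ᶠ w in 𝓝[≠] (0 : ℂ), z0 + w • e ∈ ball (0 : Cn n) 1 :=
    (hSo.mem_nhds h0S |> fun h => mem_nhdsWithin_of_mem_nhds h)
  have h3 := hev.and hnf
  rw [eventually_nhdsWithin_iff, Metric.eventually_nhds_iff] at h3
  obtain ⟨r, hr, hr'⟩ := h3
  refine ⟨e, r, hr, fun w hw0 hwr => hr' (by simpa using hwr) ?_⟩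
  exact norm_pos_iff.1 hw0

lemma dense_ne {Φ : Cn n → ℂ} (hΦ : DifferentiableOn ℂ Φ (ball 0 1))
    (hne : ∃ z ∈ ball (0 : Cn n) 1, Φ z ≠ 0) {z0 : Cn n} (hz0 : z0 ∈ ball (0 : Cn n) 1) :
    ∃ᶠ z in 𝓝 z0, Φ z ≠ 0 := by
  obtain ⟨e, r, hr, h⟩ := line hΦ hne hz0
  have hcont : Continuous fun w : ℂ => z0 + w • e := by fun_prop
  have h1 : Tendsto (fun w : ℂ => z0 + w • e) (𝓝[≠] (0 : ℂ)) (𝓝 z0) := by
    have h2 := hcont.tendsto 0
    rw [zero_smul, add_zero] at h2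
    exact h2.mono_left nhdsWithin_le_nhds
  refine h1.frequently (Eventually.frequently ?_)
  rw [eventually_nhdsWithin_iff, Metric.eventually_nhds_iff]
  exact ⟨r, hr, fun w hw hw0 => (h w (norm_pos_iff.2 hw0) (by simpa using hw)).2⟩

/-- local extension -/
lemma loc_ext (hMIN : MINP) (hPO : POIS) (hPHA : PHA) {Φ : Cn n → ℂ} {v M : Cn n → ℝ}
    (hΦ : DifferentiableOn ℂ Φ (ball 0 1)) (hne : ∃ z ∈ ball (0 : Cn n) 1, Φ z ≠ 0)
    (hM : ContinuousOn M (ball 0 1)) (hb : ∀ z ∈ ball (0 : Cn n) 1, Φ z ≠ 0 → |v z| ≤ M z)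
    (hL : ∀ z ∈ ball (0 : Cn n) 1, Φ z ≠ 0 → LRe v z) {z0 : Cn n}
    (hz0 : z0 ∈ ball (0 : Cn n) 1) :
    ∃ (k : Cn n → ℂ) (δ : ℝ), 0 < δ ∧ DifferentiableOn ℂ k (ball z0 δ) ∧
      ∀ z ∈ ball z0 δ, z ∈ ball (0 : Cn n) 1 ∧ (Φ z ≠ 0 → v z = (k z).re) := by
  obtain ⟨e, r0, hr0, hline⟩ := line hΦ hne hz0
  set V : Set (Cn n) := ball 0 1 ∩ {z | Φ z ≠ 0} with hV
  have hVo : IsOpen V :=
    hΦ.continuousOn.isOpen_inter_preimage isOpen_ball (isOpen_ne (x := (0 : ℂ)))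
  obtain ⟨hvd, hal⟩ := al_props (V := V) (v := v) fun z hz => hL z hz.1 hz.2
  set r : ℝ := r0 / 3 with hr
  have hrpos : 0 < r := by positivity
  set R : ℝ := 2 * r with hR
  have hRr : r < R := by rw [hR]; linarith
  have hRr0 : R < r0 := by rw [hR, hr]; linarith
  -- radii
  have hK1 : IsCompact ((fun w : ℂ => w • e) '' closedBall 0 R) :=
    (isCompact_closedBall _ _).image (by fun_prop)
  obtain ⟨δ1, hδ1, hδ1'⟩ := unif_radius (isOpen_ball (x := (0 : Cn n)) (ε := 1)) hK1 (z0 := z0) (by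
    rintro _ ⟨w, hw, rfl⟩
    rcases eq_or_ne w 0 with rfl | hw0
    · simpa using hz0
    · refine (hline w (norm_pos_iff.2 hw0) ?_).1
      have : ‖w‖ ≤ R := by simpa using hw
      linarith)
  have hK2 : IsCompact ((fun w : ℂ => w • e) '' sphere 0 r) :=
    (isCompact_sphere _ _).image (by fun_prop)
  have hcirc : ∀ w ∈ sphere (0 : ℂ) r, z0 + w • e ∈ V := by
    intro w hw
    have h1 : ‖w‖ = r := by simpa using hw
    exact hline w (by rw [h1]; exact hrpos) (by rw [h1]; linarith)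
  obtain ⟨δ2, hδ2, hδ2'⟩ := unif_radius hVo hK2 (z0 := z0) (by
    rintro _ ⟨w, hw, rfl⟩
    exact hcirc w hw)
  have hγ : Continuous fun θ : ℝ => circleMap 0 r θ • e :=
    (continuous_circleMap 0 r).smul continuous_const
  have hγm : ∀ θ ∈ Set.Icc (0 : ℝ) (2 * π), z0 + circleMap 0 r θ • e ∈ V := fun θ _ =>
    hcirc _ (circleMap_mem_sphere _ hrpos.le θ)
  have hpi : (0 : ℝ) ≤ 2 * π := by positivity
  obtain ⟨δ3, hδ3, hδ3'⟩ := param (𝕜 := ℝ) hVo hvd
    ((Lre n).continuous.comp_continuousOn hal.continuousOn) hγ hpi hγm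
  obtain ⟨δ4, hδ4, hδ4'⟩ := param (𝕜 := ℂ) hVo
    (fun z hz => ((hal.differentiableOn one_ne_zero z hz).differentiableAt
      (hVo.mem_nhds hz)).hasFDerivAt) (hal.continuousOn_fderiv_of_isOpen hVo le_rfl) hγ hpi hγm
  set δ : ℝ := min (min δ1 δ2) (min δ3 δ4) with hδ
  have hδ0 : 0 < δ := lt_min (lt_min hδ1 hδ2) (lt_min hδ3 hδ4)
  have hb1 : ball z0 δ ⊆ ball z0 δ1 :=
    ball_subset_ball ((min_le_left _ _).trans (min_le_left _ _))
  have hb2 : ball z0 δ ⊆ ball z0 δ2 :=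
    ball_subset_ball ((min_le_left _ _).trans (min_le_right _ _))
  have hb3 : ball z0 δ ⊆ ball z0 δ3 :=
    ball_subset_ball ((min_le_right _ _).trans (min_le_left _ _))
  have hb4 : ball z0 δ ⊆ ball z0 δ4 :=
    ball_subset_ball ((min_le_right _ _).trans (min_le_right _ _))
  -- the average and its form
  set h : Cn n → ℝ := fun z => (2 * π)⁻¹ • ∫ θ in (0 : ℝ)..2 * π, v (z + circleMap 0 r θ • e)
    with hh
  set A : Cn n → (Cn n →L[ℂ] ℂ) := fun z =>
    (2 * π)⁻¹ • ∫ θ in (0 : ℝ)..2 * π, al v (z + circleMap 0 r θ • e) with hA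
  have hAd : DifferentiableOn ℂ A (ball z0 δ) := fun z hz =>
    ((hδ4' z (hb4 hz)).2.differentiableAt.const_smul ((2 * π)⁻¹ : ℝ)).differentiableWithinAt
  have hhd : ∀ z ∈ ball z0 δ, HasFDerivAt h
      (Complex.reCLM.comp ((A z).restrictScalars ℝ)) z := by
    intro z hz
    have h1 := (hδ3' z (hb3 hz)).2.const_smul ((2 * π)⁻¹ : ℝ)
    have hint : IntervalIntegrable (fun θ => al v (z + circleMap 0 r θ • e)) volume 0 (2 * π) := by
      refine ContinuousOn.intervalIntegrable ?_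
      rw [Set.uIcc_of_le hpi]
      exact hal.continuousOn.comp (continuous_const.add hγ).continuousOn
        fun θ hθ => (hδ3' z (hb3 hz)).1 θ hθ
    have h2 : (2 * π)⁻¹ • ∫ θ in (0 : ℝ)..2 * π, Lre n (al v (z + circleMap 0 r θ • e)) =
        Complex.reCLM.comp ((A z).restrictScalars ℝ) := by
      rw [(Lre n).intervalIntegral_comp_comm hint, ← map_smul]
      rfl
    rw [← h2]
    exact h1
  obtain ⟨k, hkd, hk⟩ := hPHA n z0 δ h A hAd hhd
  refine ⟨k, δ, hδ0, hkd, fun z hz => ?_⟩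
  have hzb : z ∈ ball (0 : Cn n) 1 := by
    have h1 := hδ1' z (hb1 hz) _ ⟨0, by simp [hR, hrpos.le], rfl⟩
    simpa using h1
  refine ⟨hzb, fun hΦz => ?_⟩
  rw [← hk z hz]
  -- the mean value property
  have hmem : ∀ w ∈ ball (0 : ℂ) R, z + w • e ∈ ball (0 : Cn n) 1 := fun w hw =>
    hδ1' z (hb1 hz) _ ⟨w, ball_subset_closedBall hw, rfl⟩
  have hψd : DifferentiableOn ℂ (fun w : ℂ => Φ (z + w • e)) (ball 0 R) :=
    hΦ.comp (by fun_prop : Differentiable ℂ fun w : ℂ => z + w • e).differentiableOn hmem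
  have hKc : IsCompact ((fun w : ℂ => z + w • e) '' closedBall 0 r) :=
    (isCompact_closedBall _ _).image (by fun_prop)
  obtain ⟨C, hC⟩ := hKc.exists_bound_of_continuousOn (hM.mono (by
    rintro _ ⟨w, hw, rfl⟩
    exact hmem w (closedBall_subset_ball hRr hw)))
  have hmv := mean_off hMIN hPO hrpos hRr hψd
    (fun w hw => (hδ2' z (hb2 hz) _ ⟨w, hw, rfl⟩).2) (φ := fun w : ℂ => v (z + w • e)) (C := C)
    (fun w hw hw0 => by
      obtain ⟨k', hk'⟩ := hL _ (hmem w hw) hw0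
      have hcw : Tendsto (fun w : ℂ => z + w • e) (𝓝 w) (𝓝 (z + w • e)) :=
        (by fun_prop : Continuous fun w : ℂ => z + w • e).tendsto w
      have h1 := hcw.eventually hk'
      have h2 : ∀ᶠ u in 𝓝 w, DifferentiableAt ℂ (fun u : ℂ => k' (z + u • e)) u := by
        filter_upwards [h1] with u hu
        exact hu.1.comp u (by fun_prop)
      have h3 : AnalyticAt ℂ (fun u : ℂ => k' (z + u • e)) w :=
        Complex.analyticAt_iff_eventually_differentiableAt.2 h2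
      have h4 := h3.harmonicAt_re
      refine (harmonicAt_congr_nhds ?_).2 h4
      filter_upwards [h1] with u hu
      exact hu.2)
    (fun w hw hw0 => by
      have h1 := hb _ (hmem w (ball_subset_ball hRr.le hw)) hw0
      have h2 := hC _ ⟨w, ball_subset_closedBall hw, rfl⟩
      exact h1.trans ((le_abs_self _).trans h2))
    (by simpa using hΦz)
  have h1 : v z = circleAverage (fun w : ℂ => v (z + w • e)) 0 r := by
    rw [← hmv]
    simp
  rw [h1, hh, circleAverage]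

/-- **row EXTND** -/
theorem extnd (hMIN : MINP) (hPO : POIS) (hPHA : PHA) (hPHRE : PHRE) : EXTND := by
  intro n Φ v M hΦ hne hM hb hL
  have hloc := fun z (hz : z ∈ ball (0 : Cn n) 1) => loc_ext hMIN hPO hPHA hΦ hne hM hb hL hz
  choose! k δ hδ hkd hk using hloc
  have hcont : ∀ z ∈ ball (0 : Cn n) 1, ∀ y ∈ ball z (δ z), ContinuousAt (fun x => (k z x).re) y :=
    fun z hz y hy => Complex.continuous_re.continuousAt.comp
      ((hkd z hz).differentiableAt (isOpen_ball.mem_nhds hy)).continuousAt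
  have hL' : ∀ z0 ∈ ball (0 : Cn n) 1, LRe (fun z => (k z z).re) z0 := by
    intro z0 hz0
    refine ⟨k z0, ?_⟩
    filter_upwards [isOpen_ball.mem_nhds (mem_ball_self (hδ z0 hz0))] with z hz
    refine ⟨(hkd z0 hz0).differentiableAt (isOpen_ball.mem_nhds hz), ?_⟩
    have hz1 : z ∈ ball (0 : Cn n) 1 := (hk z0 hz0 z hz).1
    by_contra hne'
    have h1 := hcont z hz1 z (mem_ball_self (hδ z hz1))
    have h2 := hcont z0 hz0 z hz
    have h3 : ∀ᶠ x in 𝓝 z, (k z x).re - (k z0 x).re ≠ 0 :=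
      (h1.sub h2).eventually_ne (sub_ne_zero.2 hne')
    have h4 : ∃ᶠ x in 𝓝 z, Φ x ≠ 0 := dense_ne hΦ hne hz1
    have e1 : ∀ᶠ x in 𝓝 z, x ∈ ball z (δ z) := isOpen_ball.mem_nhds (mem_ball_self (hδ z hz1))
    have e2 : ∀ᶠ x in 𝓝 z, x ∈ ball z0 (δ z0) := isOpen_ball.mem_nhds hz
    obtain ⟨x, hx1, hx2, hx3, hx4⟩ := (h4.and_eventually (h3.and (e1.and e2))).exists
    exact hx2 (sub_eq_zero.2 (((hk z hz1 x hx3).2 hx1).symm.trans ((hk z0 hz0 x hx4).2 hx1)))
  obtain ⟨k', hk'd, hk'⟩ := hPHRE n _ hL'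
  refine ⟨k', hk'd, fun z hz hΦz => ?_⟩
  rw [← hk' z hz]
  exact (hk z hz z (mem_ball_self (hδ z hz))).2 hΦz

end

end Pool.Agent.Lib.MP_6ff8d9_an.H21R
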