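import Pool.Agent.Lib.MP_6ff8d9_an_h69.Rows
import Pool.Agent.Lib.MP_6ff8d9_an_h21r.Ext3
import Pool.Agent.Lib.MP_6ff8d9_an_h82.Minp
import Pool.Agent.Lib.MP_6ff8d9_an_h20r.Pois
import Pool.Agent.Lib.MP_6ff8d9_an_h77.Phre

/-!
# MP_6ff8d9 PRIME rows EXLOC, DENS, CONN, RIEM: zero sets of holomorphic functions on balls
-/

set_option autoImplicit false

open Metric Filter Topology InnerProductSpace

namespace Pool.Agent.Lib.MP_6ff8d9_an.P69

open Pool.Agent.Lib.MP_6ff8d9_an Pool.Agent.Lib.MP_6ff8d9_an.H11 Pool.Agent.Lib.MP_6ff8d9_an.H11.Ph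

noncomputable section

variable {n : ℕ}

lemma scl {c : Cn n} {r : ℝ} (hr : 0 < r) {z : Cn n} (hz : z ∈ ball (0 : Cn n) 1) :
    c + (r : ℂ) • z ∈ ball c r := by
  rw [mem_ball_iff_norm, add_sub_cancel_left, norm_smul, Complex.norm_real,
    Real.norm_of_nonneg hr.le]
  have h1 := mem_ball_zero_iff.1 hz
  nlinarith

lemma scl_inv {c : Cn n} {r : ℝ} (hr : 0 < r) {z : Cn n} (hz : z ∈ ball c r) :
    (r : ℂ)⁻¹ • (z - c) ∈ ball (0 : Cn n) 1 := by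
  rw [mem_ball_zero_iff, norm_smul, norm_inv, Complex.norm_real, Real.norm_of_nonneg hr.le]
  have h1 := mem_ball_iff_norm.1 hz
  rw [inv_mul_eq_div, div_lt_one hr]
  exact h1

lemma scl_eq {c : Cn n} {r : ℝ} (hr : 0 < r) (z : Cn n) :
    c + (r : ℂ) • ((r : ℂ)⁻¹ • (z - c)) = z := by
  have h1 : (r : ℂ) ≠ 0 := by exact_mod_cast hr.ne'
  rw [smul_smul, mul_inv_cancel₀ h1, one_smul, add_sub_cancel]

lemma rpos {c z : Cn n} {r : ℝ} (hz : z ∈ ball c r) : 0 < r :=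
  dist_nonneg.trans_lt (mem_ball.1 hz)

lemma scl_diff {c : Cn n} {r : ℝ} (hr : 0 < r) {Φ : Cn n → ℂ}
    (hΦ : DifferentiableOn ℂ Φ (ball c r)) :
    DifferentiableOn ℂ (fun z => Φ (c + (r : ℂ) • z)) (ball 0 1) :=
  hΦ.comp (by fun_prop : Differentiable ℂ fun z : Cn n => c + (r : ℂ) • z).differentiableOn
    fun _ hz => scl hr hz

lemma scl_ne {c : Cn n} {r : ℝ} (hr : 0 < r) {Φ : Cn n → ℂ} (hne : ∃ z ∈ ball c r, Φ z ≠ 0) :
    ∃ z ∈ ball (0 : Cn n) 1, (fun z => Φ (c + (r : ℂ) • z)) z ≠ 0 := by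
  obtain ⟨z, hz, hz'⟩ := hne
  refine ⟨_, scl_inv hr hz, ?_⟩
  show Φ (c + (r : ℂ) • ((r : ℂ)⁻¹ • (z - c))) ≠ 0
  rwa [scl_eq hr]

/-- row EXLOC -/
theorem exloc : EXLOC := by
  intro n c r M Φ v hr hΦ hne hb hL
  obtain ⟨k', hk'd, hk'⟩ := H21R.extnd Rat.H82.minp H20R.pois pha phre n
    (fun z => Φ (c + (r : ℂ) • z)) (fun z => v (c + (r : ℂ) • z)) (fun _ => M)
    (scl_diff hr hΦ) (scl_ne hr hne) continuousOn_const
    (fun z hz hz0 => hb _ (scl hr hz) hz0) (fun z hz hz0 => by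
      obtain ⟨k, hk⟩ := hL _ (scl hr hz) hz0
      refine ⟨fun z => k (c + (r : ℂ) • z), ?_⟩
      have hc : Tendsto (fun z : Cn n => c + (r : ℂ) • z) (𝓝 z) (𝓝 (c + (r : ℂ) • z)) :=
        (by fun_prop : Continuous fun z : Cn n => c + (r : ℂ) • z).tendsto z
      filter_upwards [hc.eventually hk] with y hy
      exact ⟨hy.1.comp y (by fun_prop), hy.2⟩)
  refine ⟨fun z => k' ((r : ℂ)⁻¹ • (z - c)), ?_, fun z hz hz0 => ?_⟩
  · exact hk'd.comp (by fun_prop : Differentiable ℂ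
      fun z : Cn n => (r : ℂ)⁻¹ • (z - c)).differentiableOn fun z hz => scl_inv hr hz
  · have h1 := hk' _ (scl_inv hr hz) (by
      show Φ (c + (r : ℂ) • ((r : ℂ)⁻¹ • (z - c))) ≠ 0
      rwa [scl_eq hr])
    have h2 : v (c + (r : ℂ) • ((r : ℂ)⁻¹ • (z - c))) = (k' ((r : ℂ)⁻¹ • (z - c))).re := h1
    rwa [scl_eq hr] at h2

lemma freq_ne {c : Cn n} {r : ℝ} {Φ : Cn n → ℂ} (hΦ : DifferentiableOn ℂ Φ (ball c r))
    (hne : ∃ z ∈ ball c r, Φ z ≠ 0) {z0 : Cn n} (hz0 : z0 ∈ ball c r) :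
    ∃ᶠ z in 𝓝 z0, z ∈ ball c r ∧ Φ z ≠ 0 := by
  have hr := rpos hz0
  have h1 := H21R.dense_ne (scl_diff hr hΦ) (scl_ne hr hne) (scl_inv hr hz0)
  have hc : Tendsto (fun z : Cn n => c + (r : ℂ) • z) (𝓝 ((r : ℂ)⁻¹ • (z0 - c))) (𝓝 z0) := by
    have h2 := (by fun_prop : Continuous fun z : Cn n => c + (r : ℂ) • z).tendsto
      ((r : ℂ)⁻¹ • (z0 - c))
    rwa [scl_eq hr] at h2
  have h3 : ∃ᶠ z in 𝓝 z0, Φ z ≠ 0 := hc.frequently h1
  exact (h3.and_eventually (isOpen_ball.mem_nhds hz0)).mono fun z hz => ⟨hz.2, hz.1⟩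

/-- row DENS -/
theorem dens : DENS := by
  intro n c r Φ hΦ hne z hz
  exact mem_closure_iff_frequently.2 (freq_ne hΦ hne hz)

lemma isOpen_off {c : Cn n} {r : ℝ} {Φ : Cn n → ℂ} (hΦ : DifferentiableOn ℂ Φ (ball c r)) :
    IsOpen {z | z ∈ ball c r ∧ Φ z ≠ 0} :=
  hΦ.continuousOn.isOpen_inter_preimage isOpen_ball (isOpen_ne (x := (0 : ℂ)))

/-- row CONN -/
theorem conn : CONN := by
  classical
  intro n c r Φ hΦ
  by_cases hne : ∃ z ∈ ball c r, Φ z ≠ 0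
  swap
  · have h1 : {z | z ∈ ball c r ∧ Φ z ≠ 0} = ∅ := by
      rw [Set.eq_empty_iff_forall_notMem]
      rintro z ⟨hz, hz'⟩
      exact hne ⟨z, hz, hz'⟩
    rw [h1]
    exact isPreconnected_empty
  have hr : 0 < r := by
    obtain ⟨z, hz, -⟩ := hne
    exact rpos hz
  have hSo := isOpen_off hΦ
  rw [isPreconnected_iff_subset_of_disjoint]
  intro u v hu hv huv hdis
  by_contra hcon
  rw [not_or, Set.not_subset, Set.not_subset] at hcon
  obtain ⟨⟨z1, hz1, hz1u⟩, ⟨z2, hz2, hz2v⟩⟩ := hcon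
  have hz2u : z2 ∈ u := (huv hz2).resolve_right hz2v
  have hnot : ∀ z, z ∈ ball c r ∧ Φ z ≠ 0 → z ∈ v → z ∉ u := by
    intro z hz hzv hzu
    have h1 : z ∈ {z | z ∈ ball c r ∧ Φ z ≠ 0} ∩ (u ∩ v) := ⟨hz, hzu, hzv⟩
    rw [hdis] at h1
    exact h1
  set χ : Cn n → ℝ := fun z => if z ∈ u then 1 else 0 with hχ
  obtain ⟨k, hkd, hk⟩ := exloc n c r 1 Φ χ hr hΦ hne (fun z _ _ => by
    simp only [hχ]
    split_ifs <;> simp) (fun z hz hz0 => by
      rcases huv ⟨hz, hz0⟩ with hzu | hzv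
      · refine ⟨fun _ => 1, ?_⟩
        filter_upwards [hu.mem_nhds hzu] with y hy
        exact ⟨differentiableAt_const _, by simp [hχ, hy]⟩
      · refine ⟨fun _ => 0, ?_⟩
        filter_upwards [hv.mem_nhds hzv, hSo.mem_nhds ⟨hz, hz0⟩] with y hy hyS
        exact ⟨differentiableAt_const _, by simp [hχ, hnot y hyS hy]⟩)
  have hcont : ContinuousOn (fun z => (k z).re) (ball c r) :=
    Complex.continuous_re.comp_continuousOn hkd.continuousOn
  have h1 : (k z1).re = 0 := by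
    rw [← hk z1 hz1.1 hz1.2]
    simp [hχ, hz1u]
  have h2 : (k z2).re = 1 := by
    rw [← hk z2 hz2.1 hz2.2]
    simp [hχ, hz2u]
  have h3 : (1 / 2 : ℝ) ∈ Set.Icc ((k z1).re) ((k z2).re) := by
    rw [h1, h2]
    constructor <;> norm_num
  obtain ⟨z3, hz3, hz3'⟩ := (convex_ball c r).isPreconnected.intermediate_value hz1.1 hz2.1 hcont h3
  have h4 : ContinuousAt (fun z => (k z).re) z3 := hcont.continuousAt (isOpen_ball.mem_nhds hz3)
  have h5 : ∀ᶠ z in 𝓝 z3, (k z).re ∈ Set.Ioo (0 : ℝ) 1 := by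
    refine h4.eventually (isOpen_Ioo.mem_nhds ?_)
    rw [hz3']
    constructor <;> norm_num
  obtain ⟨z, hz, hz'⟩ := ((freq_ne hΦ hne hz3).and_eventually h5).exists
  rw [← hk z hz.1 hz.2] at hz'
  simp only [hχ] at hz'
  split_ifs at hz' with h
  · exact lt_irrefl _ hz'.2
  · exact lt_irrefl _ hz'.1

/-- row RIEM -/
theorem riem : RIEM := by
  intro n c r M Φ h hr hΦ hne hh hb
  have hSo := isOpen_off hΦ
  set S : Set (Cn n) := {z | z ∈ ball c r ∧ Φ z ≠ 0} with hS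
  obtain ⟨k, hkd, hk⟩ := exloc n c r M Φ (fun z => (h z).re) hr hΦ hne (fun z hz hz0 =>
    (Complex.abs_re_le_norm _).trans (hb z hz hz0)) (fun z hz hz0 => by
      refine ⟨h, ?_⟩
      filter_upwards [hSo.mem_nhds ⟨hz, hz0⟩] with y hy
      exact ⟨(hh y hy).differentiableAt (hSo.mem_nhds hy), rfl⟩)
  have hd : DifferentiableOn ℂ (fun z => h z - k z) S := hh.fun_sub (hkd.mono fun z hz => hz.1)
  have hre : ∀ z ∈ S, (h z - k z).re = 0 := by
    intro z hz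
    rw [Complex.sub_re, sub_eq_zero]
    exact hk z hz.1 hz.2
  have hfd : S.EqOn (fderiv ℂ fun z => h z - k z) 0 := by
    intro z hz
    have h1 : HasFDerivAt (fun z => (h z - k z).re) (rp (fderiv ℂ (fun z => h z - k z) z)) z :=
      hasFDerivAt_re ((hd z hz).differentiableAt (hSo.mem_nhds hz)).hasFDerivAt
    have h2 : HasFDerivAt (fun z => (h z - k z).re) (rp (0 : Cn n →L[ℂ] ℂ)) z := by
      have h3 : HasFDerivAt (fun _ : Cn n => (0 : ℝ)) (rp (0 : Cn n →L[ℂ] ℂ)) z := by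
        have h4 : rp (0 : Cn n →L[ℂ] ℂ) = 0 := by
          ext x
          simp [rp_apply]
        rw [h4]
        exact hasFDerivAt_const _ _
      refine h3.congr_of_eventuallyEq ?_
      filter_upwards [hSo.mem_nhds hz] with y hy
      exact hre y hy
    exact rp_inj (h1.unique h2)
  obtain ⟨z0, hz0, hz0'⟩ := hne
  have hz0S : z0 ∈ S := ⟨hz0, hz0'⟩
  refine ⟨fun z => k z + (h z0 - k z0), hkd.add_const _, fun z hz hz' => ?_⟩
  have h1 : h z - k z = h z0 - k z0 :=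
    hSo.is_const_of_fderiv_eq_zero (conn n c r Φ hΦ) hd hfd ⟨hz, hz'⟩ hz0S
  show h z = k z + (h z0 - k z0)
  rw [← h1]
  ring

end

end Pool.Agent.Lib.MP_6ff8d9_an.P69
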