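import Pool.Agent.Lib.MP_6ff8d9_an_h20.Dom

/-!
# Rational functions `f = P / Q`: the duality identities, up to `√(|Q|² - |P|²)` on the sphere
-/

open Metric Filter Topology MvPolynomial
open scoped ComplexConjugate

namespace Pool.Agent.Lib.MP_6ff8d9_an.Rat

open Hom Hom.H20 Hom.M2

noncomputable section

variable {n : ℕ}

/-- `Q ∂_j P - P ∂_j Q` -/
def wv (P Q : MvPolynomial (Fin n) ℂ) (j : Fin n) : MvPolynomial (Fin n) ℂ :=
  Q * pderiv j P - P * pderiv j Q

/-- `∑ z_l (Q ∂_l P - P ∂_l Q)` -/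
def rv (P Q : MvPolynomial (Fin n) ℂ) : MvPolynomial (Fin n) ℂ := ∑ l, X l * wv P Q l

/-- the point `σ(z) = conj (∇f / Rf)`, `f = P / Q` -/
def sg (P Q : MvPolynomial (Fin n) ℂ) (z : Fin n → ℂ) (j : Fin n) : ℂ :=
  conj (eval z (wv P Q j) / eval z (rv P Q))

/-- the duality identities `f · conj f(σ) = 1`, `σ(σ(z)) = z` -/
def Dual (P Q : MvPolynomial (Fin n) ℂ) : Prop := ∀ z : Fin n → ℂ, eval z (rv P Q) ≠ 0 →
  eval z P * conj (eval (sg P Q z) P) = eval z Q * conj (eval (sg P Q z) Q) ∧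
    ∀ j, conj (eval (sg P Q z) (wv P Q j)) = z j * conj (eval (sg P Q z) (rv P Q))

/-- no nonzero polynomial is dominated by `|Q|² - |P|²` on the sphere -/
def NoDomR (P Q : MvPolynomial (Fin n) ℂ) : Prop :=
  ∀ p : MvPolynomial (Fin n) ℂ, (∀ z ∈ Sph n, ‖eval z p‖ ≤ ‖eval z Q‖ ^ 2 - ‖eval z P‖ ^ 2) →
    p = 0

/-- the defect -/
def dfc (P Q : MvPolynomial (Fin n) ℂ) (z : Fin n → ℂ) : ℝ := ‖eval z Q‖ ^ 2 - ‖eval z P‖ ^ 2

lemma eval_rv (P Q : MvPolynomial (Fin n) ℂ) (z : Fin n → ℂ) :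
    eval z (rv P Q) = ∑ l, z l * eval z (wv P Q l) := by
  simp [rv, map_sum, map_mul]

lemma eval_wv (P Q : MvPolynomial (Fin n) ℂ) (z : Fin n → ℂ) (j : Fin n) :
    eval z (wv P Q j) = eval z Q * eval z (pderiv j P) - eval z P * eval z (pderiv j Q) := by
  simp [wv]

/-- the tangential part of `wv` -/
lemma tang_eq (P Q : MvPolynomial (Fin n) ℂ) (ζ : Fin n → ℂ) (i : Fin n) :
    eval ζ (wv P Q i) - conj (ζ i) * eval ζ (rv P Q) =
      eval ζ Q * Dd ζ i P - eval ζ P * Dd ζ i Q := by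
  rw [Dd_eq, Dd_eq, eval_rv, eval_wv]
  have h : ∑ l, ζ l * eval ζ (wv P Q l) = eval ζ Q * ∑ l, ζ l * eval ζ (pderiv l P) -
      eval ζ P * ∑ l, ζ l * eval ζ (pderiv l Q) := by
    rw [Finset.mul_sum, Finset.mul_sum, ← Finset.sum_sub_distrib]
    refine Finset.sum_congr rfl fun l _ => ?_
    rw [eval_wv]
    ring
  rw [h]
  ring

lemma sq_expand (a b c : ℂ) :
    ‖a + c * b‖ ^ 2 = ‖a‖ ^ 2 + 2 * (c * (b * conj a)).re + ‖c‖ ^ 2 * ‖b‖ ^ 2 := by
  rw [← Complex.normSq_eq_norm_sq, ← Complex.normSq_eq_norm_sq, ← Complex.normSq_eq_norm_sq,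
    ← Complex.normSq_eq_norm_sq]
  simp only [Complex.normSq_apply, Complex.add_re, Complex.add_im, Complex.mul_re, Complex.mul_im,
    Complex.conj_re, Complex.conj_im]
  ring

/-- the derivative of the defect -/
theorem grad_defect (P Q : MvPolynomial (Fin n) ℂ)
    (h : ∀ z : Fin n → ℂ, ∑ i, ‖z i‖ ^ 2 ≤ 1 → ‖eval z P‖ ≤ ‖eval z Q‖) :
    ∃ K : ℝ, 0 ≤ K ∧ ∀ ζ ∈ Sph n, ∀ i,
      ‖Dd ζ i P * conj (eval ζ P) - Dd ζ i Q * conj (eval ζ Q)‖ ≤ K * √(dfc P Q ζ) ∧
      ‖eval ζ P‖ ≤ K ∧ ‖eval ζ Q‖ ≤ K ∧ ‖Dd ζ i P‖ ≤ K ∧ ‖Dd ζ i Q‖ ≤ K := by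
  obtain ⟨C₁, hC₁0, hC₁⟩ := expansion P
  obtain ⟨C₂, hC₂0, hC₂⟩ := expansion Q
  set C := C₁ + C₂ with hC
  have hC0 : 0 ≤ C := by positivity
  refine ⟨1 + C + 13 * C ^ 2, by positivity, fun ζ hζ i => ?_⟩
  obtain ⟨a1, a2, a3⟩ := hC₁ ζ hζ i
  obtain ⟨b1, b2, b3⟩ := hC₂ ζ hζ i
  set p := eval ζ P with hp
  set q := eval ζ Q with hq
  set p' := Dd ζ i P with hp'
  set q' := Dd ζ i Q with hq'
  have a1' : ‖p‖ ≤ C := a1.trans (by linarith)
  have a2' : ‖p'‖ ≤ C := a2.trans (by linarith)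
  have b1' : ‖q‖ ≤ C := b1.trans (by linarith)
  have b2' : ‖q'‖ ≤ C := b2.trans (by linarith)
  have hCK : C ≤ 1 + C + 13 * C ^ 2 := by nlinarith
  refine ⟨?_, a1'.trans hCK, b1'.trans hCK, a2'.trans hCK, b2'.trans hCK⟩
  set E := p' * conj p - q' * conj q with hE
  have hd0 : 0 ≤ dfc P Q ζ := by
    have := h ζ (le_of_eq hζ)
    unfold dfc
    nlinarith [norm_nonneg p, norm_nonneg q]
  have hEC : ‖E‖ ≤ 2 * C ^ 2 := by
    rw [hE]
    refine (norm_sub_le _ _).trans ?_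
    rw [norm_mul, norm_mul, RCLike.norm_conj, RCLike.norm_conj]
    nlinarith [norm_nonneg p, norm_nonneg q, norm_nonneg p', norm_nonneg q',
      mul_le_mul a2' a1' (norm_nonneg _) hC0, mul_le_mul b2' b1' (norm_nonneg _) hC0]
  have key : ∀ ρ : ℝ, 0 < ρ → ρ ≤ 1 → dfc P Q ζ ≤ ρ ^ 2 → ‖E‖ ≤ (1 + 13 * C ^ 2) * ρ := by
    intro ρ hρ hρ1 hA
    by_cases hE0 : E = 0
    · rw [hE0, norm_zero]
      positivity
    have hEn : (‖E‖ : ℂ) ≠ 0 := by
      exact_mod_cast norm_ne_zero_iff.2 hE0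
    set c : ℂ := ρ * (conj E / ‖E‖) with hc
    have hcE : c * E = ((ρ * ‖E‖ : ℝ) : ℂ) := by
      have h1 : conj E * E = (‖E‖ : ℂ) ^ 2 := by
        rw [mul_comm, Complex.mul_conj, Complex.normSq_eq_norm_sq]
        push_cast
        rfl
      rw [hc, mul_assoc, div_mul_eq_mul_div, h1]
      push_cast
      field_simp
    have hcn : ‖c‖ = ρ := by
      rw [hc, norm_mul, norm_div, RCLike.norm_conj, Complex.norm_real, Complex.norm_real,
        Real.norm_of_nonneg hρ.le, Real.norm_of_nonneg (norm_nonneg _),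
        div_self (norm_ne_zero_iff.2 hE0), mul_one]
    have hc1 : ‖c‖ ≤ 1 := by rw [hcn]; exact hρ1
    have e1 := a3 c hc1
    have e2 := b3 c hc1
    have e3 := h _ (zl_mem hζ i hc1)
    rw [hcn] at e1 e2
    have e4 : ‖p + c * p'‖ ≤ ‖q + c * q'‖ + C * ρ ^ 2 := by
      have f1 : p + c * p' = eval (zl ζ i c) P - (eval (zl ζ i c) P - p - c * p') := by ring
      have f2 : eval (zl ζ i c) Q = (q + c * q') + (eval (zl ζ i c) Q - q - c * q') := by ring
      have f3 : ‖eval (zl ζ i c) Q‖ ≤ ‖q + c * q'‖ + C₂ * ρ ^ 2 := by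
        rw [f2]
        exact (norm_add_le _ _).trans (by linarith)
      rw [f1]
      refine (norm_sub_le _ _).trans ?_
      rw [hC]
      nlinarith
    have e5 : ‖q + c * q'‖ ≤ 2 * C := by
      refine (norm_add_le _ _).trans ?_
      rw [norm_mul, hcn]
      nlinarith [norm_nonneg q']
    have e6 : ‖p + c * p'‖ ^ 2 ≤ ‖q + c * q'‖ ^ 2 + 5 * C ^ 2 * ρ ^ 2 := by
      have g1 : ‖p + c * p'‖ ^ 2 ≤ (‖q + c * q'‖ + C * ρ ^ 2) ^ 2 :=
        pow_le_pow_left₀ (norm_nonneg _) e4 2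
      have g2 : ρ ^ 2 ≤ 1 := pow_le_one₀ hρ.le hρ1
      have g3 : 2 * ‖q + c * q'‖ * (C * ρ ^ 2) ≤ 2 * (2 * C) * (C * ρ ^ 2) := by
        gcongr
      have g4 : (C * ρ ^ 2) ^ 2 ≤ C ^ 2 * ρ ^ 2 := by
        have : (C * ρ ^ 2) ^ 2 = (C ^ 2 * ρ ^ 2) * ρ ^ 2 := by ring
        rw [this]
        exact mul_le_of_le_one_right (by positivity) g2
      nlinarith
    rw [sq_expand, sq_expand, hcn] at e6
    have e7 : (c * (p' * conj p)).re - (c * (q' * conj q)).re = ρ * ‖E‖ := by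
      rw [← Complex.sub_re, ← mul_sub, ← hE, hcE, Complex.ofReal_re]
    have e8 : 2 * (ρ * ‖E‖) ≤ dfc P Q ζ + 6 * C ^ 2 * ρ ^ 2 := by
      have g1 : ρ ^ 2 * ‖q'‖ ^ 2 ≤ ρ ^ 2 * C ^ 2 := by gcongr
      have g2 : 0 ≤ ρ ^ 2 * ‖p'‖ ^ 2 := by positivity
      unfold dfc
      rw [← hp, ← hq, ← e7]
      nlinarith
    have e9 : ρ * ‖E‖ ≤ ρ * ((1 + 13 * C ^ 2) * ρ) := by nlinarith [norm_nonneg E]
    exact le_of_mul_le_mul_left e9 hρ
  rcases hd0.eq_or_lt with h0 | h0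
  · rw [← h0, Real.sqrt_zero, mul_zero]
    by_contra hcon
    push Not at hcon
    set x := ‖E‖ with hx
    have hC1 : 0 < 1 + 13 * C ^ 2 := by positivity
    have h1 := key (min 1 (x / (2 * (1 + 13 * C ^ 2)))) (by positivity) (min_le_left _ _)
      (by rw [← h0]; positivity)
    have h2 : (1 + 13 * C ^ 2) * min 1 (x / (2 * (1 + 13 * C ^ 2))) ≤
        (1 + 13 * C ^ 2) * (x / (2 * (1 + 13 * C ^ 2))) :=
      mul_le_mul_of_nonneg_left (min_le_right _ _) hC1.le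
    have h3 : (1 + 13 * C ^ 2) * (x / (2 * (1 + 13 * C ^ 2))) = x / 2 := by field_simp
    linarith
  · have hs : 0 < √(dfc P Q ζ) := Real.sqrt_pos.2 h0
    rcases le_total (√(dfc P Q ζ)) 1 with h1 | h1
    · have h2 := key _ hs h1 (by rw [Real.sq_sqrt hd0])
      refine h2.trans (mul_le_mul_of_nonneg_right ?_ hs.le)
      linarith
    · calc ‖E‖ ≤ 2 * C ^ 2 := hEC
        _ ≤ (1 + C + 13 * C ^ 2) * 1 := by nlinarith
        _ ≤ (1 + C + 13 * C ^ 2) * √(dfc P Q ζ) := by gcongr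

/-- **(A1)** `|Q| |wv_i - conj (z_i) rv| ≤ K √(|Q|² - |P|²)` on the sphere -/
theorem tangR (P Q : MvPolynomial (Fin n) ℂ)
    (h : ∀ z : Fin n → ℂ, ∑ i, ‖z i‖ ^ 2 ≤ 1 → ‖eval z P‖ ≤ ‖eval z Q‖) :
    ∃ K : ℝ, 0 ≤ K ∧ ∀ ζ ∈ Sph n, ∀ i,
      ‖eval ζ Q * (eval ζ (wv P Q i) - conj (ζ i) * eval ζ (rv P Q))‖ ≤ K * √(dfc P Q ζ) := by
  obtain ⟨K, hK0, hK⟩ := grad_defect P Q h
  refine ⟨K * K + K * K, by positivity, fun ζ hζ i => ?_⟩
  obtain ⟨h1, h2, h3, h4, h5⟩ := hK ζ hζ i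
  rw [tang_eq]
  set p := eval ζ P with hp
  set q := eval ζ Q with hq
  set p' := Dd ζ i P with hp'
  set q' := Dd ζ i Q with hq'
  set E := p' * conj p - q' * conj q with hE
  set D := dfc P Q ζ with hD
  have hd0 : 0 ≤ D := by
    have := h ζ (le_of_eq hζ)
    rw [hD]
    unfold dfc
    nlinarith [norm_nonneg (eval ζ P), norm_nonneg (eval ζ Q)]
  have hDK : D ≤ K * √D := by
    have e1 : D ≤ K ^ 2 := by
      rw [hD]
      unfold dfc
      nlinarith [norm_nonneg (eval ζ P), norm_nonneg (eval ζ Q)]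
    have e2 : √D ≤ K := (Real.sqrt_le_left hK0).2 e1
    calc D = √D * √D := (Real.mul_self_sqrt hd0).symm
      _ ≤ K * √D := mul_le_mul_of_nonneg_right e2 (Real.sqrt_nonneg _)
  have hDc : (D : ℂ) = q * conj q - p * conj p := by
    rw [Complex.mul_conj, Complex.mul_conj, Complex.normSq_eq_norm_sq, Complex.normSq_eq_norm_sq,
      hD]
    unfold dfc
    push_cast
    rfl
  have e1 : conj q * (q * p' - p * q') = (D : ℂ) * p' + p * E := by
    rw [hDc, hE]
    ring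
  have e2 : ‖q * (q * p' - p * q')‖ = ‖(D : ℂ) * p' + p * E‖ := by
    rw [← e1, norm_mul, norm_mul, RCLike.norm_conj]
  rw [e2]
  refine (norm_add_le _ _).trans ?_
  rw [norm_mul, norm_mul, Complex.norm_real, Real.norm_of_nonneg hd0, add_mul]
  refine add_le_add ?_ ?_
  · calc D * ‖p'‖ ≤ (K * √D) * K := mul_le_mul hDK h4 (norm_nonneg _) (by positivity)
      _ = K * K * √D := by ring
  · calc ‖p‖ * ‖E‖ ≤ K * (K * √D) := mul_le_mul h2 h1 (norm_nonneg _) hK0
      _ = K * K * √D := by ring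

/-- `rv ^ N · p (wv / rv)` with the denominators cleared -/
def clr (P Q : MvPolynomial (Fin n) ℂ) (N : ℕ) (p : MvPolynomial (Fin n) ℂ) :
    MvPolynomial (Fin n) ℂ :=
  ∑ k ∈ Finset.range (N + 1), bind₁ (wv P Q) (homogeneousComponent k p) * rv P Q ^ (N - k)

lemma eval_bind (t : Fin n → MvPolynomial (Fin n) ℂ) (p : MvPolynomial (Fin n) ℂ)
    (z : Fin n → ℂ) : eval z (bind₁ t p) = eval (fun j => eval z (t j)) p :=
  MvPolynomial.eval₂Hom_bind₁ (RingHom.id ℂ) z t p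

lemma eval_clr (P Q : MvPolynomial (Fin n) ℂ) (N : ℕ) (p : MvPolynomial (Fin n) ℂ)
    (z : Fin n → ℂ) : eval z (clr P Q N p) = ∑ k ∈ Finset.range (N + 1),
      eval (fun j => eval z (wv P Q j)) (homogeneousComponent k p) *
        eval z (rv P Q) ^ (N - k) := by
  unfold clr
  rw [map_sum]
  refine Finset.sum_congr rfl fun k _ => ?_
  rw [map_mul, map_pow, eval_bind]

lemma sum_hc {N : ℕ} {p : MvPolynomial (Fin n) ℂ} (hN : p.totalDegree ≤ N) :
    ∑ k ∈ Finset.range (N + 1), homogeneousComponent k p = p := by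
  rw [← sum_homogeneousComponent p]
  symm
  conv_rhs => rw [sum_homogeneousComponent p]
  refine Finset.sum_subset (Finset.range_subset_range.2 (by omega)) fun k _ hk => ?_
  rw [Finset.mem_range, not_lt] at hk
  exact homogeneousComponent_eq_zero _ _ (by omega)

/-- evaluation off the zeros of `rv` -/
lemma eval_clr_of_ne (P Q : MvPolynomial (Fin n) ℂ) {N : ℕ} {p : MvPolynomial (Fin n) ℂ}
    (hN : p.totalDegree ≤ N) (z : Fin n → ℂ) (hz : eval z (rv P Q) ≠ 0) :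
    eval z (clr P Q N p) = eval z (rv P Q) ^ N *
      eval (fun j => eval z (wv P Q j) / eval z (rv P Q)) p := by
  set r := eval z (rv P Q) with hr
  conv_rhs => rw [← sum_hc hN]
  rw [eval_clr, map_sum, Finset.mul_sum]
  refine Finset.sum_congr rfl fun k hk => ?_
  have hk' : k ≤ N := Nat.lt_succ_iff.1 (Finset.mem_range.1 hk)
  have h1 := eval_smul_homog (homogeneousComponent_isHomogeneous k p) r
    (fun j => eval z (wv P Q j) / r)
  have h2 : (fun j => r * (eval z (wv P Q j) / r)) = fun j => eval z (wv P Q j) := by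
    funext j
    field_simp
  rw [h2] at h1
  rw [h1, ← hr]
  have h3 : r ^ N = r ^ k * r ^ (N - k) := by rw [← pow_add, Nat.add_sub_cancel' hk']
  rw [h3]
  ring

/-- **(A2)** `Q^N · clr N (bar p) = (Q rv)^N conj p + O(√(|Q|² - |P|²))` on the sphere -/
theorem clr_est (P Q : MvPolynomial (Fin n) ℂ)
    (h : ∀ z : Fin n → ℂ, ∑ i, ‖z i‖ ^ 2 ≤ 1 → ‖eval z P‖ ≤ ‖eval z Q‖)
    {N : ℕ} {p : MvPolynomial (Fin n) ℂ} (hN : p.totalDegree ≤ N) :
    ∃ C : ℝ, 0 ≤ C ∧ ∀ ζ ∈ Sph n,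
      ‖eval ζ (Q ^ N * clr P Q N (bar p)) -
        (eval ζ Q * eval ζ (rv P Q)) ^ N * conj (eval ζ p)‖ ≤ C * √(dfc P Q ζ) := by
  by_cases hn : n = 0
  · refine ⟨0, le_rfl, fun ζ hζ => ?_⟩
    exfalso
    subst hn
    have : (∑ i : Fin 0, ‖ζ i‖ ^ 2) = 1 := hζ
    simp at this
  have i₀ : Fin n := ⟨0, Nat.pos_of_ne_zero hn⟩
  obtain ⟨K, hK0, hK⟩ := tangR P Q h
  obtain ⟨A, hA0, hA⟩ := expansion (Q * rv P Q)
  choose B hB0 hB using fun l => expansion (Q * wv P Q l)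
  have hBsum : 0 ≤ ∑ l, B l := Finset.sum_nonneg fun l _ => hB0 l
  choose L hL0 hL using fun k => lipschitz (homogeneousComponent k (bar p)) (A + ∑ l, B l)
    (by positivity)
  refine ⟨∑ k ∈ Finset.range (N + 1), L k * K * A ^ (N - k),
    Finset.sum_nonneg fun k _ => mul_nonneg (mul_nonneg (hL0 k) hK0) (pow_nonneg hA0 _),
    fun ζ hζ => ?_⟩
  set q := eval ζ Q with hq
  set r := eval ζ (rv P Q) with hr
  have hbar : (bar p).totalDegree ≤ N := by
    have h2 : (bar p).totalDegree = p.totalDegree := by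
      unfold bar totalDegree
      rw [support_map_of_injective _ (starRingEnd ℂ).injective]
    omega
  have e1 : eval ζ (Q ^ N * clr P Q N (bar p)) = ∑ k ∈ Finset.range (N + 1),
      eval (fun j => q * eval ζ (wv P Q j)) (homogeneousComponent k (bar p)) *
        (q * r) ^ (N - k) := by
    rw [map_mul, map_pow, eval_clr, Finset.mul_sum]
    refine Finset.sum_congr rfl fun k hk => ?_
    have hk' : k ≤ N := Nat.lt_succ_iff.1 (Finset.mem_range.1 hk)
    rw [eval_smul_homog (homogeneousComponent_isHomogeneous k _), mul_pow]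
    have h3 : q ^ N = q ^ k * q ^ (N - k) := by rw [← pow_add, Nat.add_sub_cancel' hk']
    rw [h3]
    ring
  have e2 : (q * r) ^ N * conj (eval ζ p) = ∑ k ∈ Finset.range (N + 1),
      eval (fun j => (q * r) * conj (ζ j)) (homogeneousComponent k (bar p)) *
        (q * r) ^ (N - k) := by
    have h1 : eval (fun j => conj (ζ j)) (bar p) = conj (eval ζ p) := by
      rw [eval_bar]
      simp only [Complex.conj_conj]
    rw [← h1]
    conv_lhs => rw [← sum_hc hbar]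
    rw [map_sum, Finset.mul_sum]
    refine Finset.sum_congr rfl fun k hk => ?_
    have hk' : k ≤ N := Nat.lt_succ_iff.1 (Finset.mem_range.1 hk)
    rw [eval_smul_homog (homogeneousComponent_isHomogeneous k _)]
    have h3 : (q * r) ^ N = (q * r) ^ k * (q * r) ^ (N - k) := by
      rw [← pow_add, Nat.add_sub_cancel' hk']
    rw [h3]
    ring
  rw [e1, e2, ← Finset.sum_sub_distrib, Finset.sum_mul]
  refine (norm_sum_le _ _).trans (Finset.sum_le_sum fun k _ => ?_)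
  rw [← sub_mul, norm_mul, norm_pow]
  have hqr : ‖q * r‖ ≤ A := by
    have := (hA ζ hζ i₀).1
    rwa [map_mul] at this
  have hqw : ∀ j, ‖q * eval ζ (wv P Q j)‖ ≤ A + ∑ l, B l := by
    intro j
    have h1 := (hB j ζ hζ i₀).1
    rw [map_mul] at h1
    have h2 : B j ≤ ∑ l, B l := Finset.single_le_sum (f := B) (fun l _ => hB0 l)
      (Finset.mem_univ j)
    exact h1.trans (by linarith)
  have h1 := (hL k (fun j => q * eval ζ (wv P Q j)) (fun j => (q * r) * conj (ζ j)) hqw ?_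
    (K * √(dfc P Q ζ)) ?_ (by positivity)).2.2
  · calc ‖eval (fun j => q * eval ζ (wv P Q j)) (homogeneousComponent k (bar p)) -
          eval (fun j => (q * r) * conj (ζ j)) (homogeneousComponent k (bar p))‖ *
          ‖q * r‖ ^ (N - k) ≤ (L k * (K * √(dfc P Q ζ))) * A ^ (N - k) :=
        mul_le_mul h1 (pow_le_pow_left₀ (norm_nonneg _) hqr _) (by positivity)
          (mul_nonneg (hL0 k) (by positivity))
      _ = L k * K * A ^ (N - k) * √(dfc P Q ζ) := by ring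
  · intro j
    rw [norm_mul, RCLike.norm_conj]
    have h3 := sph_le hζ j
    calc ‖q * r‖ * ‖ζ j‖ ≤ A * 1 := mul_le_mul hqr h3 (norm_nonneg _) hA0
      _ ≤ A + ∑ l, B l := by linarith
  · intro j
    have h2 := hK ζ hζ j
    have h3 : q * eval ζ (wv P Q j) - q * r * conj (ζ j) =
        q * (eval ζ (wv P Q j) - conj (ζ j) * r) := by ring
    rw [h3]
    exact h2

lemma dfc_nonneg {P Q : MvPolynomial (Fin n) ℂ}
    (h : ∀ z : Fin n → ℂ, ∑ i, ‖z i‖ ^ 2 ≤ 1 → ‖eval z P‖ ≤ ‖eval z Q‖) {ζ : Fin n → ℂ}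
    (hζ : ζ ∈ Sph n) : 0 ≤ dfc P Q ζ := by
  have := h ζ (le_of_eq hζ)
  unfold dfc
  nlinarith [norm_nonneg (eval ζ P), norm_nonneg (eval ζ Q)]

/-- a polynomial of order `√(|Q|² - |P|²)` on the sphere vanishes when `NoDomR P Q` -/
theorem eq_zero_of_sqrtR {P Q : MvPolynomial (Fin n) ℂ} (p : MvPolynomial (Fin n) ℂ)
    (hno : NoDomR P Q)
    (h : ∀ z : Fin n → ℂ, ∑ i, ‖z i‖ ^ 2 ≤ 1 → ‖eval z P‖ ≤ ‖eval z Q‖)
    (hp : ∃ C : ℝ, 0 ≤ C ∧ ∀ ζ ∈ Sph n, ‖eval ζ p‖ ≤ C * √(dfc P Q ζ)) : p = 0 := by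
  obtain ⟨C, hC0, hC⟩ := hp
  have hpos : 0 < C ^ 2 + 1 := by positivity
  have h1 : MvPolynomial.C (((C ^ 2 + 1 : ℝ) : ℂ)⁻¹) * p ^ 2 = 0 := by
    refine hno _ fun z hz => ?_
    rw [map_mul, eval_C, map_pow, norm_mul, norm_inv, norm_pow, Complex.norm_real,
      Real.norm_of_nonneg hpos.le]
    have h2 := hC z hz
    have h3 : 0 ≤ dfc P Q z := dfc_nonneg h hz
    have h4 : ‖eval z p‖ ^ 2 ≤ C ^ 2 * dfc P Q z := by
      calc ‖eval z p‖ ^ 2 ≤ (C * √(dfc P Q z)) ^ 2 :=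
            pow_le_pow_left₀ (norm_nonneg _) h2 2
        _ = C ^ 2 * dfc P Q z := by rw [mul_pow, Real.sq_sqrt h3]
    rw [inv_mul_le_iff₀ hpos]
    change ‖eval z p‖ ^ 2 ≤ (C ^ 2 + 1) * dfc P Q z
    nlinarith
  rcases mul_eq_zero.1 h1 with h2 | h2
  · exfalso
    rw [C_eq_zero, inv_eq_zero] at h2
    have : (C ^ 2 + 1 : ℝ) = 0 := by exact_mod_cast h2
    exact hpos.ne' this
  · exact pow_eq_zero_iff (two_ne_zero) |>.1 h2

/-- **(A4)** the duality identities -/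
theorem dual_of_noDom {P Q : MvPolynomial (Fin n) ℂ} (hQ : Q ≠ 0) (hno : NoDomR P Q)
    (h : ∀ z : Fin n → ℂ, ∑ i, ‖z i‖ ^ 2 ≤ 1 → ‖eval z P‖ ≤ ‖eval z Q‖) : Dual P Q := by
  have hsup : ∃ C : ℝ, 0 ≤ C ∧ ∀ p ∈ ({P, Q, rv P Q, Q * rv P Q} : Set (MvPolynomial (Fin n) ℂ)),
      ∀ ζ ∈ Sph n, ‖eval ζ p‖ ≤ C := by
    by_cases hn : n = 0
    · refine ⟨0, le_rfl, fun p _ ζ hζ => ?_⟩
      exfalso
      subst hn
      have : (∑ i : Fin 0, ‖ζ i‖ ^ 2) = 1 := hζ
      simp at this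
    have i₀ : Fin n := ⟨0, Nat.pos_of_ne_zero hn⟩
    choose C hC0 hC using fun p : MvPolynomial (Fin n) ℂ => expansion p
    refine ⟨C P + C Q + C (rv P Q) + C (Q * rv P Q), by
      have := hC0 P
      have := hC0 Q
      have := hC0 (rv P Q)
      have := hC0 (Q * rv P Q)
      positivity, fun p hp ζ hζ => ?_⟩
    have h1 := (hC p ζ hζ i₀).1
    have := hC0 P
    have := hC0 Q
    have := hC0 (rv P Q)
    have := hC0 (Q * rv P Q)
    rcases hp with rfl | rfl | rfl | rfl <;> linarith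
  obtain ⟨A, hA0, hA⟩ := hsup
  -- first identity
  set N := max P.totalDegree Q.totalDegree with hN
  have hI : Q * clr P Q N (bar Q) - P * clr P Q N (bar P) = 0 := by
    have h1 : Q ^ N * (Q * clr P Q N (bar Q) - P * clr P Q N (bar P)) = 0 := by
      refine eq_zero_of_sqrtR _ hno h ?_
      obtain ⟨C₁, hC₁0, hC₁⟩ := clr_est P Q h (N := N) (p := Q) (le_max_right _ _)
      obtain ⟨C₂, hC₂0, hC₂⟩ := clr_est P Q h (N := N) (p := P) (le_max_left _ _)
      refine ⟨A * C₁ + A * C₂ + A ^ N * A, by positivity, fun ζ hζ => ?_⟩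
      have a1 := hC₁ ζ hζ
      have a2 := hC₂ ζ hζ
      set q := eval ζ Q with hq
      set p := eval ζ P with hp
      set r := eval ζ (rv P Q) with hr
      set D := dfc P Q ζ with hD
      have hd0 : 0 ≤ D := dfc_nonneg h hζ
      have hqA : ‖q‖ ≤ A := hA Q (by simp) ζ hζ
      have hpA : ‖p‖ ≤ A := hA P (by simp) ζ hζ
      have hqrA : ‖q * r‖ ≤ A := by
        have := hA (Q * rv P Q) (by simp) ζ hζ
        rwa [map_mul] at this
      have hDA : D ≤ A * √D := by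
        have e1 : D ≤ A ^ 2 := by
          rw [hD]
          unfold dfc
          nlinarith [norm_nonneg (eval ζ P), norm_nonneg (eval ζ Q)]
        have e2 : √D ≤ A := (Real.sqrt_le_left hA0).2 e1
        calc D = √D * √D := (Real.mul_self_sqrt hd0).symm
          _ ≤ A * √D := mul_le_mul_of_nonneg_right e2 (Real.sqrt_nonneg _)
      have hDc : (D : ℂ) = q * conj q - p * conj p := by
        rw [Complex.mul_conj, Complex.mul_conj, Complex.normSq_eq_norm_sq,
          Complex.normSq_eq_norm_sq, hD]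
        unfold dfc
        push_cast
        rfl
      have e1 : eval ζ (Q ^ N * (Q * clr P Q N (bar Q) - P * clr P Q N (bar P))) =
          q * (eval ζ (Q ^ N * clr P Q N (bar Q)) - (q * r) ^ N * conj q) -
          p * (eval ζ (Q ^ N * clr P Q N (bar P)) - (q * r) ^ N * conj p) +
          (q * r) ^ N * (D : ℂ) := by
        rw [hDc]
        simp only [map_mul, map_sub, map_pow]
        rw [← hq, ← hp]
        ring
      rw [e1]
      refine (norm_add_le _ _).trans ?_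
      refine (add_le_add (norm_sub_le _ _) le_rfl).trans ?_
      rw [norm_mul, norm_mul, norm_mul, norm_pow, Complex.norm_real, Real.norm_of_nonneg hd0]
      have b1 : ‖q‖ * ‖eval ζ (Q ^ N * clr P Q N (bar Q)) - (q * r) ^ N * conj q‖ ≤
          A * (C₁ * √D) := mul_le_mul hqA a1 (norm_nonneg _) hA0
      have b2 : ‖p‖ * ‖eval ζ (Q ^ N * clr P Q N (bar P)) - (q * r) ^ N * conj p‖ ≤
          A * (C₂ * √D) := mul_le_mul hpA a2 (norm_nonneg _) hA0
      have b3 : ‖q * r‖ ^ N * D ≤ A ^ N * (A * √D) :=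
        mul_le_mul (pow_le_pow_left₀ (norm_nonneg _) hqrA _) hDA hd0 (by positivity)
      linarith
    rcases mul_eq_zero.1 h1 with h2 | h2
    · exact absurd h2 (pow_ne_zero _ hQ)
    · exact h2
  -- second identity
  have hII : ∀ j, ∀ M : ℕ, (wv P Q j).totalDegree ≤ M → (rv P Q).totalDegree ≤ M →
      clr P Q M (bar (wv P Q j)) - X j * clr P Q M (bar (rv P Q)) = 0 := by
    intro j M hM1 hM2
    have h1 : Q ^ (M + 1) * (clr P Q M (bar (wv P Q j)) - X j * clr P Q M (bar (rv P Q))) = 0 := by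
      refine eq_zero_of_sqrtR _ hno h ?_
      obtain ⟨C₁, hC₁0, hC₁⟩ := clr_est P Q h hM1
      obtain ⟨C₂, hC₂0, hC₂⟩ := clr_est P Q h hM2
      obtain ⟨K, hK0, hK⟩ := tangR P Q h
      refine ⟨A * C₁ + A * C₂ + A ^ M * K, by positivity, fun ζ hζ => ?_⟩
      have a1 := hC₁ ζ hζ
      have a2 := hC₂ ζ hζ
      have a3 := hK ζ hζ j
      set q := eval ζ Q with hq
      set w := eval ζ (wv P Q j) with hw
      set r := eval ζ (rv P Q) with hr
      set D := dfc P Q ζ with hD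
      have hqA : ‖q‖ ≤ A := hA Q (by simp) ζ hζ
      have hqrA : ‖q * r‖ ≤ A := by
        have := hA (Q * rv P Q) (by simp) ζ hζ
        rwa [map_mul] at this
      have hζj := sph_le hζ j
      have e1 : eval ζ (Q ^ (M + 1) *
          (clr P Q M (bar (wv P Q j)) - X j * clr P Q M (bar (rv P Q)))) =
          q * (eval ζ (Q ^ M * clr P Q M (bar (wv P Q j))) - (q * r) ^ M * conj w) -
          q * ζ j * (eval ζ (Q ^ M * clr P Q M (bar (rv P Q))) - (q * r) ^ M * conj r) +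
          (q * r) ^ M * (q * conj (w - conj (ζ j) * r)) := by
        simp only [map_mul, map_sub, map_pow, eval_X, Complex.conj_conj]
        rw [← hq]
        ring
      rw [e1]
      refine (norm_add_le _ _).trans ?_
      refine (add_le_add (norm_sub_le _ _) le_rfl).trans ?_
      have b1 : ‖q * (eval ζ (Q ^ M * clr P Q M (bar (wv P Q j))) - (q * r) ^ M * conj w)‖ ≤
          A * (C₁ * √D) := by
        rw [norm_mul]
        exact mul_le_mul hqA a1 (norm_nonneg _) hA0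
      have b2 : ‖q * ζ j *
          (eval ζ (Q ^ M * clr P Q M (bar (rv P Q))) - (q * r) ^ M * conj r)‖ ≤
          A * 1 * (C₂ * √D) := by
        rw [norm_mul, norm_mul]
        exact mul_le_mul (mul_le_mul hqA hζj (norm_nonneg _) hA0) a2 (norm_nonneg _)
          (by positivity)
      have b3 : ‖(q * r) ^ M * (q * conj (w - conj (ζ j) * r))‖ ≤ A ^ M * (K * √D) := by
        have c1 : ‖q * conj (w - conj (ζ j) * r)‖ ≤ K * √D := by
          rw [norm_mul, RCLike.norm_conj, ← norm_mul]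
          exact a3
        rw [norm_mul, norm_pow]
        exact mul_le_mul (pow_le_pow_left₀ (norm_nonneg _) hqrA _) c1 (norm_nonneg _)
          (by positivity)
      linarith
    rcases mul_eq_zero.1 h1 with h2 | h2
    · exact absurd ((pow_eq_zero_iff (Nat.succ_ne_zero M)).1 h2) hQ
    · exact h2
  intro z hz
  have hbar : ∀ {M : ℕ} {p : MvPolynomial (Fin n) ℂ}, p.totalDegree ≤ M →
      eval z (clr P Q M (bar p)) = eval z (rv P Q) ^ M * conj (eval (sg P Q z) p) := by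
    intro M p hM
    have h2 : (bar p).totalDegree ≤ M := by
      have h3 : (bar p).totalDegree = p.totalDegree := by
        unfold bar totalDegree
        rw [support_map_of_injective _ (starRingEnd ℂ).injective]
      omega
    rw [eval_clr_of_ne P Q h2 z hz, eval_bar]
    rfl
  refine ⟨?_, fun j => ?_⟩
  · have h1 := congrArg (eval z) hI
    rw [map_sub, map_mul, map_mul, hbar (le_max_right _ _), hbar (le_max_left _ _), map_zero] at h1
    have h2 : eval z (rv P Q) ^ N ≠ 0 := pow_ne_zero _ hz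
    apply mul_left_cancel₀ h2
    linear_combination -h1
  · set M := max (wv P Q j).totalDegree (rv P Q).totalDegree with hM
    have h1 := congrArg (eval z) (hII j M (le_max_left _ _) (le_max_right _ _))
    rw [map_sub, map_mul, eval_X, hbar (le_max_left _ _), hbar (le_max_right _ _), map_zero] at h1
    have h2 : eval z (rv P Q) ^ M ≠ 0 := pow_ne_zero _ hz
    apply mul_left_cancel₀ h2
    linear_combination h1

end

end Pool.Agent.Lib.MP_6ff8d9_an.Rat
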