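import Pool.Agent.Lib.MP_6ff8d9_an_h11.Rows

/-!
# MP_6ff8d9 PERRON, row EXTND, part 1: bounded harmonic functions off the zeros of a holomorphic
function have the mean value property
-/

set_option autoImplicit false

open Metric Filter Topology InnerProductSpace Real

namespace Pool.Agent.Lib.MP_6ff8d9_an.H21R

open Pool.Agent.Lib.MP_6ff8d9_an.H11

noncomputable section

lemma PI_zero (φ : ℂ → ℝ) {r : ℝ} (hr : 0 < r) : PI φ 0 r 0 = circleAverage φ 0 r := by
  rw [PI]
  apply circleAverage_congr_sphere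
  intro ζ hζ
  have h1 : ‖ζ‖ = r := by simpa [abs_of_pos hr] using hζ
  have h2 : ‖ζ‖ ^ 2 ≠ 0 := by rw [h1]; positivity
  simp only [poissonKernel_def, sub_zero, norm_zero]
  rw [zero_pow two_ne_zero, sub_zero, div_self h2, one_mul]

lemma PI_neg (φ : ℂ → ℝ) (r : ℝ) (w : ℂ) : PI (fun z => -φ z) 0 r w = -PI φ 0 r w := by
  simp only [PI, circleAverage, mul_neg]
  rw [intervalIntegral.integral_neg, smul_neg]

/-- one inequality -/
lemma mean_off_le (hMIN : MINP) (hPO : POIS) {r R : ℝ} (hr : 0 < r) (hrR : r < R) {h : ℂ → ℂ}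
    (hh : DifferentiableOn ℂ h (ball 0 R)) (hs : ∀ w ∈ sphere (0 : ℂ) r, h w ≠ 0) {φ : ℂ → ℝ}
    {C : ℝ} (hφ : ∀ w ∈ ball (0 : ℂ) R, h w ≠ 0 → HarmonicAt φ w)
    (hb : ∀ w ∈ ball (0 : ℂ) r, h w ≠ 0 → |φ w| ≤ C) (h0 : h 0 ≠ 0) :
    PI φ 0 r 0 ≤ φ 0 := by
  have hcl : closedBall (0 : ℂ) r ⊆ ball 0 R := closedBall_subset_ball hrR
  have hco : ContinuousOn h (ball 0 R) := hh.continuousOn
  have hφs : ContinuousOn φ (sphere 0 r) := fun w hw =>
    (hφ w (hcl (sphere_subset_closedBall hw)) (hs w hw)).1.continuousAt.continuousWithinAt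
  obtain ⟨hPh, hPb⟩ := hPO 0 r φ hr hφs
  obtain ⟨A, hA⟩ := (isCompact_closedBall (0 : ℂ) r).exists_bound_of_continuousOn (hco.mono hcl)
  have hA0 : 0 < A := (norm_pos_iff.2 h0).trans_le (hA 0 (by simp [hr.le]))
  set Ω : Set ℂ := ball 0 r ∩ {w | h w ≠ 0} with hΩ
  have hΩo : IsOpen Ω := by
    have := (hco.mono (ball_subset_closedBall.trans hcl)).isOpen_inter_preimage isOpen_ball
      (isOpen_ne (x := (0 : ℂ)))
    exact this
  have hlb : ∀ w ∈ Ω, 0 ≤ Real.log A - Real.log ‖h w‖ := by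
    intro w hw
    have h1 : 0 < ‖h w‖ := norm_pos_iff.2 hw.2
    exact sub_nonneg.2 (Real.log_le_log h1 (hA w (ball_subset_closedBall hw.1)))
  have key : ∀ ε : ℝ, 0 < ε → 0 ≤ φ 0 - PI φ 0 r 0 + ε * (Real.log A - Real.log ‖h 0‖) := by
    intro ε hε
    set u : ℂ → ℝ := fun w => φ w - PI φ 0 r w + ε * (Real.log A - Real.log ‖h w‖) with hu
    have hharm : ∀ w ∈ Ω, HarmonicAt u w := by
      intro w hw
      have h1 : HarmonicAt φ w := hφ w (hcl (ball_subset_closedBall hw.1)) hw.2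
      have h2 : HarmonicAt (PI φ 0 r) w := hPh w hw.1
      have h3 : AnalyticAt ℂ h w :=
        (hh.analyticOnNhd isOpen_ball) w (hcl (ball_subset_closedBall hw.1))
      have h4 : HarmonicAt (fun z => Real.log ‖h z‖) w := h3.harmonicAt_log_norm hw.2
      have h5 : HarmonicAt (fun z : ℂ => Real.log A) w := harmonicAt_const _
      have h6 := ((h5.sub h4).const_smul (c := ε))
      exact (h1.sub h2).add h6
    have hS : SupM u Ω := by
      refine ⟨fun w hw => (hharm w hw).1.continuousAt.continuousWithinAt, fun c hc => ?_⟩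
      obtain ⟨δ, hδ, hδs⟩ := Metric.isOpen_iff.1 hΩo c hc
      filter_upwards [Ioo_mem_nhdsGT hδ] with t ht
      refine le_of_eq (InnerProductSpace.HarmonicOnNhd.circleAverage_eq fun z hz => hharm z (hδs ?_))
      rw [abs_of_pos ht.1] at hz
      exact closedBall_subset_ball ht.2 hz
    have hfr : ∀ ζ ∈ frontier Ω, ∀ ε' : ℝ, 0 < ε' → ∀ᶠ w in 𝓝[Ω] ζ, -ε' ≤ u w := by
      intro ζ hζ ε' hε'
      have hζc : ζ ∈ closedBall (0 : ℂ) r := by
        have h1 : ζ ∈ closure Ω := frontier_subset_closure hζ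
        have h2 : closure Ω ⊆ closedBall 0 r :=
          closure_minimal (Set.inter_subset_left.trans ball_subset_closedBall) isClosed_closedBall
        exact h2 h1
      have hζΩ : ζ ∉ Ω := by
        rw [hΩo.frontier_eq] at hζ
        exact hζ.2
      by_cases hζ0 : h ζ = 0
      · -- a zero
        have hζs : ζ ∈ ball (0 : ℂ) r := by
          rcases (mem_closedBall.1 hζc).lt_or_eq with h1 | h1
          · exact h1
          · exact absurd hζ0 (hs ζ h1)
        have h1 : ContinuousAt (PI φ 0 r) ζ := (hPh ζ hζs).1.continuousAt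
        have h2 : ∀ᶠ w in 𝓝[Ω] ζ, PI φ 0 r w < PI φ 0 r ζ + 1 :=
          (h1.tendsto.mono_left nhdsWithin_le_nhds).eventually (gt_mem_nhds (by linarith))
        have h3 : Tendsto (fun w => ‖h w‖) (𝓝[Ω] ζ) (𝓝[>] 0) := by
          rw [tendsto_nhdsWithin_iff]
          refine ⟨?_, ?_⟩
          · have h4 : ContinuousAt h ζ :=
              (hco ζ (hcl hζc)).continuousAt (isOpen_ball.mem_nhds (hcl hζc))
            have h5 : Tendsto (fun w => ‖h w‖) (𝓝 ζ) (𝓝 ‖h ζ‖) := h4.norm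
            rw [hζ0, norm_zero] at h5
            exact h5.mono_left nhdsWithin_le_nhds
          · filter_upwards [self_mem_nhdsWithin] with w hw
            exact norm_pos_iff.2 hw.2
        have h4 : Tendsto (fun w => Real.log ‖h w‖) (𝓝[Ω] ζ) atBot :=
          Real.tendsto_log_nhdsGT_zero.comp h3
        have h5 : ∀ᶠ w in 𝓝[Ω] ζ, Real.log ‖h w‖ <
            Real.log A - (C + PI φ 0 r ζ + 1) / ε := h4.eventually (eventually_lt_atBot _)
        filter_upwards [h2, h5, self_mem_nhdsWithin] with w hw2 hw5 hwΩ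
        have h6 := (abs_le.1 (hb w hwΩ.1 hwΩ.2)).1
        have h7 : C + PI φ 0 r ζ + 1 < ε * (Real.log A - Real.log ‖h w‖) := by
          have h8 : (C + PI φ 0 r ζ + 1) / ε < Real.log A - Real.log ‖h w‖ := by linarith
          rw [div_lt_iff₀ hε] at h8
          linarith
        rw [hu]
        simp only
        linarith
      · -- on the circle
        have hζs : ζ ∈ sphere (0 : ℂ) r := by
          rcases (mem_closedBall.1 hζc).lt_or_eq with h1 | h1
          · exact absurd ⟨h1, hζ0⟩ hζΩ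
          · exact h1
        have h1 : Tendsto (PI φ 0 r) (𝓝[Ω] ζ) (𝓝 (φ ζ)) :=
          (hPb ζ hζs).mono_left (nhdsWithin_mono _ Set.inter_subset_left)
        have h2 : Tendsto φ (𝓝[Ω] ζ) (𝓝 (φ ζ)) :=
          (hφ ζ (hcl hζc) hζ0).1.continuousAt.tendsto.mono_left nhdsWithin_le_nhds
        have h3 : ∀ᶠ w in 𝓝[Ω] ζ, -ε' < φ w - PI φ 0 r w := by
          have h4 := h2.sub h1
          rw [sub_self] at h4
          exact h4.eventually (lt_mem_nhds (by linarith))
        filter_upwards [h3, self_mem_nhdsWithin] with w hw3 hwΩ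
        have h4 := mul_nonneg hε.le (hlb w hwΩ)
        rw [hu]
        simp only
        linarith
    exact hMIN Ω u hΩo (isBounded_ball.subset Set.inter_subset_left) hS hfr 0
      ⟨mem_ball_self hr, h0⟩
  have hlim : Tendsto (fun ε : ℝ => φ 0 - PI φ 0 r 0 + ε * (Real.log A - Real.log ‖h 0‖))
      (𝓝[>] 0) (𝓝 (φ 0 - PI φ 0 r 0 + 0 * (Real.log A - Real.log ‖h 0‖))) :=
    (tendsto_const_nhds.add (tendsto_id.mul_const _)).mono_left nhdsWithin_le_nhds
  have h1 := ge_of_tendsto hlim (by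
    filter_upwards [self_mem_nhdsWithin] with ε hε
    exact key ε hε)
  rw [zero_mul, add_zero] at h1
  linarith

/-- **mean value property off the zeros of a holomorphic function** -/
lemma mean_off (hMIN : MINP) (hPO : POIS) {r R : ℝ} (hr : 0 < r) (hrR : r < R) {h : ℂ → ℂ}
    (hh : DifferentiableOn ℂ h (ball 0 R)) (hs : ∀ w ∈ sphere (0 : ℂ) r, h w ≠ 0) {φ : ℂ → ℝ}
    {C : ℝ} (hφ : ∀ w ∈ ball (0 : ℂ) R, h w ≠ 0 → HarmonicAt φ w)
    (hb : ∀ w ∈ ball (0 : ℂ) r, h w ≠ 0 → |φ w| ≤ C) (h0 : h 0 ≠ 0) :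
    φ 0 = circleAverage φ 0 r := by
  refine le_antisymm ?_ ?_
  · have h1 := mean_off_le hMIN hPO hr hrR hh hs (φ := fun z => -φ z) (C := C)
      (fun w hw hw0 => by
        have := (hφ w hw hw0).neg
        exact this) (fun w hw hw0 => by rw [abs_neg]; exact hb w hw hw0) h0
    rw [PI_neg, PI_zero φ hr] at h1
    linarith
  · have h1 := mean_off_le hMIN hPO hr hrR hh hs hφ hb h0
    rwa [PI_zero φ hr] at h1

end

end Pool.Agent.Lib.MP_6ff8d9_an.H21R
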