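import Pool.Agent.Lib.MP_6ff8d9_an_h82.Green
import Pool.Agent.Lib.MP_6ff8d9_an_h69.RowsI

/-!
# MP_6ff8d9, GREEN2: the Green function of one sheet which dominates a given function
-/

set_option autoImplicit false

open Metric Filter Topology MvPolynomial InnerProductSpace Real
open scoped ComplexConjugate

namespace Pool.Agent.Lib.MP_6ff8d9_an.H21F

open Pool.Agent.Lib.MP_6ff8d9_an Pool.Agent.Lib.MP_6ff8d9_an.H11
open Pool.Agent.Lib.MP_6ff8d9_an.P69 Pool.Agent.Lib.MP_6ff8d9_an.H82L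

noncomputable section

/-- `-log max(|mob|, |κ|)` -/
def lm (w0 : ℂ) (κ : ℂ → ℂ) (c : ℂ) : ℝ := -Real.log (max ‖mob w0 c‖ ‖κ c‖)

lemma neg_log_max_le_left {a b : ℝ} (ha : 0 < a) : -Real.log (max a b) ≤ -Real.log a :=
  neg_le_neg (Real.log_le_log ha (le_max_left _ _))

lemma neg_log_max_le_right {a b : ℝ} (hb : 0 < b) : -Real.log (max a b) ≤ -Real.log b :=
  neg_le_neg (Real.log_le_log hb (le_max_right _ _))

lemma supM_min {U : ℂ → ℝ} {s : Set ℂ} (hs : IsOpen s) (hU : SupM U s) (C : ℝ) :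
    SupM (fun c => min (U c) C) s := by
  have hcont : ContinuousOn (fun c => min (U c) C) s :=
    continuous_min.comp_continuousOn (hU.1.prodMk continuousOn_const)
  refine ⟨hcont, fun c hc => ?_⟩
  filter_upwards [ev_closedBall hs hc, hU.2 c hc] with r hr hr'
  refine le_min ?_ ?_
  · exact (circleAverage_mono (ci hcont hr) (ci hU.1 hr) (fun x _ => min_le_left _ _)).trans hr'
  · have h1 : circleAverage (fun _ : ℂ => C) c r = C := circleAverage_const _ _ _
    have h2 := circleAverage_mono (f₁ := fun c => min (U c) C) (f₂ := fun _ : ℂ => C)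
      (ci hcont hr) (ci continuousOn_const hr) (fun x _ => min_le_right _ _)
    rwa [h1] at h2

lemma supM_lm {w0 : ℂ} (h0 : ‖w0‖ < 1) {κ : ℂ → ℂ} {s : Set ℂ} (hs : IsOpen s)
    (hsub : s ⊆ ball (0 : ℂ) 1 \ {w0}) (hκ : DifferentiableOn ℂ κ s) : SupM (lm w0 κ) s := by
  have hq : HarmonicOnNhd (gq w0) s := fun w hw => gq_har h0 w (hsub hw)
  have hmpos : ∀ w ∈ s, 0 < ‖mob w0 w‖ := fun w hw =>
    norm_pos_iff.2 (mob_ne h0 (mem_ball_zero_iff.1 (hsub hw).1) (hsub hw).2)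
  have hmc : ContinuousOn (mob w0) s := by
    intro w hw
    unfold mob
    refine ContinuousAt.continuousWithinAt ?_
    exact continuousAt_const.mul ((continuousAt_id.sub continuousAt_const).div
      (continuousAt_const.sub (continuousAt_const.mul continuousAt_id))
      (den_ne h0 (mem_ball_zero_iff.1 (hsub hw).1)))
  have hcont : ContinuousOn (lm w0 κ) s := by
    have h1 : ContinuousOn (fun c => max ‖mob w0 c‖ ‖κ c‖) s :=
      continuous_max.comp_continuousOn (hmc.norm.prodMk hκ.continuousOn.norm)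
    exact (h1.log fun w hw => (lt_max_of_lt_left (hmpos w hw)).ne').neg
  refine ⟨hcont, fun c hc => ?_⟩
  by_cases hκc : κ c = 0
  · filter_upwards [ev_closedBall hs hc] with r hr
    have h1 := circleAverage_mono (f₁ := lm w0 κ) (f₂ := gq w0) (ci hcont hr)
      (ci (har_cont hq) hr) (fun x hx => neg_log_max_le_left
        (hmpos x (hr (sphere_subset_closedBall hx))))
    rw [har_mean hq hr] at h1
    refine h1.trans (le_of_eq ?_)
    unfold gq lm
    rw [hκc, norm_zero, max_eq_left (norm_nonneg _)]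
  · set s' : Set ℂ := {w | w ∈ s ∧ κ w ≠ 0} with hs'
    have hs'o : IsOpen s' := hκ.continuousOn.isOpen_inter_preimage hs (isOpen_ne (x := (0 : ℂ)))
    have hk : HarmonicOnNhd (fun w => -Real.log ‖κ w‖) s' := by
      intro w hw
      have han : AnalyticAt ℂ κ w := hκ.analyticAt (hs.mem_nhds hw.1)
      exact (han.harmonicAt_log_norm hw.2).neg
    filter_upwards [ev_closedBall hs hc, ev_closedBall hs'o (⟨hc, hκc⟩ : c ∈ s')] with r hr hr'
    have h1 := circleAverage_mono (f₁ := lm w0 κ) (f₂ := gq w0) (ci hcont hr)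
      (ci (har_cont hq) hr) (fun x hx => neg_log_max_le_left
        (hmpos x (hr (sphere_subset_closedBall hx))))
    rw [har_mean hq hr] at h1
    have h2 := circleAverage_mono (f₁ := lm w0 κ) (f₂ := fun w => -Real.log ‖κ w‖) (ci hcont hr)
      (ci (har_cont hk) hr') (fun x hx => neg_log_max_le_right
        (norm_pos_iff.2 (hr' (sphere_subset_closedBall hx)).2))
    rw [har_mean hk hr'] at h2
    unfold gq at h1
    show _ ≤ -Real.log (max ‖mob w0 c‖ ‖κ c‖)
    rcases le_total ‖mob w0 c‖ ‖κ c‖ with h | h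
    · rw [max_eq_right h]
      exact h2
    · rw [max_eq_left h]
      exact h1

/-- row GREEN2 -/
theorem green2 (hP : PERRE) (hS : SECT) : GREEN2 := by
  intro n F φ O E hR hlt hφ1 hφE hφl z1 hz1 hφ0
  have hφd : DifferentiableOn ℂ φ O := by
    intro z hz
    obtain ⟨ε, hε, κ, hκd, hκ⟩ := hφl z hz
    have h1 : DifferentiableAt ℂ (fun z => κ (F z)) z :=
      ((hκd.differentiableAt (ball_mem_nhds _ hε)).comp z
        ((hR.an z hz).differentiableAt (hR.op.mem_nhds hz)))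
    exact (h1.congr_of_eventuallyEq hκ).differentiableWithinAt
  set w0 := F z1 with hw0
  have h0 : ‖w0‖ < 1 := hlt z1 hz1
  obtain ⟨ρ, hρ, σ, hσ0, hσd, hσ⟩ := hS n F O hR.op hR.an z1 hz1 (hR.sub z1 hz1)
  have hFc : ∀ z ∈ O, ContinuousAt F z := fun z hz =>
    ((hR.an z hz).differentiableAt (hR.op.mem_nhds hz)).continuousAt
  have hσc : ∀ w ∈ ball w0 ρ, ContinuousAt σ w := fun w hw =>
    ((hσd w hw).differentiableAt (isOpen_ball.mem_nhds hw)).continuousAt
  set B : Set (Cn n) := {z | z ∈ O ∧ F z ∈ ball w0 ρ} with hB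
  set T : Set (Cn n) := {z | z ∈ O ∧ F z ∈ ball w0 ρ ∧ E z (σ (F z))} with hT
  have hBo : IsOpen B := by
    rw [isOpen_iff_mem_nhds]
    rintro z ⟨h1, h2⟩
    filter_upwards [hR.op.mem_nhds h1, (hFc z h1) (isOpen_ball.mem_nhds h2)] with z' h3 h4
    exact ⟨h3, h4⟩
  have hpair : ∀ z ∈ O, F z ∈ ball w0 ρ → ContinuousAt (fun z' => (z', σ (F z'))) z :=
    fun z h1 h2 => continuousAt_id.prodMk
      (ContinuousAt.comp (g := σ) (f := F) (hσc _ h2) (hFc z h1))
  have hTo : IsOpen T := by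
    rw [isOpen_iff_mem_nhds]
    rintro z ⟨h1, h2, h3⟩
    have h4 := (hpair z h1 h2).eventually (hR.opn z h1 _ (hσ _ h2).1 h3)
    filter_upwards [hBo.mem_nhds (⟨h1, h2⟩ : z ∈ B), h4] with z' h5 h6
    exact ⟨h5.1, h5.2, h6 (hσ _ h5.2).2.symm⟩
  have hTc : IsOpen (B \ T) := by
    rw [isOpen_iff_mem_nhds]
    rintro z ⟨⟨h1, h2⟩, h3⟩
    have h3' : ¬ E z (σ (F z)) := fun h => h3 ⟨h1, h2, h⟩
    have h4 := (hpair z h1 h2).eventually
      (hR.cls z h1 _ (hσ _ h2).1 (hσ _ h2).2.symm h3')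
    filter_upwards [hBo.mem_nhds (⟨h1, h2⟩ : z ∈ B), h4] with z' h5 h6
    exact ⟨h5, fun h7 => h6 (hσ _ h5.2).2.symm h7.2.2⟩
  have hz1T : z1 ∈ T := ⟨hz1, mem_ball_self hρ, by
    rw [← hw0, hσ0]
    exact hR.refl z1 hz1⟩
  have hz2T : ∀ z2 ∈ O, F z2 = w0 → ¬ E z1 z2 → z2 ∉ T := by
    rintro z2 hz2 h12 hnE ⟨-, -, h⟩
    rw [h12, hσ0] at h
    exact hnE (hR.symm z2 hz2 z1 hz1 h)
  have hinv : ∀ z ∈ O, ∀ z' ∈ O, E z z' → (z ∈ T → z' ∈ T) := by
    rintro z hz z' hz' h ⟨-, h2, h3⟩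
    have h4 := hR.fib z z' h
    rw [h4] at h2 h3
    exact ⟨hz', h2, hR.trans z' hz' z hz _ (hσ _ h2).1 (hR.symm z hz z' hz' h) h3⟩
  have hinv' : ∀ z ∈ O, ∀ z' ∈ O, E z z' → (z ∈ T ↔ z' ∈ T) := fun z hz z' hz' h =>
    ⟨hinv z hz z' hz' h, hinv z' hz' z hz (hR.symm z hz z' hz' h)⟩
  -- the open part
  set O' : Set (Cn n) := {z | z ∈ O ∧ F z ≠ w0} with hO'
  have hO'o : IsOpen O' := by
    rw [isOpen_iff_mem_nhds]
    rintro z ⟨h1, h2⟩
    filter_upwards [hR.op.mem_nhds h1, (hFc z h1).eventually_ne h2] with z' h3 h4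
    exact ⟨h3, h4⟩
  have hR' : Rel n F O' E :=
    { op := hO'o
      an := hR.an.mono fun z hz => hz.1
      sub := fun z hz => hR.sub z hz.1
      refl := fun z hz => hR.refl z hz.1
      symm := fun z hz z' hz' => hR.symm z hz.1 z' hz'.1
      trans := fun z hz z' hz' z'' hz'' => hR.trans z hz.1 z' hz'.1 z'' hz''.1
      fib := hR.fib
      opn := fun z hz z' hz' => hR.opn z hz.1 z' hz'.1
      cls := fun z hz z' hz' => hR.cls z hz.1 z' hz'.1 }
  set C : ℝ := |Real.log (4 / ρ)| + 1 with hC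
  have hC0 : 0 < C := by positivity
  have hD : ∀ z ∈ O', F z ∈ ball (0 : ℂ) 1 \ {w0} := fun z hz =>
    ⟨mem_ball_zero_iff.2 (hlt z hz.1), hz.2⟩
  have hmpos : ∀ z ∈ O', 0 < ‖mob w0 (F z)‖ := fun z hz =>
    norm_pos_iff.2 (mob_ne h0 (hlt z hz.1) hz.2)
  -- the upper barrier
  set L : Cn n → ℝ := fun z => -Real.log (max ‖mob w0 (F z)‖ ‖φ z‖) with hL
  have hL0 : ∀ z ∈ O', 0 ≤ L z := by
    intro z hz
    have h1 : max ‖mob w0 (F z)‖ ‖φ z‖ ≤ 1 := max_le (norm_mob_lt h0 (hlt z hz.1)).le (hφ1 z hz.1)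
    have h2 : 0 ≤ max ‖mob w0 (F z)‖ ‖φ z‖ := le_max_of_le_left (norm_nonneg _)
    have h3 := Real.log_nonpos h2 h1
    simp only [hL]
    linarith
  have hLq : ∀ z ∈ O', L z ≤ gq w0 (F z) := fun z hz => neg_log_max_le_left (hmpos z hz)
  -- `φ` on `T`
  have hφT : ∀ z ∈ T, ‖φ z‖ ≤ 4 / ρ * ‖mob w0 (F z)‖ := by
    rintro z ⟨hzO, hzρ, hzE⟩
    have h1 : φ z = φ (σ (F z)) := hφE z hzO _ (hσ _ hzρ).1 hzE
    have h2 : DifferentiableOn ℂ (fun w => φ (σ w)) (ball w0 ρ) :=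
      hφd.comp hσd fun w hw => (hσ w hw).1
    have h3 : φ (σ w0) = 0 := by rw [hσ0, hφ0]
    have h4 : Set.MapsTo (fun w => φ (σ w)) (ball w0 ρ) (ball ((fun w => φ (σ w)) w0) 2) := by
      intro w hw
      show φ (σ w) ∈ ball (φ (σ w0)) 2
      rw [h3, mem_ball_zero_iff]
      exact (hφ1 _ (hσ w hw).1).trans_lt (by norm_num)
    have h5 := Complex.dist_le_div_mul_dist_of_mapsTo_ball h2 (h4.mono_right ball_subset_closedBall) hzρ
    simp only [h3, dist_zero_right] at h5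
    rw [dist_eq_norm] at h5
    have h6 : 0 < ‖1 - conj w0 * F z‖ := norm_pos_iff.2 (den_ne h0 (hlt z hzO))
    have h7 : ‖1 - conj w0 * F z‖ ≤ 2 := by
      refine (norm_sub_le _ _).trans ?_
      rw [norm_one, norm_mul, Complex.norm_conj]
      nlinarith [norm_nonneg w0, norm_nonneg (F z), hlt z hzO]
    have h8 : ‖F z - w0‖ ≤ 2 * ‖mob w0 (F z)‖ := by
      rw [norm_mob h0, mul_div_assoc', le_div_iff₀ h6, mul_comm]
      exact mul_le_mul_of_nonneg_right h7 (norm_nonneg _)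
    rw [h1]
    calc ‖φ (σ (F z))‖ ≤ 2 / ρ * ‖F z - w0‖ := h5
      _ ≤ 2 / ρ * (2 * ‖mob w0 (F z)‖) := mul_le_mul_of_nonneg_left h8 (by positivity)
      _ = 4 / ρ * ‖mob w0 (F z)‖ := by ring
  have hLT : ∀ z ∈ O', z ∈ T → gq w0 (F z) - C ≤ L z := by
    intro z hz hzT
    have h1 := hφT z hzT
    have h2 := hmpos z hz
    have h3 : max ‖mob w0 (F z)‖ ‖φ z‖ ≤ Real.exp C * ‖mob w0 (F z)‖ := by
      refine max_le ?_ (h1.trans ?_)
      · have : 1 ≤ Real.exp C := Real.one_le_exp hC0.le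
        nlinarith
      · refine mul_le_mul_of_nonneg_right ?_ (norm_nonneg _)
        have h4 : (0 : ℝ) < 4 / ρ := by positivity
        rw [← Real.log_le_iff_le_exp h4]
        have := le_abs_self (Real.log (4 / ρ))
        linarith
    have h4 : Real.log (max ‖mob w0 (F z)‖ ‖φ z‖) ≤ C + Real.log ‖mob w0 (F z)‖ := by
      have h5 := Real.log_le_log (lt_max_of_lt_left h2) h3
      rwa [Real.log_mul (Real.exp_pos _).ne' h2.ne', Real.log_exp] at h5
    simp only [hL]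
    unfold gq
    linarith
  classical
  set H : Cn n → ℝ := fun z => if z ∈ T then L z else min (L z) C with hH
  set u0 : Cn n → ℝ := fun z => if z ∈ T then max (gq w0 (F z) - C) 0 else 0 with hu0
  have hnear : ∀ z ∈ O', ∃ ε : ℝ, 0 < ε ∧ ball (F z) ε ⊆ ball (0 : ℂ) 1 \ {w0} := fun z hz =>
    Metric.isOpen_iff.1 (isOpen_D w0) _ (hD z hz)
  have hfar : ∀ z ∈ O', F z ∉ ball w0 ρ → ∀ᶠ z' in 𝓝 z, z' ∈ O' ∧ gq w0 (F z') < C := by
    intro z hz h1
    have h2 : ρ / 2 < ‖F z - w0‖ := by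
      rw [mem_ball, dist_eq_norm, not_lt] at h1
      linarith
    have h3 : ∀ᶠ z' in 𝓝 z, ρ / 2 < ‖F z' - w0‖ :=
      ((hFc z hz.1).sub continuousAt_const).norm.eventually (lt_mem_nhds h2)
    filter_upwards [hO'o.mem_nhds hz, h3] with z' h4 h5
    exact ⟨h4, gq_lt h0 (hlt z' h4.1) hρ h5.le⟩
  have hSup : SupE F O' E H := by
    refine ⟨fun z hz z' hz' h => ?_, fun z hz => ?_⟩
    · have h1 := hinv' z hz.1 z' hz'.1 h
      have h2 := hR.fib z z' h
      have h3 := hφE z hz.1 z' hz'.1 h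
      simp only [hH, hL, h2, h1, h3]
    · obtain ⟨ε1, hε1, hsub⟩ := hnear z hz
      obtain ⟨ε2, hε2, κ, hκd, hκ⟩ := hφl z hz.1
      set ε : ℝ := min ε1 ε2 with hε
      have hε0 : 0 < ε := lt_min hε1 hε2
      have hsub' : ball (F z) ε ⊆ ball (0 : ℂ) 1 \ {w0} :=
        (ball_subset_ball (min_le_left _ _)).trans hsub
      have hκd' : DifferentiableOn ℂ κ (ball (F z) ε) :=
        hκd.mono (ball_subset_ball (min_le_right _ _))
      have hU := supM_lm h0 isOpen_ball hsub' hκd'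
      have hLe : ∀ᶠ z' in 𝓝 z, L z' = lm w0 κ (F z') := by
        filter_upwards [hκ] with z' h1
        simp only [hL, lm, h1]
      by_cases hzT : z ∈ T
      · refine ⟨ε, hε0, lm w0 κ, hU, ?_⟩
        filter_upwards [hTo.mem_nhds hzT, hLe] with z' h1 h2
        simp only [hH, if_pos h1]
        exact h2
      · by_cases hzB : F z ∈ ball w0 ρ
        · refine ⟨ε, hε0, fun c => min (lm w0 κ c) C, supM_min isOpen_ball hU C, ?_⟩
          filter_upwards [hTc.mem_nhds (⟨⟨hz.1, hzB⟩, hzT⟩ : z ∈ B \ T), hLe] with z' h1 h2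
          simp only [hH, if_neg h1.2, h2]
        · refine ⟨ε, hε0, lm w0 κ, hU, ?_⟩
          filter_upwards [hfar z hz hzB, hLe] with z' h1 h2
          simp only [hH]
          split_ifs
          · exact h2
          · rw [min_eq_left ((hLq z' h1.1).trans h1.2.le)]
            exact h2
  have hSub : SubE F O' E u0 := by
    refine ⟨fun z hz z' hz' h => ?_, fun z hz => ?_⟩
    · have h1 := hinv' z hz.1 z' hz'.1 h
      have h2 := hR.fib z z' h
      simp only [hu0, h2, h1]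
    · obtain ⟨ε, hε, hsub⟩ := hnear z hz
      have hq : HarmonicOnNhd (gq w0) (ball (F z) ε) := fun w hw => gq_har h0 w (hsub hw)
      by_cases hzT : z ∈ T
      · refine ⟨ε, hε, fun c => max (gq w0 c - C) 0, subM_har_max isOpen_ball hq C, ?_⟩
        filter_upwards [hTo.mem_nhds hzT] with z' h1
        simp only [hu0, if_pos h1]
      · by_cases hzB : F z ∈ ball w0 ρ
        · refine ⟨ε, hε, fun _ => 0, subM_zero' _, ?_⟩
          filter_upwards [hTc.mem_nhds (⟨⟨hz.1, hzB⟩, hzT⟩ : z ∈ B \ T)] with z' h1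
          simp only [hu0, if_neg h1.2]
        · refine ⟨ε, hε, fun _ => 0, subM_zero' _, ?_⟩
          filter_upwards [hfar z hz hzB] with z' h1
          simp only [hu0]
          split_ifs
          · exact max_eq_right (by linarith [h1.2])
          · rfl
  have hle : ∀ z ∈ O', u0 z ≤ H z := by
    intro z hz
    simp only [hu0, hH]
    split_ifs with h
    · exact max_le (hLT z hz h) (hL0 z hz)
    · exact le_min (hL0 z hz) hC0.le
  obtain ⟨v, hv1, hv2⟩ := hP n F O' E H u0 hR' hSup hSub hle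
  refine ⟨v, T, C, ρ, hρ, fun z hz => ⟨hz.1, hz.2.1⟩, hTo, hTc, hz1T, hz2T, fun z hz hne => ?_⟩
  have hzO' : z ∈ O' := ⟨hz, hne⟩
  have hb := hv1 z hzO'
  have hu0n : 0 ≤ u0 z := by
    simp only [hu0]
    split_ifs
    · exact le_max_right _ _
    · exact le_rfl
  have hHL : H z ≤ L z := by
    simp only [hH]
    split_ifs
    · exact le_rfl
    · exact min_le_left _ _
  refine ⟨hv2 z hzO', hu0n.trans hb.1, hb.2.trans (hHL.trans (hLq z hzO')), fun h => ?_,
    fun h => ?_, fun h => ?_⟩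
  · exact hb.2.trans (hHL.trans (neg_log_max_le_right (norm_pos_iff.2 h)))
  · have h1 : u0 z = max (gq w0 (F z) - C) 0 := by simp only [hu0, if_pos h]
    have h2 := hb.1
    rw [h1] at h2
    exact (le_max_left _ _).trans h2
  · have h1 : H z = min (L z) C := by simp only [hH, if_neg h]
    have h2 := hb.2
    rw [h1] at h2
    exact h2.trans (min_le_right _ _)

end

end Pool.Agent.Lib.MP_6ff8d9_an.H21F
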