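import Pool.Agent.Lib.MP_6ff8d9_an_h23.N2Rows

/-!
# MP_6ff8d9, dimension 2: row COPR
-/

set_option autoImplicit false

open MvPolynomial

namespace Pool.Agent.Lib.MP_6ff8d9_an.N2

noncomputable section

namespace H21n

/-- a prime ideal of `ℂ[x,y]` containing two relatively prime polynomials is maximal -/
lemma isMaximal_of_relPrime {a b : MvPolynomial (Fin 2) ℂ} (hab : IsRelPrime a b)
    {P : Ideal (MvPolynomial (Fin 2) ℂ)} (hP : P.IsPrime) (ha : a ∈ P) (hb : b ∈ P) :
    P.IsMaximal := by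
  by_contra hmax
  obtain ⟨M, hM, hPM⟩ := P.exists_le_maximal hP.ne_top
  have hPM' : P < M := lt_of_le_of_ne hPM fun h => hmax (h ▸ hM)
  have hPbot : P ≠ ⊥ := by
    rintro rfl
    rw [Ideal.mem_bot] at ha hb
    subst ha hb
    exact not_isUnit_zero (hab dvd_rfl dvd_rfl)
  obtain ⟨π, hπP, hπ⟩ := hP.exists_mem_prime_of_ne_bot hPbot
  set S : Ideal (MvPolynomial (Fin 2) ℂ) := Ideal.span {π} with hS
  have hSp : S.IsPrime := (Ideal.span_singleton_prime hπ.ne_zero).2 hπ
  have h0S : (⊥ : Ideal (MvPolynomial (Fin 2) ℂ)) < S := by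
    rw [bot_lt_iff_ne_bot, hS, Ne, Ideal.span_singleton_eq_bot]
    exact hπ.ne_zero
  have hSP : S < P := by
    refine lt_of_le_of_ne ((Ideal.span_singleton_le_iff_mem _).2 hπP) fun h => ?_
    rw [← h, hS, Ideal.mem_span_singleton] at ha hb
    exact hπ.not_isUnit (hab ha hb)
  have hMp : M.IsPrime := hM.isPrime
  have h1 := Ideal.height_strict_mono_of_isPrime_of_isPrime h0S
  have h2 := Ideal.height_strict_mono_of_isPrime_of_isPrime hSP
  have h3 := Ideal.height_strict_mono_of_isPrime_of_isPrime hPM'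
  have h4 := Ideal.height_le_ringKrullDim_of_ne_top hM.ne_top
  rw [MvPolynomial.ringKrullDim_of_isNoetherianRing, ringKrullDim_eq_zero_of_field] at h4
  have h5 : (M.height : WithBot ℕ∞) ≤ ((2 : ℕ∞) : WithBot ℕ∞) := by
    simpa using h4
  have h6 : M.height ≤ 2 := WithBot.coe_le_coe.1 h5
  rw [Ideal.height_bot] at h1
  have h7 : M.height ≠ ⊤ := ne_top_of_le_ne_top (by simp) h6
  have h8 : P.height ≠ ⊤ := (h3.trans_le le_top).ne
  have h9 : S.height ≠ ⊤ := (h2.trans_le le_top).ne
  lift M.height to ℕ using h7 with m hm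
  lift P.height to ℕ using h8 with p hp
  lift S.height to ℕ using h9 with s hs
  have k1 : 0 < s := by exact_mod_cast h1
  have k2 : s < p := by exact_mod_cast h2
  have k3 : p < m := by exact_mod_cast h3
  have k4 : m ≤ 2 := by exact_mod_cast h6
  omega

/-- two relatively prime polynomials in two variables have finitely many common zeros -/
lemma finite_of_relPrime {a b : MvPolynomial (Fin 2) ℂ} (hab : IsRelPrime a b) :
    {z : Fin 2 → ℂ | eval z a = 0 ∧ eval z b = 0}.Finite := by
  set I : Ideal (MvPolynomial (Fin 2) ℂ) := Ideal.span {a, b} with hI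
  have hfin := Ideal.finite_minimalPrimes_of_isNoetherianRing (MvPolynomial (Fin 2) ℂ) I
  set κ : (Fin 2 → ℂ) → Ideal (MvPolynomial (Fin 2) ℂ) := fun z =>
    RingHom.ker (eval z) with hκ
  have hmaps : Set.MapsTo κ {z : Fin 2 → ℂ | eval z a = 0 ∧ eval z b = 0} I.minimalPrimes := by
    rintro z ⟨hza, hzb⟩
    have hp : (κ z).IsPrime := RingHom.ker_isPrime _
    have hIz : I ≤ κ z := by
      rw [hI, Ideal.span_le]
      rintro x hx
      rcases hx with rfl | rfl
      · exact hza
      · exact hzb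
    obtain ⟨R, hR, hRz⟩ := Ideal.exists_minimalPrimes_le hIz
    have hRp : R.IsPrime := hR.1.1
    have hRI : I ≤ R := hR.1.2
    have hRm : R.IsMaximal := isMaximal_of_relPrime hab hRp
      (hRI (Ideal.subset_span (by simp))) (hRI (Ideal.subset_span (by simp)))
    have : R = κ z := hRm.eq_of_le hp.ne_top hRz
    rw [← this]
    exact hR
  have hinj : Set.InjOn κ {z : Fin 2 → ℂ | eval z a = 0 ∧ eval z b = 0} := by
    intro z _ z' _ h
    funext i
    have h1 : (X i - C (z i) : MvPolynomial (Fin 2) ℂ) ∈ κ z := by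
      simp [hκ, RingHom.mem_ker]
    rw [h] at h1
    have h2 : eval z' (X i - C (z i) : MvPolynomial (Fin 2) ℂ) = 0 := h1
    simp only [map_sub, eval_X, eval_C] at h2
    exact (sub_eq_zero.1 h2).symm
  exact Set.Finite.of_injOn hmaps hinj hfin

end H21n

/-- row COPR -/
theorem copr : COPR := by
  intro A B hAB
  rcases hAB with hA | hB
  · obtain ⟨a, b, G, hrel, hGa, hGb⟩ := UniqueFactorizationMonoid.exists_reduced_factors A hA B
    exact ⟨G, a, b, hGa.symm, hGb.symm, H21n.finite_of_relPrime hrel⟩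
  · obtain ⟨a, b, G, hrel, hGa, hGb⟩ := UniqueFactorizationMonoid.exists_reduced_factors' A B hB
    exact ⟨G, a, b, hGa.symm, hGb.symm, H21n.finite_of_relPrime hrel⟩

end

end Pool.Agent.Lib.MP_6ff8d9_an.N2
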