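import Pool.Agent.Lib.MP_6ff8d9_an_h23.Kill

/-!
# MP_6ff8d9, dimension 2: rows DETZ and CYC
-/

set_option autoImplicit false

open Metric Filter Topology MvPolynomial Matrix
open scoped ComplexConjugate

namespace Pool.Agent.Lib.MP_6ff8d9_an.N2

open Pool.Agent.Lib.MP_6ff8d9_an Pool.Agent.Lib.MP_6ff8d9_an.H22

noncomputable section

namespace H21n

lemma mv3 (T : Matrix (Fin 3) (Fin 3) ℂ) (Z : Fin 3 → ℂ) (i : Fin 3) :
    (T *ᵥ Z) i = T i 0 * Z 0 + T i 1 * Z 1 + T i 2 * Z 2 := by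
  simp [Matrix.mulVec, dotProduct, Fin.sum_univ_three]

lemma det3 (A B D : Fin 3 → ℂ) : (Matrix.of ![A, B, D]).det =
    A 0 * (B 1 * D 2 - B 2 * D 1) - A 1 * (B 0 * D 2 - B 2 * D 0) +
      A 2 * (B 0 * D 1 - B 1 * D 0) := by
  rw [Matrix.det_fin_three]
  simp [Matrix.of_apply]
  ring

@[simp] lemma hz0 (z : Fin 2 → ℂ) : hz z 0 = 1 := rfl
@[simp] lemma hz1 (z : Fin 2 → ℂ) : hz z 1 = z 0 := rfl
@[simp] lemma hz2 (z : Fin 2 → ℂ) : hz z 2 = z 1 := rfl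

lemma vf0 (T : Matrix (Fin 3) (Fin 3) ℂ) (z : Fin 2 → ℂ) :
    vf T z 0 = (T *ᵥ hz z) 1 - z 0 * (T *ᵥ hz z) 0 := rfl

lemma vf1 (T : Matrix (Fin 3) (Fin 3) ℂ) (z : Fin 2 → ℂ) :
    vf T z 1 = (T *ᵥ hz z) 2 - z 1 * (T *ᵥ hz z) 0 := rfl

/-- `det (Z, TZ, Y) = (-ρ, w₀, w₁) · Y` -/
lemma det_OfT {w : Fin 2 → MvPolynomial (Fin 2) ℂ} {T : Matrix (Fin 3) (Fin 3) ℂ}
    (h : OfT w T) (z : Fin 2 → ℂ) (Y : Fin 3 → ℂ) :
    (Matrix.of ![hz z, T *ᵥ hz z, Y]).det =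
      - eval z (rho w) * Y 0 + eval z (w 0) * Y 1 + eval z (w 1) * Y 2 := by
  rw [det3, eval_rho, (h z).1, (h z).2, vf0, vf1, hz0, hz1, hz2]
  ring

/-- a cubic form vanishing on the affine chart vanishes -/
lemma det_all {A B : Matrix (Fin 3) (Fin 3) ℂ}
    (h : ∀ z : Fin 2 → ℂ, (Matrix.of ![hz z, A *ᵥ hz z, B *ᵥ hz z]).det = 0) (Z : Fin 3 → ℂ) :
    (Matrix.of ![Z, A *ᵥ Z, B *ᵥ Z]).det = 0 := by
  have key : ∀ Z : Fin 3 → ℂ, Z 0 ≠ 0 → (Matrix.of ![Z, A *ᵥ Z, B *ᵥ Z]).det = 0 := by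
    intro Z hZ
    have e : Z = Z 0 • hz (pr Z) := by
      funext i
      fin_cases i
      · simp
      · simp [pr, mul_div_cancel₀ _ hZ]
      · simp [pr, mul_div_cancel₀ _ hZ]
    have h1 := h (pr Z)
    rw [e, Matrix.mulVec_smul, Matrix.mulVec_smul, det3]
    rw [det3] at h1
    simp only [Pi.smul_apply, smul_eq_mul]
    linear_combination (Z 0) ^ 3 * h1
  by_cases hZ : Z 0 = 0
  swap
  · exact key Z hZ
  have hc : Continuous fun t : ℂ => (Matrix.of ![Z + t • ![1, 0, 0], A *ᵥ (Z + t • ![1, 0, 0]),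
      B *ᵥ (Z + t • ![1, 0, 0])]).det := by
    simp only [det3, mv3]
    simp only [Pi.add_apply, Pi.smul_apply, smul_eq_mul]
    fun_prop
  have h1 : Tendsto (fun t : ℂ => (Matrix.of ![Z + t • ![1, 0, 0], A *ᵥ (Z + t • ![1, 0, 0]),
      B *ᵥ (Z + t • ![1, 0, 0])]).det) (𝓝[≠] 0) (𝓝 ((Matrix.of ![Z, A *ᵥ Z, B *ᵥ Z]).det)) := by
    have h2 := (hc.tendsto 0).mono_left (nhdsWithin_le_nhds (s := {0}ᶜ))
    simpa using h2
  refine tendsto_nhds_unique h1 (tendsto_const_nhds.congr' ?_)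
  filter_upwards [self_mem_nhdsWithin] with t ht
  refine (key _ ?_).symm
  simpa [hZ] using ht

lemma dag_mv (T : Matrix (Fin 3) (Fin 3) ℂ) (Z : Fin 3 → ℂ) :
    (dag T *ᵥ Z) 0 = conj (T 0 0) * Z 0 - conj (T 1 0) * Z 1 - conj (T 2 0) * Z 2 ∧
    (dag T *ᵥ Z) 1 = - conj (T 0 1) * Z 0 + conj (T 1 1) * Z 1 + conj (T 2 1) * Z 2 ∧
    (dag T *ᵥ Z) 2 = - conj (T 0 2) * Z 0 + conj (T 1 2) * Z 1 + conj (T 2 2) * Z 2 := by
  simp only [mv3, dag, J3, Matrix.mul_diagonal, Matrix.diagonal_mul, Matrix.conjTranspose_apply]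
  refine ⟨?_, ?_, ?_⟩ <;> simp <;> ring

lemma rho_OfT {w : Fin 2 → MvPolynomial (Fin 2) ℂ} {T : Matrix (Fin 3) (Fin 3) ℂ}
    (h : OfT w T) (z : Fin 2 → ℂ) :
    eval z (rho w) = - z 0 * vf T z 1 + z 1 * vf T z 0 := by
  rw [eval_rho, (h z).1, (h z).2]
  ring

end H21n

open H21n

/-- row DETZ -/
theorem detz : DETZ := by
  intro w T hw hT
  refine det_all fun z => ?_
  obtain ⟨z₀, h1, h2⟩ := hw.gen
  -- the polynomial
  set L : Fin 3 → MvPolynomial (Fin 2) ℂ := fun i =>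
    C (dag T i 0) + C (dag T i 1) * X 0 + C (dag T i 2) * X 1 with hL
  have hLe : ∀ (z : Fin 2 → ℂ) (i : Fin 3), eval z (L i) = (dag T *ᵥ hz z) i := by
    intro z i
    rw [mv3]
    simp [hL]
  set p : MvPolynomial (Fin 2) ℂ := - rho w * L 0 + w 0 * L 1 + w 1 * L 2 with hp
  have hpe : ∀ z : Fin 2 → ℂ, eval z p =
      (Matrix.of ![hz z, T *ᵥ hz z, dag T *ᵥ hz z]).det := by
    intro z
    rw [det_OfT hT, hp]
    simp only [map_add, map_mul, map_neg, hLe]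
  have h2' : eval (eta w z₀) (rho (wb w)) ≠ 0 := by
    rw [eval_rho_wb, conj_psi]
    exact (map_ne_zero _).2 h2
  have hp0 : p = 0 := by
    refine poly_zero_of_nhds (z := z₀) ?_
    filter_upwards [ev_nhds h1 h2'] with u hu
    obtain ⟨hu1, hu2⟩ := hu
    rw [eval_rho_wb, conj_psi] at hu2
    have hu2' : eval (psi w u) (rho w) ≠ 0 := (map_ne_zero _).1 hu2
    -- `S(U) · TU = 0`
    have e1 : (Matrix.of ![hz (psi w u), T *ᵥ hz (psi w u), T *ᵥ hz (psi w u)]).det = 0 := by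
      rw [det3]
      ring
    rw [det_OfT hT, hw.inv u hu1 0, hw.inv u hu1 1] at e1
    have e2 : - (T *ᵥ hz (psi w u)) 0 + conj (u 0) * (T *ᵥ hz (psi w u)) 1 +
        conj (u 1) * (T *ᵥ hz (psi w u)) 2 = 0 := by
      refine (mul_eq_zero.1 ?_).resolve_left hu2'
      linear_combination e1
    have e3 := congrArg conj e2
    have c0 : conj (psi w u 0) = eta w u 0 := by simp [psi_eq]
    have c1 : conj (psi w u 1) = eta w u 1 := by simp [psi_eq]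
    simp only [mv3, hz0, hz1, hz2, map_add, map_mul, map_neg, map_zero, Complex.conj_conj, c0, c1,
      map_one] at e3
    have d0 : eta w u 0 * eval u (rho w) = eval u (w 0) := div_mul_cancel₀ _ hu1
    have d1 : eta w u 1 * eval u (rho w) = eval u (w 1) := div_mul_cancel₀ _ hu1
    rw [hpe, det_OfT hT, (dag_mv T (hz u)).1, (dag_mv T (hz u)).2.1, (dag_mv T (hz u)).2.2,
      hz0, hz1, hz2, ← d0, ← d1]
    linear_combination eval u (rho w) * e3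
  rw [← hpe, hp0, map_zero]

/-- row CYC -/
theorem cyc : CYC := by
  intro w T hw hT
  by_contra hcon
  have hall : ∀ Z : Fin 3 → ℂ, (Matrix.of ![Z, T *ᵥ Z, T *ᵥ (T *ᵥ Z)]).det = 0 := by
    intro Z
    by_contra h
    exact hcon ⟨Z, h⟩
  obtain ⟨z, h1, h2⟩ := hw.gen
  have h2' : eval (eta w z) (rho (wb w)) ≠ 0 := by
    rw [eval_rho_wb, conj_psi]
    exact (map_ne_zero _).2 h2
  have hV : vf T z ≠ 0 := by
    intro h0
    apply h1
    rw [rho_OfT hT, h0]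
    simp
  refine hV (eta_dir hw h1 h2' (vf T z) ?_)
  set a0 := (T *ᵥ hz z) 0 with ha0
  set a1 := (T *ᵥ hz z) 1 with ha1
  set a2 := (T *ᵥ hz z) 2 with ha2
  set b0 := (T *ᵥ (T *ᵥ hz z)) 0 with hb0
  set b1 := (T *ᵥ (T *ᵥ hz z)) 1 with hb1
  set b2 := (T *ᵥ (T *ᵥ hz z)) 2 with hb2
  have v0 : vf T z 0 = a1 - z 0 * a0 := rfl
  have v1 : vf T z 1 = a2 - z 1 * a0 := rfl
  have hTt : ∀ (t : ℂ) (i : Fin 3), (T *ᵥ hz (z + t • vf T z)) i =
      (T *ᵥ hz z) i + t * ((T *ᵥ (T *ᵥ hz z)) i - a0 * (T *ᵥ hz z) i) := by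
    intro t i
    rw [mv3 T (T *ᵥ hz z) i, mv3 T (hz (z + t • vf T z)) i]
    simp only [hz0, hz1, hz2, Pi.add_apply, Pi.smul_apply, smul_eq_mul, v0, v1]
    rw [ha1, ha2, ha0, mv3 T (hz z) i, hz0, hz1, hz2]
    ring
  have hw0 : ∀ t : ℂ, eval (z + t • vf T z) (w 0) =
      - ((a2 + t * (b2 - a0 * a2)) - (z 1 + t * (a2 - z 1 * a0)) * (a0 + t * (b0 - a0 * a0))) := by
    intro t
    rw [(hT _).1, vf1, hTt, hTt]
    simp only [Pi.add_apply, Pi.smul_apply, smul_eq_mul, v1, ← ha0, ← ha2, ← hb0, ← hb2]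
  have hw1 : ∀ t : ℂ, eval (z + t • vf T z) (w 1) =
      ((a1 + t * (b1 - a0 * a1)) - (z 0 + t * (a1 - z 0 * a0)) * (a0 + t * (b0 - a0 * a0))) := by
    intro t
    rw [(hT _).2, vf0, hTt, hTt]
    simp only [Pi.add_apply, Pi.smul_apply, smul_eq_mul, v0, ← ha0, ← ha1, ← hb0, ← hb1]
  have hid : HasDerivAt (fun t : ℂ => t) 1 0 := hasDerivAt_id 0
  have hlin : ∀ p q : ℂ, HasDerivAt (fun t : ℂ => p + t * q) q 0 := by
    intro p q
    have := (hid.mul_const q).const_add p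
    rwa [one_mul] at this
  have hd0 : HasDerivAt (fun t : ℂ => eval (z + t • vf T z) (w 0))
      (- ((b2 - a0 * a2) - ((a2 - z 1 * a0) * a0 + z 1 * (b0 - a0 * a0)))) 0 := by
    simp only [hw0]
    have h3 := ((hlin a2 (b2 - a0 * a2)).fun_sub
      ((hlin (z 1) (a2 - z 1 * a0)).fun_mul (hlin a0 (b0 - a0 * a0)))).fun_neg
    simpa using h3
  have hd1 : HasDerivAt (fun t : ℂ => eval (z + t • vf T z) (w 1))
      ((b1 - a0 * a1) - ((a1 - z 0 * a0) * a0 + z 0 * (b0 - a0 * a0))) 0 := by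
    simp only [hw1]
    have h3 := (hlin a1 (b1 - a0 * a1)).fun_sub
      ((hlin (z 0) (a1 - z 0 * a0)).fun_mul (hlin a0 (b0 - a0 * a0)))
    simpa using h3
  set c0 := - ((b2 - a0 * a2) - ((a2 - z 1 * a0) * a0 + z 1 * (b0 - a0 * a0))) with hc0
  set c1 := (b1 - a0 * a1) - ((a1 - z 0 * a0) * a0 + z 0 * (b0 - a0 * a0)) with hc1
  have hdr : HasDerivAt (fun t : ℂ => eval (z + t • vf T z) (rho w)) (z 0 * c0 + z 1 * c1) 0 := by
    have h3 := ((hlin (z 0) (vf T z 0)).fun_mul hd0).fun_add ((hlin (z 1) (vf T z 1)).fun_mul hd1)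
    have h4 : (fun t : ℂ => eval (z + t • vf T z) (rho w)) = fun t : ℂ =>
        (z 0 + t * vf T z 0) * eval (z + t • vf T z) (w 0) +
          (z 1 + t * vf T z 1) * eval (z + t • vf T z) (w 1) := by
      funext t
      rw [eval_rho]
      simp
    rw [h4]
    refine h3.congr_deriv ?_
    simp only [zero_smul, zero_mul, add_zero]
    rw [(hT z).1, (hT z).2]
    ring
  have hz00 : z + (0 : ℂ) • vf T z = z := by simp
  have hdet : (a1 - z 0 * a0) * c0 + (a2 - z 1 * a0) * c1 = 0 := by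
    have h3 := hall (hz z)
    rw [det3] at h3
    simp only [hz0, hz1, hz2, ← ha0, ← ha1, ← ha2, ← hb0, ← hb1, ← hb2] at h3
    rw [hc0, hc1]
    linear_combination -h3
  have e0 : eval z (w 0) = - (a2 - z 1 * a0) := (hT z).1
  have e1 : eval z (w 1) = a1 - z 0 * a0 := (hT z).2
  rw [hasDerivAt_pi]
  intro j
  fin_cases j
  · have h3 := hd0.fun_div hdr (by rw [hz00]; exact h1)
    refine h3.congr_deriv ?_
    rw [hz00]
    have h4 : c0 * eval z (rho w) - eval z (w 0) * (z 0 * c0 + z 1 * c1) = 0 := by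
      rw [eval_rho, e0, e1]
      linear_combination z 1 * hdet
    rw [h4, zero_div]
    rfl
  · have h3 := hd1.fun_div hdr (by rw [hz00]; exact h1)
    refine h3.congr_deriv ?_
    rw [hz00]
    have h4 : c1 * eval z (rho w) - eval z (w 1) * (z 0 * c0 + z 1 * c1) = 0 := by
      rw [eval_rho, e0, e1]
      linear_combination (- z 0) * hdet
    rw [h4, zero_div]
    rfl

end

end Pool.Agent.Lib.MP_6ff8d9_an.N2
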