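import Pool.Agent.Lib.MP_6ff8d9_an_h23.Kill
import Pool.Agent.Lib.MP_6ff8d9_an_h21r.N2Copr
import Pool.Agent.Lib.MP_6ff8d9_an_h99.LocalRow

/-!
# MP_6ff8d9, dimension 2: row RED
-/

set_option autoImplicit false

open Metric Filter Topology MvPolynomial
open scoped ComplexConjugate

namespace Pool.Agent.Lib.MP_6ff8d9_an.N2

open Pool.Agent.Lib.MP_6ff8d9_an Pool.Agent.Lib.MP_6ff8d9_an.H22

noncomputable section

namespace H21n

lemma rho_Wr (P Q : MvPolynomial (Fin 2) ℂ) : rho (fun j => Wr P Q j) = Rr P Q := by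
  rw [rho, Rr, Fin.sum_univ_two]

lemma psi_Wr (P Q : MvPolynomial (Fin 2) ℂ) (z : Fin 2 → ℂ) :
    psi (fun j => Wr P Q j) z = rfl' P Q z := by
  funext j
  rw [psi, rfl', rho_Wr]

lemma exists_eval_ne {p : MvPolynomial (Fin 2) ℂ} (hp : p ≠ 0) : ∃ z, eval z p ≠ 0 := by
  by_contra h
  push Not at h
  exact hp (MvPolynomial.funext fun z => by rw [h z, map_zero])

lemma Wr_smul_left (κ : ℂ) (P : MvPolynomial (Fin 2) ℂ) : Rr P (C κ * P) = 0 := by
  have h : ∀ j, Wr P (C κ * P) j = 0 := by
    intro j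
    rw [Wr]
    simp only [Derivation.leibniz, pderiv_C, smul_eq_mul, mul_zero, add_zero]
    ring
  rw [Rr]
  simp [h]

/-- step (i) -/
lemma exists_refl {P Q : MvPolynomial (Fin 2) ℂ}
    (hfin : {z : Fin 2 → ℂ | eval z P = 0 ∧ eval z Q = 0}.Finite) (hD : Dual P Q) :
    ∃ z, eval z (Rr P Q) ≠ 0 ∧ eval (rfl' P Q z) (Rr P Q) ≠ 0 := by
  by_contra hcon
  push Not at hcon
  obtain ⟨hr0, hD⟩ := hD
  set w : Fin 2 → MvPolynomial (Fin 2) ℂ := fun j => Wr P Q j with hw
  have hrho : rho w = Rr P Q := rho_Wr P Q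
  have hpsi : ∀ z, (fun i => conj (eta w z i)) = rfl' P Q z := fun z => by
    rw [conj_psi, hw, psi_Wr]
  have hW : ∀ z, eval z (Rr P Q) ≠ 0 → ∀ j, eval (rfl' P Q z) (Wr P Q j) = 0 := by
    intro z hz j
    rw [(hD z hz).2 j, hcon z hz, mul_zero]
  set Pb : MvPolynomial (Fin 2) ℂ := map (starRingEnd ℂ) P with hPb
  set Qb : MvPolynomial (Fin 2) ℂ := map (starRingEnd ℂ) Q with hQb
  have hPQ : ∀ z, eval z (Rr P Q) ≠ 0 →
      eval z P * eval (eta w z) Pb = eval z Q * eval (eta w z) Qb := by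
    intro z hz
    rw [hPb, hQb, eval_conj, eval_conj, hpsi]
    exact (hD z hz).1
  have hWb : ∀ z, eval z (Rr P Q) ≠ 0 → ∀ j,
      eval (eta w z) Qb * eval (eta w z) (pderiv j Pb) -
        eval (eta w z) Pb * eval (eta w z) (pderiv j Qb) = 0 := by
    intro z hz j
    have h1 := hW z hz j
    have h2 : eval (eta w z) (map (starRingEnd ℂ) (Wr P Q j)) = 0 := by
      rw [eval_conj, hpsi, h1, map_zero]
    rw [Wr] at h2
    simp only [map_sub, map_mul, ← MvPolynomial.pderiv_map] at h2
    exact h2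
  by_cases hA : ∃ z, eval z (Rr P Q) ≠ 0 ∧ eval (eta w z) Qb ≠ 0
  · -- `p/q` is locally constant
    obtain ⟨z₂, hz2, hq2⟩ := hA
    set U : Set (Fin 2 → ℂ) := {z | eval z (Rr P Q) ≠ 0 ∧ eval (eta w z) Qb ≠ 0} with hU
    have hcontA : ∀ z, eval z (Rr P Q) ≠ 0 → ContinuousAt (eta w) z := fun z hz =>
      eta_cont w (by rw [hrho]; exact hz)
    have hUo : IsOpen U := by
      rw [isOpen_iff_mem_nhds]
      rintro z ⟨hz, hq⟩
      have a1 : ∀ᶠ u in 𝓝 z, eval u (Rr P Q) ≠ 0 :=
        (continuous_ev _).continuousAt.eventually_ne hz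
      have a2 : ContinuousAt (fun u => eval (eta w u) Qb) z :=
        ContinuousAt.comp (f := eta w) (g := fun v => eval v Qb)
          (continuous_ev _).continuousAt (hcontA z hz)
      exact a1.and (a2.eventually_ne hq)
    set φ : (Fin 2 → ℂ) → ℂ := fun z => eval (eta w z) Pb / eval (eta w z) Qb with hφ
    have hφd : ∀ z ∈ U, HasFDerivAt φ (0 : (Fin 2 → ℂ) →L[ℂ] ℂ) z := by
      rintro z ⟨hz, hq⟩
      have he := (eta_diff w (z := z) (by rw [hrho]; exact hz)).hasFDerivAt
      have h1 := (H99.hasFDerivAt_eval Pb (eta w z)).comp z he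
      have h2 := (H99.hasFDerivAt_eval Qb (eta w z)).comp z he
      have h3 : HasFDerivAt (fun z => (eval (eta w z) Qb)⁻¹)
          (-(eval (eta w z) Qb ^ 2)⁻¹ • ((∑ j, (eval (eta w z) (pderiv j Qb)) •
            (ContinuousLinearMap.proj (R := ℂ) (φ := fun _ : Fin 2 => ℂ) j)).comp
              (fderiv ℂ (eta w) z))) z := (hasDerivAt_inv hq).comp_hasFDerivAt z h2
      have h4 := h1.mul h3
      have h5 : φ = fun z => eval (eta w z) Pb * (eval (eta w z) Qb)⁻¹ := by
        funext z
        show eval (eta w z) Pb / eval (eta w z) Qb = _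
        rw [div_eq_mul_inv]
      rw [h5]
      refine h4.congr_fderiv ?_
      ext1 v
      simp only [add_apply, smul_apply, Function.comp_apply,
        ContinuousLinearMap.comp_apply, ContinuousLinearMap.proj_apply, smul_eq_mul,
        zero_apply, Fin.sum_univ_two]
      have k0 := hWb z hz 0
      have k1 := hWb z hz 1
      field_simp
      linear_combination (fderiv ℂ (eta w) z v 0) * k0 + (fderiv ℂ (eta w) z v 1) * k1
    obtain ⟨ε, hε, hεU⟩ := Metric.isOpen_iff.1 hUo z₂ ⟨hz2, hq2⟩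
    have hconst : ∀ z ∈ ball z₂ ε, φ z = φ z₂ := by
      intro z hz
      refine isOpen_ball.is_const_of_fderiv_eq_zero (𝕜 := ℂ) (convex_ball z₂ ε).isPreconnected
        (fun y hy => (hφd y (hεU hy)).differentiableAt.differentiableWithinAt)
        (fun y hy => (hφd y (hεU hy)).fderiv) hz (mem_ball_self hε)
    have hpoly : Q - C (φ z₂) * P = 0 := by
      refine poly_zero_of_nhds (z := z₂) ?_
      filter_upwards [isOpen_ball.mem_nhds (mem_ball_self hε)] with z hz
      obtain ⟨hz1, hz2'⟩ := hεU hz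
      have h1 := hPQ z hz1
      have h2 : eval (eta w z) Pb = φ z₂ * eval (eta w z) Qb := by
        rw [← hconst z hz, hφ]
        exact (div_mul_cancel₀ _ hz2').symm
      rw [h2] at h1
      simp only [map_sub, map_mul, eval_C]
      have h3 : (eval z Q - φ z₂ * eval z P) * eval (eta w z) Qb = 0 := by
        linear_combination -h1
      exact (mul_eq_zero.1 h3).resolve_right hz2'
    apply hr0
    rw [sub_eq_zero.1 hpoly]
    exact Wr_smul_left _ _
  · push Not at hA
    by_cases hP : P = 0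
    · apply hr0
      subst hP
      have h : ∀ j, Wr 0 Q j = 0 := by
        intro j
        rw [Wr]
        simp
      rw [Rr]
      simp [h]
    have hne : Rr P Q * P ≠ 0 := mul_ne_zero hr0 hP
    obtain ⟨z₃, hz3⟩ := exists_eval_ne hne
    rw [map_mul] at hz3
    have hr3 := left_ne_zero_of_mul hz3
    have hP3 := right_ne_zero_of_mul hz3
    have hev : ∀ᶠ z in 𝓝 z₃, eval z (Rr P Q) ≠ 0 ∧ eval z P ≠ 0 :=
      ((continuous_ev _).continuousAt.eventually_ne hr3).and
        ((continuous_ev _).continuousAt.eventually_ne hP3)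
    set F : Set (Fin 2 → ℂ) := {z | eval z P = 0 ∧ eval z Q = 0} with hF
    have hmem : ∀ z, eval z (Rr P Q) ≠ 0 ∧ eval z P ≠ 0 → rfl' P Q z ∈ F := by
      rintro z ⟨hz, hPz⟩
      have h1 := hA z hz
      have h2 := hPQ z hz
      rw [h1, mul_zero] at h2
      have h3 := (mul_eq_zero.1 h2).resolve_left hPz
      rw [hPb, eval_conj, hpsi] at h3
      rw [hQb, eval_conj, hpsi] at h1
      exact ⟨(map_eq_zero _).1 h3, (map_eq_zero _).1 h1⟩
    have hcont : ContinuousAt (rfl' P Q) z₃ := by
      have h1 : ContinuousAt (eta w) z₃ := eta_cont w (by rw [hrho]; exact hr3)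
      have h2 : rfl' P Q = fun z => fun i => conj (eta w z i) := by
        funext z
        rw [hpsi]
      rw [h2]
      rw [continuousAt_pi] at h1 ⊢
      intro i
      exact Complex.continuous_conj.continuousAt.comp (h1 i)
    have hdisc : ∀ᶠ z in 𝓝 z₃, rfl' P Q z = rfl' P Q z₃ := by
      have h1 : (F \ {rfl' P Q z₃}).Finite := hfin.subset Set.sdiff_subset
      have h2 : (F \ {rfl' P Q z₃})ᶜ ∈ 𝓝 (rfl' P Q z₃) :=
        h1.isClosed.isOpen_compl.mem_nhds (by simp)
      filter_upwards [hcont.eventually h2, hev] with z hz1 hz2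
      by_contra hne'
      exact hz1 ⟨hmem z hz2, hne'⟩
    set e : Fin 2 → ℂ := eta w z₃ with he
    have heta : ∀ᶠ z in 𝓝 z₃, eval z (Rr P Q) ≠ 0 ∧ eta w z = e := by
      filter_upwards [hdisc, hev] with z hz hz'
      refine ⟨hz'.1, ?_⟩
      rw [← hpsi z, ← hpsi z₃] at hz
      funext i
      have h1 := congrFun hz i
      exact star_injective h1
    have hpoly : ∀ j, w j - C (e j) * Rr P Q = 0 := by
      intro j
      refine poly_zero_of_nhds (z := z₃) ?_
      filter_upwards [heta] with z hz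
      have h1 := congrFun hz.2 j
      simp only [map_sub, map_mul, eval_C]
      rw [sub_eq_zero, ← h1]
      show eval z (w j) = eval z (w j) / eval z (rho w) * eval z (Rr P Q)
      rw [hrho, div_mul_cancel₀ _ hz.1]
    have h1 : Rr P Q * (X 0 * C (e 0) + X 1 * C (e 1) - 1) = 0 := by
      have h2 : Rr P Q = X 0 * w 0 + X 1 * w 1 := by
        rw [← hrho]
        rfl
      have h3 := sub_eq_zero.1 (hpoly 0)
      have h4 := sub_eq_zero.1 (hpoly 1)
      have h5 : X 0 * w 0 + X 1 * w 1 = X 0 * (C (e 0) * Rr P Q) + X 1 * (C (e 1) * Rr P Q) := by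
        rw [h3, h4]
      rw [← h2] at h5
      linear_combination -h5
    have h2 := (mul_eq_zero.1 h1).resolve_left hr0
    have h3 := congrArg (eval (0 : Fin 2 → ℂ)) h2
    simp at h3

/-- analytic continuation along lines -/
lemma inv_all {w : Fin 2 → MvPolynomial (Fin 2) ℂ} {z₀ : Fin 2 → ℂ}
    (h0 : eval z₀ (rho w) ≠ 0) (j : Fin 2)
    (hloc : ∀ᶠ z in 𝓝 z₀, eval (eta w z) (wb w j) = z j * eval (eta w z) (rho (wb w)))
    {z : Fin 2 → ℂ} (hz : eval z (rho w) ≠ 0) :
    eval (eta w z) (wb w j) = z j * eval (eta w z) (rho (wb w)) := by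
  set L : ℂ → (Fin 2 → ℂ) := fun t => z₀ + t • (z - z₀) with hL
  have hLd : Differentiable ℂ L := by fun_prop
  set S : Set ℂ := {t | eval (L t) (rho w) ≠ 0} with hS
  have hpol : ln z₀ (z - z₀) (rho w) ≠ 0 := by
    intro h
    have h1 := eval_ln z₀ (z - z₀) (rho w) 0
    rw [h, Polynomial.eval_zero, zero_smul, add_zero] at h1
    exact h0 h1.symm
  have hSc : Sᶜ.Countable := by
    have h1 : Sᶜ ⊆ ((ln z₀ (z - z₀) (rho w)).roots.toFinset : Set ℂ) := by
      intro t ht
      have h2 : eval (L t) (rho w) = 0 := by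
        by_contra h
        exact ht h
      rw [Finset.mem_coe, Multiset.mem_toFinset, Polynomial.mem_roots hpol, Polynomial.IsRoot,
        eval_ln]
      exact h2
    exact (Finset.finite_toSet _).countable.mono h1
  have hSpre : IsPreconnected S := by
    have h1 := hSc.isPathConnected_compl_of_one_lt_rank (by
      rw [Complex.rank_real_complex]
      norm_num)
    rw [compl_compl] at h1
    exact h1.isConnected.isPreconnected
  have hSo : IsOpen S := by
    have h1 : Continuous fun t => eval (L t) (rho w) := (continuous_ev _).comp hLd.continuous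
    exact isOpen_ne.preimage h1
  set φ : ℂ → ℂ := fun t => eval (eta w (L t)) (wb w j) -
    (L t) j * eval (eta w (L t)) (rho (wb w)) with hφ
  have hφd : DifferentiableOn ℂ φ S := by
    intro t ht
    have h1 : DifferentiableAt ℂ (fun t => eta w (L t)) t :=
      DifferentiableAt.comp t (eta_diff w ht) hLd.differentiableAt
    have h2 : DifferentiableAt ℂ (fun t => eval (eta w (L t)) (wb w j)) t :=
      DifferentiableAt.comp (f := fun t => eta w (L t))
        (g := fun v : Fin 2 → ℂ => eval v (wb w j)) t (differentiable_eval _).differentiableAt h1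
    have h3 : DifferentiableAt ℂ (fun t => eval (eta w (L t)) (rho (wb w))) t :=
      DifferentiableAt.comp (f := fun t => eta w (L t))
        (g := fun v : Fin 2 → ℂ => eval v (rho (wb w))) t
        (differentiable_eval _).differentiableAt h1
    have h4 : DifferentiableAt ℂ (fun t => (L t) j) t := by
      have := (differentiable_pi.1 hLd) j
      exact this.differentiableAt
    exact (h2.sub (h4.mul h3)).differentiableWithinAt
  have h0S : (0 : ℂ) ∈ S := by
    show eval (L 0) (rho w) ≠ 0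
    simpa [hL] using h0
  have h1S : (1 : ℂ) ∈ S := by
    show eval (L 1) (rho w) ≠ 0
    simpa [hL] using hz
  have hnear : φ =ᶠ[𝓝 0] 0 := by
    have h1 : Tendsto L (𝓝 0) (𝓝 z₀) := by
      have h2 := hLd.continuous.tendsto 0
      simpa [hL] using h2
    filter_upwards [h1.eventually hloc] with t ht
    simp [hφ, ht]
  have h1 := (hφd.analyticOnNhd hSo).eqOn_zero_of_preconnected_of_eventuallyEq_zero hSpre h0S
    hnear h1S
  have h2 : φ 1 = 0 := h1
  have h3 : L 1 = z := by simp [hL]
  rw [hφ] at h2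
  simp only [h3] at h2
  exact sub_eq_zero.1 h2

end H21n

open H21n

/-- row RED -/
theorem red : RED := by
  intro P Q hfin hD
  have hr0 : Rr P Q ≠ 0 := hD.1
  obtain ⟨G, a, b, hA, hB, hab⟩ := copr (Wr P Q 0) (Wr P Q 1) (by
    by_contra h
    push Not at h
    apply hr0
    rw [Rr, Fin.sum_univ_two, h.1, h.2]
    simp)
  set w : Fin 2 → MvPolynomial (Fin 2) ℂ := ![a, b] with hw
  have hWG : ∀ j, Wr P Q j = G * w j := by
    intro j
    fin_cases j
    · exact hA
    · exact hB
  have hrG : Rr P Q = G * rho w := by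
    rw [Rr, Fin.sum_univ_two, hWG, hWG, rho]
    ring
  have hG : G ≠ 0 := by
    rintro rfl
    exact hr0 (by rw [hrG, zero_mul])
  have hpsi : ∀ z, eval z (Rr P Q) ≠ 0 → psi w z = rfl' P Q z := by
    intro z hz
    rw [hrG, map_mul] at hz
    have hGz := left_ne_zero_of_mul hz
    have hρz := right_ne_zero_of_mul hz
    funext j
    show conj (eval z (w j) / eval z (rho w)) = conj (eval z (Wr P Q j) / eval z (Rr P Q))
    rw [hWG, hrG, map_mul, map_mul, mul_div_mul_left _ _ hGz]
  obtain ⟨z₀, hz1, hz2⟩ := exists_refl hfin hD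
  have hz1' : eval z₀ (rho w) ≠ 0 := by
    rw [hrG, map_mul] at hz1
    exact right_ne_zero_of_mul hz1
  have hz2' : eval (psi w z₀) (rho w) ≠ 0 := by
    rw [hpsi z₀ hz1]
    rw [hrG, map_mul] at hz2
    exact right_ne_zero_of_mul hz2
  refine ⟨G, w, hG, hWG, hab, ?_, z₀, hz1', hz2'⟩
  -- the local identity
  have hloc : ∀ j, ∀ᶠ z in 𝓝 z₀,
      eval (eta w z) (wb w j) = z j * eval (eta w z) (rho (wb w)) := by
    intro j
    have a1 : ∀ᶠ z in 𝓝 z₀, eval z (Rr P Q) ≠ 0 :=
      (continuous_ev _).continuousAt.eventually_ne hz1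
    have a2 : ContinuousAt (fun u => eval (eta w u) (map (starRingEnd ℂ) (Rr P Q))) z₀ :=
      ContinuousAt.comp (f := eta w) (g := fun v => eval v (map (starRingEnd ℂ) (Rr P Q)))
        (continuous_ev _).continuousAt (eta_cont w hz1')
    have a3 : eval (eta w z₀) (map (starRingEnd ℂ) (Rr P Q)) ≠ 0 := by
      rw [eval_conj, conj_psi, hpsi z₀ hz1]
      exact (map_ne_zero _).2 hz2
    filter_upwards [a1, a2.eventually_ne a3] with z hz hz'
    rw [eval_conj, conj_psi, hpsi z hz] at hz'
    have hz'' : eval (rfl' P Q z) (Rr P Q) ≠ 0 := (map_ne_zero _).1 hz'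
    have h1 := (hD.2 z hz).2 j
    rw [hWG, hrG, map_mul, map_mul] at h1
    rw [hrG, map_mul] at hz''
    have hGz := left_ne_zero_of_mul hz''
    have h2 : eval (rfl' P Q z) (w j) = conj (z j) * eval (rfl' P Q z) (rho w) := by
      refine mul_left_cancel₀ hGz ?_
      linear_combination h1
    rw [eval_wb, eval_rho_wb, conj_psi, hpsi z hz, h2, map_mul, Complex.conj_conj]
  intro z hz j
  have h1 := inv_all hz1' j (hloc j) hz
  rw [eval_wb, eval_rho_wb, conj_psi] at h1
  have h2 := congrArg conj h1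
  rw [map_mul, Complex.conj_conj, Complex.conj_conj] at h2
  exact h2

end

end Pool.Agent.Lib.MP_6ff8d9_an.N2
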