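import Pool.Agent.Lib.MP_6ff8d9_an_h82.RowsL

/-!
# MP_6ff8d9, THEOREM L, row RESD: weighted argument principle on a disc
-/

set_option autoImplicit false

open Metric Filter Topology Set

namespace Pool.Agent.Lib.MP_6ff8d9_an.H82L

noncomputable section

private lemma exists_list (S : Finset ℂ) (n : ℂ → ℕ) : ∃ l : List ℂ, (∀ z ∈ l, z ∈ S) ∧
    ∀ w : ℂ, (l.map fun z => w - z).prod = ∏ u ∈ S, (w - u) ^ n u := by
  classical
  induction S using Finset.induction_on with
  | empty => exact ⟨[], by simp, by simp⟩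
  | insert u S hu ih =>
    obtain ⟨l, h1, h2⟩ := ih
    refine ⟨List.replicate (n u) u ++ l, ?_, ?_⟩
    · intro z hz
      rw [List.mem_append] at hz
      rcases hz with hz | hz
      · rw [List.eq_of_mem_replicate hz]
        exact Finset.mem_insert_self _ _
      · exact Finset.mem_insert_of_mem (h1 z hz)
    · intro w
      rw [List.map_append, List.prod_append, h2, List.map_replicate, List.prod_replicate,
        Finset.prod_insert hu]

/-- the zeros in the closed disc are taken out -/
theorem disc_factor {f : ℂ → ℂ} {r : ℝ} (hr : 0 < r)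
    (hf : AnalyticOnNhd ℂ f (closedBall 0 r)) (h0 : ∀ l ∈ sphere (0 : ℂ) r, f l ≠ 0) :
    ∃ (k : ℕ) (z : Fin k → ℂ) (g : ℂ → ℂ), (∀ i, z i ∈ ball (0 : ℂ) r) ∧ (∀ i, f (z i) = 0) ∧
      AnalyticOnNhd ℂ g (closedBall 0 r) ∧ (∀ s ∈ closedBall (0 : ℂ) r, g s ≠ 0) ∧
      (∀ s ∈ closedBall (0 : ℂ) r, f =ᶠ[𝓝 s] fun w => (∏ i, (w - z i)) * g w) := by
  set U : Set ℂ := closedBall 0 r with hU
  have hrU : (r : ℂ) ∈ sphere (0 : ℂ) r := by
    rw [mem_sphere_zero_iff_norm, Complex.norm_real, Real.norm_of_nonneg hr.le]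
  have hac : (r : ℂ) ∈ U := sphere_subset_closedBall hrU
  have hbd : (0 : ℂ) ∈ U := mem_closedBall_self hr.le
  have hconn : IsPreconnected U := (convex_closedBall 0 r).isPreconnected
  have hnt : U.Nontrivial := ⟨(r : ℂ), hac, 0, hbd, by exact_mod_cast hr.ne'⟩
  have hperf : Preperfect U := hconn.preperfect_of_nontrivial hnt
  have hmer : MeromorphicOn f U := hf.meromorphicOn
  have hzero : ∀ s ∈ U, f s = 0 → s ∈ ball (0 : ℂ) r := by
    intro s hs hfs
    have h1 : ‖s‖ ≤ r := by simpa [hU] using hs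
    rw [mem_ball_zero_iff]
    refine lt_of_le_of_ne h1 fun h => ?_
    exact h0 s (mem_sphere_zero_iff_norm.2 h) hfs
  have hord0 : ∀ s ∈ U, f s ≠ 0 → meromorphicOrderAt f s = 0 := by
    intro s hs hfs
    rw [(hf s hs).meromorphicOrderAt_eq, (hf s hs).analyticOrderAt_eq_zero.2 hfs]
    rfl
  have hord : ∀ u : U, meromorphicOrderAt f u ≠ ⊤ := by
    refine (hmer.exists_meromorphicOrderAt_ne_top_iff_forall ⟨⟨_, hac⟩, hconn⟩).1 ⟨⟨_, hac⟩, ?_⟩
    rw [hord0 _ hac (h0 _ hrU)]
    simp
  have hfin : (MeromorphicOn.divisor f U).support.Finite :=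
    (MeromorphicOn.divisor f U).finiteSupport (isCompact_closedBall 0 r)
  obtain ⟨g, hg, hg0, hfg⟩ := MeromorphicOn.extract_zeros_poles hmer hord hfin
  have hD0 : ∀ u, 0 ≤ MeromorphicOn.divisor f U u :=
    fun u => MeromorphicOn.AnalyticOnNhd.divisor_nonneg hf u
  obtain ⟨l, hl1, hl2⟩ := exists_list hfin.toFinset fun u => (MeromorphicOn.divisor f U u).toNat
  have hprod : ∀ w, (∏ᶠ u, (w - u) ^ MeromorphicOn.divisor f U u) =
      ∏ i : Fin l.length, (w - l[i.1]) := by
    intro w
    rw [Fin.prod_univ_fun_getElem l (fun z => w - z), hl2,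
      finprod_eq_prod_of_mulSupport_subset (s := hfin.toFinset)]
    · refine Finset.prod_congr rfl fun u _ => ?_
      rw [← zpow_natCast, Int.toNat_of_nonneg (hD0 u)]
    · intro u
      contrapose
      simp_all
  have hz0 : ∀ i : Fin l.length, l[i.1] ∈ U ∧ f l[i.1] = 0 := by
    intro i
    have h1 := hl1 l[i.1] (List.getElem_mem _)
    rw [Set.Finite.mem_toFinset, Function.mem_support] at h1
    have h2 : l[i.1] ∈ U := by
      by_contra h
      exact h1 (Function.locallyFinsuppWithin.apply_eq_zero_of_notMem _ h)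
    refine ⟨h2, ?_⟩
    by_contra h
    apply h1
    rw [MeromorphicOn.divisor_apply hmer h2, hord0 _ h2 h]
    rfl
  refine ⟨l.length, fun i => l[i.1], g, fun i => hzero _ (hz0 i).1 (hz0 i).2,
    fun i => (hz0 i).2, hg, fun s hs => hg0 ⟨s, hs⟩, ?_⟩
  intro s hs
  have hF : AnalyticAt ℂ (fun w => (∏ i : Fin l.length, (w - l[i.1])) * g w) s := by
    refine AnalyticAt.mul ?_ (hg s hs)
    exact Finset.analyticAt_fun_prod _ fun i _ => analyticAt_id.sub analyticAt_const
  have hfF : f =ᶠ[codiscreteWithin U] fun w => (∏ i : Fin l.length, (w - l[i.1])) * g w := by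
    refine hfg.trans (Eventually.of_forall fun w => ?_)
    rw [Function.FactorizedRational.finprod_eq_fun hfin]
    simp only [Pi.smul_apply', smul_eq_mul, hprod]
  have h1 := (hf s hs).meromorphicAt.eventuallyEq_nhdsNE_of_eventuallyEq_codiscreteWithin
    hF.meromorphicAt hs (hperf s hs) hfF
  exact ((hf s hs).continuousAt.eventuallyEq_nhds_iff_eventuallyEq_nhdsNE hF.continuousAt).1 h1

/-- row RESD -/
theorem resd : RESD := by
  intro r V D hr hV hrV hD h0
  obtain ⟨k, p, g, hp, hp0, hg, hg0, hfac⟩ := disc_factor hr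
    ((hD.analyticOnNhd hV).mono hrV) h0
  refine ⟨k, p, hp, hp0, fun l hl hl0 => ?_, fun h hh => ?_⟩
  · have h1 := (hfac l hl).self_of_nhds
    rw [hl0] at h1
    rcases mul_eq_zero.1 h1.symm with h2 | h2
    · obtain ⟨i, -, hi⟩ := Finset.prod_eq_zero_iff.1 h2
      exact ⟨i, (sub_eq_zero.1 hi).symm⟩
    · exact absurd h2 (hg0 l hl)
  have hne : ∀ l ∈ sphere (0 : ℂ) r, ∀ i, l - p i ≠ 0 := by
    intro l hl i h
    have h1 := hp i
    rw [← sub_eq_zero.1 h, mem_ball_zero_iff, mem_sphere_zero_iff_norm.1 hl] at h1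
    exact lt_irrefl _ h1
  have hint : ∀ l ∈ sphere (0 : ℂ) r, h l * (deriv D l / D l) =
      (∑ i, (l - p i)⁻¹ • h l) + h l * (deriv g l / g l) := by
    intro l hl
    have hlU : l ∈ closedBall (0 : ℂ) r := sphere_subset_closedBall hl
    have h1 : deriv D l / D l = logDeriv (fun w => (∏ i, (w - p i)) * g w) l :=
      (logDeriv_congr_nhds (hfac l hlU)).self_of_nhds
    have h2 : logDeriv (fun w => (∏ i, (w - p i)) * g w) l =
        logDeriv (fun w => ∏ i, (w - p i)) l + logDeriv g l := by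
      refine logDeriv_mul l (Finset.prod_ne_zero_iff.2 fun i _ => hne l hl i) (hg0 l hlU) ?_
        (hg l hlU).differentiableAt
      fun_prop
    have h3 : logDeriv (fun w => ∏ i, (w - p i)) l = ∑ i, logDeriv (fun w => w - p i) l :=
      logDeriv_prod (fun i _ => hne l hl i) fun i _ => by fun_prop
    have h4 : ∀ i, logDeriv (fun w => w - p i) l = (l - p i)⁻¹ := by
      intro i
      rw [logDeriv_apply, deriv_sub_const, deriv_id'', one_div]
    rw [h1, h2, h3, mul_add, Finset.mul_sum]
    congr 1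
    refine Finset.sum_congr rfl fun i _ => ?_
    rw [h4, smul_eq_mul, mul_comm]
  have hhc : ContinuousOn h (closedBall 0 r) := (hh.mono hrV).continuousOn
  have hGd : DifferentiableOn ℂ (fun l => h l * (deriv g l / g l)) (closedBall 0 r) := by
    intro l hl
    have h1 : DifferentiableAt ℂ h l := (hh l (hrV hl)).differentiableAt (hV.mem_nhds (hrV hl))
    exact (h1.mul ((hg l hl).deriv.differentiableAt.div (hg l hl).differentiableAt
      (hg0 l hl))).differentiableWithinAt
  rw [circleIntegral.integral_congr hr.le hint, circleIntegral.integral_add,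
    circleIntegral.integral_fun_sum]
  · have h1 : (∮ l in C(0, r), h l * (deriv g l / g l)) = 0 := by
      refine DiffContOnCl.circleIntegral_eq_zero hr.le (DifferentiableOn.diffContOnCl ?_)
      rwa [closure_ball (0 : ℂ) hr.ne']
    rw [h1, add_zero, Finset.mul_sum]
    refine Finset.sum_congr rfl fun i _ => ?_
    exact (hh.mono hrV).circleIntegral_sub_inv_smul (hp i)
  · intro i _
    refine ContinuousOn.circleIntegrable hr.le ?_
    refine ContinuousOn.smul (ContinuousOn.inv₀ (by fun_prop) fun l hl => hne l hl i)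
      (hhc.mono sphere_subset_closedBall)
  · refine ContinuousOn.circleIntegrable hr.le ?_
    refine continuousOn_finsetSum _ fun i _ => ?_
    exact ContinuousOn.smul (ContinuousOn.inv₀ (by fun_prop) fun l hl => hne l hl i)
      (hhc.mono sphere_subset_closedBall)
  · exact (hGd.continuousOn.mono sphere_subset_closedBall).circleIntegrable hr.le

end

end Pool.Agent.Lib.MP_6ff8d9_an.H82L
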