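import Pool.Agent.Lib.MP_6ff8d9_an_h8.SymRows
import Pool.Agent.Lib.MP_6ff8d9_an_h23.Proj

/-!
# MP_6ff8d9, dimension 2, row CARTAN: the automorphisms of the ball
-/

set_option autoImplicit false

open Metric Filter Topology Matrix
open scoped ComplexConjugate

namespace Pool.Agent.Lib.MP_6ff8d9_an.N2

open Pool.Agent.Lib.MP_6ff8d9_an Pool.Agent.Lib.MP_6ff8d9_an.H22

noncomputable section

namespace H21c

/-- a norm preserving holomorphic map of the ball is linear -/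
lemma linear_of_norm {χ : Cn 2 → Cn 2} (hχ : DifferentiableOn ℂ χ (ball 0 1))
    (hn : ∀ z ∈ ball (0 : Cn 2) 1, ‖χ z‖ = ‖z‖) :
    ∀ z ∈ ball (0 : Cn 2) 1, χ z = fderiv ℂ χ 0 z := by
  have h00 : χ 0 = 0 := by
    have h1 := hn 0 (mem_ball_self one_pos)
    rw [norm_zero] at h1
    exact norm_eq_zero.1 h1
  have hχ0 : HasFDerivAt χ (fderiv ℂ χ 0) 0 :=
    ((hχ 0 (mem_ball_self one_pos)).differentiableAt (ball_mem_nhds _ one_pos)).hasFDerivAt
  -- on unit vectors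
  have key : ∀ ζ : Cn 2, ‖ζ‖ = 1 → ∀ l ∈ ball (0 : ℂ) 1, χ (l • ζ) = l • fderiv ℂ χ 0 ζ := by
    intro ζ hζ
    have hmem : ∀ l ∈ ball (0 : ℂ) 1, l • ζ ∈ ball (0 : Cn 2) 1 := by
      intro l hl
      rw [mem_ball_zero_iff] at hl ⊢
      rw [norm_smul, hζ, mul_one]
      exact hl
    have hgn : ∀ l ∈ ball (0 : ℂ) 1, ‖χ (l • ζ)‖ = ‖l‖ := by
      intro l hl
      rw [hn _ (hmem l hl), norm_smul, hζ, mul_one]
    set g : ℂ → Cn 2 := fun l => χ (l • ζ) with hg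
    have hg0 : g 0 = 0 := by
      simp only [hg, zero_smul, h00]
    have hgd : DifferentiableOn ℂ g (ball 0 1) :=
      hχ.comp (by fun_prop : Differentiable ℂ fun l : ℂ => l • ζ).differentiableOn hmem
    have hmaps : Set.MapsTo g (ball 0 1) (closedBall (g 0) 1) := by
      intro l hl
      rw [hg0, mem_closedBall_zero_iff]
      rw [hg]
      simp only
      rw [hgn l hl]
      exact (mem_ball_zero_iff.1 hl).le
    have hhalf : (1 / 2 : ℂ) ∈ ball (0 : ℂ) 1 := by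
      rw [mem_ball_zero_iff]
      norm_num
    have hds : ‖dslope g 0 (1 / 2)‖ = 1 / 1 := by
      rw [dslope_of_ne g (by norm_num : (1 / 2 : ℂ) ≠ 0), slope_def_module, hg0, sub_zero, sub_zero,
        norm_smul]
      have h1 : ‖g (1 / 2)‖ = ‖(1 / 2 : ℂ)‖ := hgn _ hhalf
      rw [h1]
      norm_num
    have haff := Complex.affine_of_mapsTo_ball_of_norm_dslope_eq_div hgd hmaps hhalf hds
    set w := dslope g 0 (1 / 2) with hw
    have haff' : ∀ l ∈ ball (0 : ℂ) 1, g l = l • w := by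
      intro l hl
      have h1 := haff hl
      simp only [hg0, sub_zero, zero_add] at h1
      exact h1
    -- the derivative at the origin
    have hd1 : HasDerivAt g (fderiv ℂ χ 0 ζ) 0 := by
      have h2 : HasDerivAt (fun l : ℂ => l • ζ) ζ 0 := by
        simpa using (hasDerivAt_id (0 : ℂ)).smul_const ζ
      have h3 : HasFDerivAt χ (fderiv ℂ χ 0) ((0 : ℂ) • ζ) := by
        rw [zero_smul]
        exact hχ0
      exact h3.comp_hasDerivAt 0 h2
    have hd2 : HasDerivAt g w 0 := by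
      have h2 : HasDerivAt (fun l : ℂ => l • w) w 0 := by
        simpa using (hasDerivAt_id (0 : ℂ)).smul_const w
      refine h2.congr_of_eventuallyEq ?_
      filter_upwards [ball_mem_nhds (0 : ℂ) one_pos] with l hl
      exact haff' l hl
    have hwL : w = fderiv ℂ χ 0 ζ := hd2.unique hd1
    intro l hl
    rw [← hwL]
    exact haff' l hl
  intro z hz
  by_cases hz0 : z = 0
  · rw [hz0, h00, map_zero]
  · have hnz : (‖z‖ : ℂ) ≠ 0 := by exact_mod_cast norm_ne_zero_iff.2 hz0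
    have h1 := key ((‖z‖ : ℂ)⁻¹ • z) (by
      rw [norm_smul, norm_inv, Complex.norm_real, norm_norm,
        inv_mul_cancel₀ (norm_ne_zero_iff.2 hz0)]) (‖z‖ : ℂ) (by
      rw [mem_ball_zero_iff, Complex.norm_real, norm_norm]
      exact mem_ball_zero_iff.1 hz)
    rw [map_smul, smul_smul, smul_smul, mul_inv_cancel₀ hnz, one_smul, one_smul] at h1
    exact h1

/-- the matrix of a linear map -/
def mt (L : Cn 2 →L[ℂ] Cn 2) : Matrix (Fin 3) (Fin 3) ℂ :=
  !![1, 0, 0;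
    0, L (EuclideanSpace.single 0 1) 0, L (EuclideanSpace.single 1 1) 0;
    0, L (EuclideanSpace.single 0 1) 1, L (EuclideanSpace.single 1 1) 1]

lemma vec_eq (z : Cn 2) :
    z = z 0 • EuclideanSpace.single 0 (1 : ℂ) + z 1 • EuclideanSpace.single 1 (1 : ℂ) := by
  ext i
  fin_cases i <;> simp

lemma L_apply (L : Cn 2 →L[ℂ] Cn 2) (z : Cn 2) (k : Fin 2) :
    L z k = z 0 * L (EuclideanSpace.single 0 1) k + z 1 * L (EuclideanSpace.single 1 1) k := by
  conv_lhs => rw [vec_eq z, map_add, map_smul, map_smul]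
  simp

lemma mt_mulVec (L : Cn 2 →L[ℂ] Cn 2) (Z : Fin 3 → ℂ) :
    mt L *ᵥ Z = ![Z 0, L (WithLp.toLp 2 ![Z 1, Z 2]) 0, L (WithLp.toLp 2 ![Z 1, Z 2]) 1] := by
  rw [L_apply L _ 0, L_apply L _ 1]
  funext i
  fin_cases i
  · simp [mt, Matrix.mulVec, dotProduct, Fin.sum_univ_three]
  · simp [mt, Matrix.mulVec, dotProduct, Fin.sum_univ_three]
    ring
  · simp [mt, Matrix.mulVec, dotProduct, Fin.sum_univ_three]
    ring

lemma mt_JU {L : Cn 2 →L[ℂ] Cn 2} (hL : ∀ z, ‖L z‖ = ‖z‖) : JU (mt L) := by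
  set L' : Cn 2 →ₗᵢ[ℂ] Cn 2 := ⟨L.toLinearMap, hL⟩ with hL'
  have hLL : ∀ z, L' z = L z := fun z => rfl
  apply JU_of_herm
  intro Z W
  have h1 := L'.inner_map_map (WithLp.toLp 2 ![W 1, W 2]) (WithLp.toLp 2 ![Z 1, Z 2])
  rw [hLL, hLL, PiLp.inner_apply, PiLp.inner_apply, Fin.sum_univ_two, Fin.sum_univ_two] at h1
  simp only [RCLike.inner_apply] at h1
  rw [mt_mulVec, mt_mulVec]
  simp only [N2.herm]
  have h2 : L (WithLp.toLp 2 ![Z 1, Z 2]) 0 * conj (L (WithLp.toLp 2 ![W 1, W 2]) 0) +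
      L (WithLp.toLp 2 ![Z 1, Z 2]) 1 * conj (L (WithLp.toLp 2 ![W 1, W 2]) 1) =
      Z 1 * conj (W 1) + Z 2 * conj (W 2) := h1
  show -(Z 0 * conj (W 0)) + L (WithLp.toLp 2 ![Z 1, Z 2]) 0 *
      conj (L (WithLp.toLp 2 ![W 1, W 2]) 0) + L (WithLp.toLp 2 ![Z 1, Z 2]) 1 *
      conj (L (WithLp.toLp 2 ![W 1, W 2]) 1) = -(Z 0 * conj (W 0)) + Z 1 * conj (W 1) +
      Z 2 * conj (W 2)
  linear_combination h2

lemma mt_act (L : Cn 2 →L[ℂ] Cn 2) (z : Cn 2) : actC (mt L) z = L z := by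
  have h1 : (WithLp.toLp 2 ![(hz (fun i => z i)) 1, (hz (fun i => z i)) 2] : Cn 2) = z := by
    ext i
    fin_cases i <;> rfl
  ext i
  show act (mt L) (fun i => z i) i = L z i
  rw [act, mt_mulVec, h1]
  fin_cases i
  · show L z 0 / (1 : ℂ) = L z 0
    rw [div_one]
  · show L z 1 / (1 : ℂ) = L z 1
    rw [div_one]

end H21c

open H21c

/-- row CARTAN -/
theorem cartan : CARTAN := by
  intro φ ψ hφ
  have h0B : (0 : Cn 2) ∈ ball (0 : Cn 2) 1 := mem_ball_self one_pos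
  set a : Cn 2 := φ 0 with ha
  have haB : a ∈ ball (0 : Cn 2) 1 := hφ.mφ 0 h0B
  have haB' : (fun i => a i) ∈ Bn 2 := ball_iff.1 haB
  -- the matrix which moves the origin to `a`
  obtain ⟨A, hA, hA0⟩ : ∃ A, JU A ∧ act A 0 = fun i => a i := by
    set Y : Fin 3 → ℂ := hz (fun i => a i) with hY
    have hneg : (herm Y Y).re < 0 := herm_neg_of_mem haB'
    set r : ℝ := (√(-(herm Y Y).re))⁻¹ with hr
    have hpos : 0 < -(herm Y Y).re := by linarith
    have hr0 : 0 < r := inv_pos.2 (Real.sqrt_pos.2 hpos)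
    have hr2 : r * r * (herm Y Y).re = -1 := by
      have h1 : √(-(herm Y Y).re) * √(-(herm Y Y).re) = -(herm Y Y).re :=
        Real.mul_self_sqrt hpos.le
      have h2 : √(-(herm Y Y).re) ≠ 0 := (Real.sqrt_pos.2 hpos).ne'
      rw [hr, ← mul_inv, h1, inv_mul_eq_div]
      rw [div_eq_iff hpos.ne']
      ring
    have hre : herm Y Y = (((herm Y Y).re : ℝ) : ℂ) := by
      apply Complex.ext
      · simp
      · simp [herm_self_im]
    have hv : herm ((r : ℂ) • Y) ((r : ℂ) • Y) = -1 := by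
      rw [herm_smul_left, herm_smul_right, Complex.conj_ofReal, hre, ← Complex.ofReal_mul,
        ← Complex.ofReal_mul, ← mul_assoc, hr2]
      simp
    obtain ⟨A, hA, c, hc, hAc⟩ := exists_move_neg hv
    refine ⟨A, hA, ?_⟩
    have h1 : hz (0 : Fin 2 → ℂ) = Pi.single 0 1 := by
      funext i
      fin_cases i <;> simp [hz]
    have hc0 : c ≠ 0 := by
      intro h
      rw [h, norm_zero] at hc
      exact zero_ne_one hc
    rw [act, h1, hAc, smul_smul, pr_smul (mul_ne_zero hc0 (by exact_mod_cast hr0.ne')), hY, pr_hz]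
  have hPA := proj A hA
  have hPB := proj A⁻¹ hA.inv
  have hAC0 : actC A 0 = a := by
    ext i
    exact congrFun hA0 i
  have hBCa : actC A⁻¹ a = 0 := by
    have h1 := (hPA.1 0 (by simp [Bn])).2.2.1
    rw [hA0] at h1
    ext i
    exact congrFun h1 i
  -- the maps fixing the origin
  have hmA : ∀ z ∈ ball (0 : Cn 2) 1, actC A z ∈ ball (0 : Cn 2) 1 := hPA.2.mφ
  have hmB : ∀ z ∈ ball (0 : Cn 2) 1, actC A⁻¹ z ∈ ball (0 : Cn 2) 1 := hPA.2.mψ
  have hdA : DifferentiableOn ℂ (actC A) (ball 0 1) := hPA.2.dφ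
  have hdB : DifferentiableOn ℂ (actC A⁻¹) (ball 0 1) := hPA.2.dψ
  have hBA : ∀ z ∈ ball (0 : Cn 2) 1, actC A⁻¹ (actC A z) = z := hPA.2.left
  have hAB : ∀ z ∈ ball (0 : Cn 2) 1, actC A (actC A⁻¹ z) = z := hPA.2.right
  set χ : Cn 2 → Cn 2 := fun z => actC A⁻¹ (φ z) with hχ
  set χ' : Cn 2 → Cn 2 := fun z => ψ (actC A z) with hχ'
  have hχd : DifferentiableOn ℂ χ (ball 0 1) := hdB.comp hφ.dφ hφ.mφ
  have hχ'd : DifferentiableOn ℂ χ' (ball 0 1) := hφ.dψ.comp hdA hmA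
  have hχm : ∀ z ∈ ball (0 : Cn 2) 1, χ z ∈ ball (0 : Cn 2) 1 := fun z hz => hmB _ (hφ.mφ z hz)
  have hχ'm : ∀ z ∈ ball (0 : Cn 2) 1, χ' z ∈ ball (0 : Cn 2) 1 := fun z hz => hφ.mψ _ (hmA z hz)
  have hχ0 : χ 0 = 0 := hBCa
  have hχ'0 : χ' 0 = 0 := by
    show ψ (actC A 0) = 0
    rw [hAC0, ha]
    exact hφ.left 0 h0B
  have hinv : ∀ z ∈ ball (0 : Cn 2) 1, χ' (χ z) = z := by
    intro z hz
    show ψ (actC A (actC A⁻¹ (φ z))) = z
    rw [hAB _ (hφ.mφ z hz), hφ.left z hz]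
  have hn : ∀ z ∈ ball (0 : Cn 2) 1, ‖χ z‖ = ‖z‖ := by
    intro z hz
    refine le_antisymm ?_ ?_
    · exact Complex.norm_le_norm_of_mapsTo_ball hχd
        (fun y hy => ball_subset_closedBall (hχm y hy)) hχ0 (mem_ball_zero_iff.1 hz)
    · have h1 := Complex.norm_le_norm_of_mapsTo_ball hχ'd
        (fun y hy => ball_subset_closedBall (hχ'm y hy)) hχ'0 (mem_ball_zero_iff.1 (hχm z hz))
      rwa [hinv z hz] at h1
  have hlin := linear_of_norm hχd hn
  set L : Cn 2 →L[ℂ] Cn 2 := fderiv ℂ χ 0 with hL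
  have hLn : ∀ z, ‖L z‖ = ‖z‖ := by
    intro z
    by_cases hz0 : z = 0
    · rw [hz0, map_zero]
    · have hnz : (0 : ℝ) < ‖z‖ := norm_pos_iff.2 hz0
      set t : ℝ := (2 * ‖z‖)⁻¹ with ht
      have ht0 : 0 < t := by positivity
      have hmem : (t : ℂ) • z ∈ ball (0 : Cn 2) 1 := by
        rw [mem_ball_zero_iff, norm_smul, Complex.norm_real, Real.norm_of_nonneg ht0.le, ht]
        field_simp
        norm_num
      have h1 := hn _ hmem
      rw [hlin _ hmem, map_smul, norm_smul, norm_smul, Complex.norm_real,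
        Real.norm_of_nonneg ht0.le] at h1
      exact mul_left_cancel₀ ht0.ne' h1
  refine ⟨A * mt L, hA.mul (mt_JU hLn), fun z hz => ?_⟩
  have h1 : φ z = actC A (actC (mt L) z) := by
    rw [mt_act, ← hlin z hz]
    exact (hAB _ (hφ.mφ z hz)).symm
  rw [h1]
  have h2 : (mt L *ᵥ N2.hz (fun i => z i)) 0 ≠ 0 := ((mt_JU hLn).act_mem (ball_iff.1 hz)).1
  ext i
  exact congrFun (act_comp A (mt L) h2) i

end

end Pool.Agent.Lib.MP_6ff8d9_an.N2
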