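import Pool.Agent.Lib.MP_6ff8d9_an_h8.SymRows
import Pool.Agent.Lib.MP_6ff8d9_an_h33.Exp3

/-!
# MP_6ff8d9, dimension 2, row KPC: parabolic flow with the wrong sign
-/

set_option autoImplicit false

open Metric Filter Topology Matrix
open scoped ComplexConjugate

namespace Pool.Agent.Lib.MP_6ff8d9_an.N2

open Pool.Agent.Lib.MP_6ff8d9_an Pool.Agent.Lib.MP_6ff8d9_an.H22

noncomputable section

namespace H21s

/-- the Siegel coordinates -/
def q (u v : ℂ) : Fin 2 → ℂ := ![(u - 1) / (u + 1), 2 * v / (u + 1)]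

lemma u1_ne {u : ℂ} (h : 0 < u.re) : u + 1 ≠ 0 := by
  intro h1
  have h2 := congrArg Complex.re h1
  simp at h2
  linarith

lemma q_mem {u v : ℂ} (h : ‖v‖ ^ 2 < u.re) : q u v ∈ Bn 2 := by
  have hu : 0 < u.re := lt_of_le_of_lt (by positivity) h
  have hn := norm_pos_iff.2 (u1_ne hu)
  show ∑ i, ‖q u v i‖ ^ 2 < 1
  rw [Fin.sum_univ_two]
  show ‖(u - 1) / (u + 1)‖ ^ 2 + ‖2 * v / (u + 1)‖ ^ 2 < 1
  rw [norm_div, norm_div, div_pow, div_pow, ← add_div, div_lt_one (by positivity), norm_mul,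
    mul_pow, ← Complex.normSq_eq_norm_sq (u - 1), ← Complex.normSq_eq_norm_sq (u + 1),
    Complex.normSq_apply, Complex.normSq_apply]
  have e4 : ‖(2 : ℂ)‖ ^ 2 = 4 := by norm_num
  rw [e4]
  simp only [Complex.sub_re, Complex.sub_im, Complex.add_re, Complex.add_im, Complex.one_re,
    Complex.one_im]
  nlinarith

lemma q_surj {z : Fin 2 → ℂ} (hz : z ∈ Bn 2) : ∃ u v : ℂ, ‖v‖ ^ 2 < u.re ∧ q u v = z := by
  have h1 : ‖z 0‖ ^ 2 + ‖z 1‖ ^ 2 < 1 := by
    have h2 : ∑ i, ‖z i‖ ^ 2 < 1 := hz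
    rwa [Fin.sum_univ_two] at h2
  have h0 : ‖z 0‖ < 1 := by nlinarith [norm_nonneg (z 0), sq_nonneg ‖z 1‖]
  have hne : 1 - z 0 ≠ 0 := by
    intro h
    rw [← sub_eq_zero.1 h, norm_one] at h0
    exact lt_irrefl _ h0
  have hpos := norm_pos_iff.2 hne
  refine ⟨(1 + z 0) / (1 - z 0), z 1 / (1 - z 0), ?_, ?_⟩
  · rw [Complex.div_re, ← add_div, norm_div, div_pow, ← Complex.normSq_eq_norm_sq (1 - z 0)]
    have h3 : 0 < Complex.normSq (1 - z 0) := Complex.normSq_pos.2 hne
    rw [div_lt_div_iff_of_pos_right h3]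
    have h4 : ‖z 0‖ ^ 2 = (z 0).re ^ 2 + (z 0).im ^ 2 := by
      rw [← Complex.normSq_eq_norm_sq, Complex.normSq_apply]
      ring
    simp only [Complex.add_re, Complex.add_im, Complex.sub_re, Complex.sub_im, Complex.one_re,
      Complex.one_im]
    nlinarith
  · funext i
    have e2 : (1 + z 0) / (1 - z 0) + 1 = 2 / (1 - z 0) := by
      field_simp
      ring
    have e1 : (1 + z 0) / (1 - z 0) - 1 = 2 * z 0 / (1 - z 0) := by
      field_simp
      ring
    fin_cases i
    · show ((1 + z 0) / (1 - z 0) - 1) / ((1 + z 0) / (1 - z 0) + 1) = z 0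
      rw [e1, e2]
      field_simp
    · show 2 * (z 1 / (1 - z 0)) / ((1 + z 0) / (1 - z 0) + 1) = z 1
      rw [e2]
      field_simp

/-- the parabolic flow in the Siegel coordinates -/
lemma flow_q (τ b s : ℝ) {u v : ℂ} (hu : 0 < u.re) :
    act (grp (pmat τ b) (s * Complex.I)) (q u v) =
      q (u + 2 * b * (s * Complex.I)) (Complex.exp (-(τ * (s * Complex.I))) * v) := by
  have h1 := u1_ne hu
  have hu' : 0 < (u + 2 * b * (s * Complex.I)).re := by
    simpa using hu
  have h2 := u1_ne hu'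
  have h2' : u + 2 * b * (s * Complex.I) + 1 = u + 1 + 2 * (b * (s * Complex.I)) := by ring
  have hexp : Complex.exp (τ * (s * Complex.I)) ≠ 0 := Complex.exp_ne_zero _
  have e0 : (hz (q u v)) 0 - (hz (q u v)) 1 = 2 / (u + 1) := by
    show (1 : ℂ) - (u - 1) / (u + 1) = 2 / (u + 1)
    field_simp
    ring
  have z0 : (hz (q u v)) 0 = 1 := rfl
  have z1 : (hz (q u v)) 1 = (u - 1) / (u + 1) := rfl
  have z2 : (hz (q u v)) 2 = 2 * v / (u + 1) := rfl
  have e1 : (1 : ℂ) + b * (s * Complex.I) * (2 / (u + 1)) =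
      (u + 2 * b * (s * Complex.I) + 1) / (u + 1) := by
    field_simp
    ring
  have e2 : (u - 1) / (u + 1) + b * (s * Complex.I) * (2 / (u + 1)) =
      (u + 2 * b * (s * Complex.I) - 1) / (u + 1) := by
    field_simp
    ring
  have hneg : Complex.exp (-(τ * (s * Complex.I))) = (Complex.exp (τ * (s * Complex.I)))⁻¹ :=
    Complex.exp_neg _
  rw [act, grp_p, e0, z0, z1, z2, e1, e2, hneg]
  funext i
  fin_cases i
  · show Complex.exp (τ * (s * Complex.I)) * ((u + 2 * b * (s * Complex.I) - 1) / (u + 1)) /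
      (Complex.exp (τ * (s * Complex.I)) * ((u + 2 * b * (s * Complex.I) + 1) / (u + 1))) =
      (u + 2 * b * (s * Complex.I) - 1) / (u + 2 * b * (s * Complex.I) + 1)
    rw [mul_div_mul_left _ _ hexp, div_div_div_cancel_right₀ h1]
  · show 2 * v / (u + 1) /
      (Complex.exp (τ * (s * Complex.I)) * ((u + 2 * b * (s * Complex.I) + 1) / (u + 1))) =
      2 * ((Complex.exp (τ * (s * Complex.I)))⁻¹ * v) / (u + 2 * b * (s * Complex.I) + 1)
    set E := Complex.exp (τ * (s * Complex.I)) with hE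
    set w := u + 2 * b * (s * Complex.I) + 1 with hw
    field_simp

/-- the strip of the fibre -/
def HP (m : ℝ) (a : ℂ) : Set ℂ := {u | ‖a‖ ^ 2 < u.re * Real.exp (-(2 * m * u.re))}

lemma HP_pos {m : ℝ} {a u : ℂ} (h : u ∈ HP m a) : 0 < u.re := by
  have h1 : ‖a‖ ^ 2 < u.re * Real.exp (-(2 * m * u.re)) := h
  have h2 : 0 < u.re * Real.exp (-(2 * m * u.re)) := lt_of_le_of_lt (by positivity) h1
  exact pos_of_mul_pos_left h2 (Real.exp_pos _).le

lemma HP_up {m : ℝ} (hm : m ≤ 0) {a u u' : ℂ} (h : u ∈ HP m a) (hle : u.re ≤ u'.re) :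
    u' ∈ HP m a := by
  have h1 : ‖a‖ ^ 2 < u.re * Real.exp (-(2 * m * u.re)) := h
  have h2 := HP_pos h
  show ‖a‖ ^ 2 < u'.re * Real.exp (-(2 * m * u'.re))
  refine h1.trans_le ?_
  refine mul_le_mul hle (Real.exp_le_exp.2 ?_) (Real.exp_pos _).le (h2.le.trans hle)
  nlinarith

lemma HP_convex {m : ℝ} (hm : m ≤ 0) (a : ℂ) : Convex ℝ (HP m a) := by
  intro u hu u' hu' s t hs ht hst
  have e : (s • u + t • u').re = s * u.re + t * u'.re := by simp
  rcases le_total u.re u'.re with h | h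
  · refine HP_up hm hu ?_
    have h1 : s * u.re + t * u'.re = u.re + t * (u'.re - u.re) := by
      linear_combination u.re * hst
    rw [e, h1]
    linarith [mul_nonneg ht (sub_nonneg.2 h)]
  · refine HP_up hm hu' ?_
    have h1 : s * u.re + t * u'.re = u'.re + s * (u.re - u'.re) := by
      linear_combination u'.re * hst
    rw [e, h1]
    linarith [mul_nonneg hs (sub_nonneg.2 h)]

lemma HP_open (m : ℝ) (a : ℂ) : IsOpen (HP m a) := by
  have h1 : Continuous fun u : ℂ => u.re * Real.exp (-(2 * m * u.re)) := by fun_prop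
  exact isOpen_lt continuous_const h1

lemma HP_norm {m : ℝ} {a u : ℂ} (h : u ∈ HP m a) : ‖a * Complex.exp (m * u)‖ ^ 2 < u.re := by
  have h1 : ‖a‖ ^ 2 < u.re * Real.exp (-(2 * m * u.re)) := h
  have e : ((m : ℂ) * u).re = m * u.re := by simp
  rw [norm_mul, mul_pow, Complex.norm_exp, e]
  have h2 : Real.exp (m * u.re) ^ 2 * Real.exp (-(2 * m * u.re)) = 1 := by
    rw [← Real.exp_nat_mul, ← Real.exp_add]
    push_cast
    rw [show 2 * (m * u.re) + -(2 * m * u.re) = 0 by ring, Real.exp_zero]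
  have h3 : 0 < Real.exp (m * u.re) ^ 2 := by positivity
  calc ‖a‖ ^ 2 * Real.exp (m * u.re) ^ 2
      < u.re * Real.exp (-(2 * m * u.re)) * Real.exp (m * u.re) ^ 2 :=
        mul_lt_mul_of_pos_right h1 h3
    _ = u.re * (Real.exp (m * u.re) ^ 2 * Real.exp (-(2 * m * u.re))) := by ring
    _ = u.re := by rw [h2, mul_one]

end H21s

open H21s

/-- row KPC -/
theorem kpc : KPC := by
  intro f τ b hb hτb hf hf1 hinv
  set m : ℝ := -τ / (2 * b) with hm
  have hm0 : m ≤ 0 := by
    rw [hm, div_eq_mul_inv]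
    have h1 : τ * (2 * b)⁻¹ = τ * b / (2 * b ^ 2) := by
      field_simp
    have h2 : 0 ≤ τ * b / (2 * b ^ 2) := by positivity
    rw [neg_mul, h1]
    linarith
  -- the function in the coordinates
  set G : ℂ → ℂ → ℂ := fun a u => f (q u (a * Complex.exp (m * u))) with hG
  have hqd : ∀ a : ℂ, ∀ u : ℂ, 0 < u.re →
      DifferentiableAt ℂ (fun u => q u (a * Complex.exp (m * u))) u := by
    intro a u hu
    rw [differentiableAt_pi]
    have h1 := u1_ne hu
    intro i
    fin_cases i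
    · show DifferentiableAt ℂ (fun u : ℂ => (u - 1) / (u + 1)) u
      exact (by fun_prop : DifferentiableAt ℂ (fun u : ℂ => u - 1) u).div (by fun_prop) h1
    · show DifferentiableAt ℂ (fun u : ℂ => 2 * (a * Complex.exp (m * u)) / (u + 1)) u
      exact (by fun_prop : DifferentiableAt ℂ (fun u : ℂ => 2 * (a * Complex.exp (m * u))) u).div
        (by fun_prop) h1
  have hGd : ∀ a : ℂ, DifferentiableOn ℂ (G a) (HP m a) := fun a =>
    hf.comp (fun u hu => (hqd a u (HP_pos hu)).differentiableWithinAt)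
      fun u hu => q_mem (HP_norm hu)
  -- invariance under imaginary translations
  have hGi : ∀ a : ℂ, ∀ u ∈ HP m a, ∀ t : ℝ, G a (u + t * Complex.I) = G a u := by
    intro a u hu t
    have h1 := hinv (q u (a * Complex.exp (m * u))) (q_mem (HP_norm hu)) (t / (2 * b))
    rw [flow_q τ b _ (HP_pos hu)] at h1
    have hb' : (b : ℂ) ≠ 0 := by exact_mod_cast hb
    have e1 : u + 2 * b * (((t / (2 * b) : ℝ) : ℂ) * Complex.I) = u + t * Complex.I := by
      push_cast
      field_simp
    have e2 : Complex.exp (-(τ * (((t / (2 * b) : ℝ) : ℂ) * Complex.I))) *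
        (a * Complex.exp (m * u)) = a * Complex.exp (m * (u + t * Complex.I)) := by
      rw [mul_left_comm, ← Complex.exp_add]
      congr 2
      rw [hm]
      push_cast
      field_simp
      ring
    rw [e1, e2] at h1
    exact h1
  -- constant on the half planes
  have hconst : ∀ a : ℂ, ∀ u ∈ HP m a, ∀ u' ∈ HP m a, G a u = G a u' := by
    intro a u hu u' hu'
    refine (HP_open m a).is_const_of_deriv_eq_zero (HP_convex hm0 a).isPreconnected (hGd a)
      (fun x hx => ?_) hu hu'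
    have h1 : HasDerivAt (G a) (deriv (G a) x) x :=
      ((hGd a x hx).differentiableAt ((HP_open m a).mem_nhds hx)).hasDerivAt
    have h2 : HasDerivAt (fun t : ℝ => x + (t : ℂ) * Complex.I) Complex.I 0 := by
      have h3 := ((Complex.ofRealCLM.hasDerivAt (x := (0 : ℝ))).mul_const Complex.I).const_add x
      simpa using h3
    have h3 : HasDerivAt (fun t : ℝ => G a (x + (t : ℂ) * Complex.I))
        (deriv (G a) x * Complex.I) 0 := by
      have h4 : HasDerivAt (G a) (deriv (G a) x) (x + ((0 : ℝ) : ℂ) * Complex.I) := by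
        simpa using h1
      exact h4.comp (0 : ℝ) h2
    have h4 : (fun t : ℝ => G a (x + (t : ℂ) * Complex.I)) = fun _ => G a x := by
      funext t
      exact hGi a x hx t
    rw [h4] at h3
    have h5 := h3.unique (hasDerivAt_const (0 : ℝ) (G a x))
    exact (mul_eq_zero.1 h5).resolve_right Complex.I_ne_zero
  intro z hz
  obtain ⟨u, v, huv, rfl⟩ := q_surj hz
  have hu : 0 < u.re := lt_of_le_of_lt (by positivity) huv
  set a : ℂ := v * Complex.exp (-(m * u)) with ha
  have hva : a * Complex.exp (m * u) = v := by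
    rw [ha, mul_assoc, ← Complex.exp_add, neg_add_cancel, Complex.exp_zero, mul_one]
  have huH : u ∈ HP m a := by
    show ‖a‖ ^ 2 < u.re * Real.exp (-(2 * m * u.re))
    have e : (-((m : ℂ) * u)).re = -(m * u.re) := by simp
    rw [ha, norm_mul, mul_pow, Complex.norm_exp, e]
    have h2 : Real.exp (-(m * u.re)) ^ 2 = Real.exp (-(2 * m * u.re)) := by
      rw [← Real.exp_nat_mul]
      push_cast
      congr 1
      ring
    rw [h2]
    exact mul_lt_mul_of_pos_right huv (Real.exp_pos _)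
  have hfz : f (q u v) = G a u := by
    rw [hG]
    simp only [hva]
  -- the value at the origin
  have h0 : ∀ y : ℝ, 0 < y → f 0 = G 0 y := by
    intro y hy
    have hmem : ∀ y : ℝ, 0 < y → (y : ℂ) ∈ HP m 0 := by
      intro y hy
      show ‖(0 : ℂ)‖ ^ 2 < (y : ℂ).re * Real.exp (-(2 * m * (y : ℂ).re))
      rw [norm_zero, Complex.ofReal_re]
      have := Real.exp_pos (-(2 * m * y))
      simpa using mul_pos hy this
    have h1 := hconst 0 ((1 : ℝ) : ℂ) (hmem 1 one_pos) y (hmem y hy)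
    rw [← h1, hG]
    simp only
    congr 1
    funext i
    fin_cases i
    · show (0 : ℂ) = (((1 : ℝ) : ℂ) - 1) / (((1 : ℝ) : ℂ) + 1)
      simp
    · show (0 : ℂ) = 2 * (0 * Complex.exp (m * ((1 : ℝ) : ℂ))) / (((1 : ℝ) : ℂ) + 1)
      simp
  -- the estimate
  have hest : ∀ y : ℝ, max 1 u.re ≤ y → ‖f (q u v) - f 0‖ ≤ 2 / √y * ‖a‖ := by
    intro y hy
    have hy1 : 1 ≤ y := (le_max_left _ _).trans hy
    have hyu : u.re ≤ y := (le_max_right _ _).trans hy
    have hy0 : 0 < y := by linarith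
    have hyH : (y : ℂ) ∈ HP m a := HP_up hm0 huH (by simpa using hyu)
    set R : ℝ := √(y * Real.exp (-(2 * m * y))) with hR
    have hRpos : 0 < y * Real.exp (-(2 * m * y)) := mul_pos hy0 (Real.exp_pos _)
    have hR0 : 0 < R := Real.sqrt_pos.2 hRpos
    have hmemR : ∀ a' ∈ ball (0 : ℂ) R, (y : ℂ) ∈ HP m a' := by
      intro a' ha'
      rw [mem_ball_zero_iff] at ha'
      show ‖a'‖ ^ 2 < (y : ℂ).re * Real.exp (-(2 * m * (y : ℂ).re))
      rw [Complex.ofReal_re, ← Real.sq_sqrt hRpos.le]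
      exact pow_lt_pow_left₀ ha' (norm_nonneg _) two_ne_zero
    have haR : a ∈ ball (0 : ℂ) R := by
      rw [mem_ball_zero_iff, hR]
      refine Real.lt_sqrt_of_sq_lt ?_
      have h1 : ‖a‖ ^ 2 < (y : ℂ).re * Real.exp (-(2 * m * (y : ℂ).re)) := hyH
      rwa [Complex.ofReal_re] at h1
    have hd : DifferentiableOn ℂ (fun a' => G a' y) (ball 0 R) := by
      refine hf.comp (g := f) (f := fun a' : ℂ => q y (a' * Complex.exp (m * y))) ?_ ?_
      · intro a' _
        refine DifferentiableAt.differentiableWithinAt ?_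
        rw [differentiableAt_pi]
        intro i
        fin_cases i
        · show DifferentiableAt ℂ (fun _ : ℂ => ((y : ℂ) - 1) / (y + 1)) a'
          exact differentiableAt_const _
        · show DifferentiableAt ℂ (fun a' : ℂ => 2 * (a' * Complex.exp (m * y)) / (y + 1)) a'
          simp only [div_eq_mul_inv]
          fun_prop
      · intro a' ha'
        exact q_mem (HP_norm (hmemR a' ha'))
    have hmaps : Set.MapsTo (fun a' => G a' y) (ball 0 R) (closedBall ((fun a' => G a' y) 0) 2) := by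
      intro a' ha'
      show G a' y ∈ closedBall (G 0 y) 2
      rw [mem_closedBall, dist_eq_norm]
      have h1 : ‖G a' y‖ < 1 := hf1 _ (q_mem (HP_norm (hmemR a' ha')))
      have h2 : ‖G 0 y‖ < 1 := hf1 _ (q_mem (HP_norm (hmemR 0 (mem_ball_self hR0))))
      linarith [norm_sub_le (G a' y) (G 0 y)]
    have h1 := Complex.dist_le_div_mul_dist_of_mapsTo_ball hd hmaps haR
    have h2 : G a u = G a y := hconst a u huH y hyH
    rw [hfz, h0 y hy0, h2, ← dist_eq_norm]
    simp only [dist_zero_right] at h1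
    refine h1.trans ?_
    have h3 : √y ≤ R := by
      rw [hR]
      refine Real.sqrt_le_sqrt ?_
      have h4 : 1 ≤ Real.exp (-(2 * m * y)) := Real.one_le_exp (by nlinarith)
      nlinarith
    have h4 : 0 < √y := Real.sqrt_pos.2 hy0
    gcongr
  have hlim : Tendsto (fun y : ℝ => 2 / √y * ‖a‖) atTop (𝓝 (0 * ‖a‖)) := by
    refine Tendsto.mul_const _ ?_
    exact tendsto_const_nhds.div_atTop Real.tendsto_sqrt_atTop
  have h1 : ‖f (q u v) - f 0‖ ≤ 0 * ‖a‖ :=
    ge_of_tendsto hlim ((eventually_ge_atTop (max 1 u.re)).mono hest)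
  rw [zero_mul] at h1
  exact sub_eq_zero.1 (norm_le_zero_iff.1 h1)

end

end Pool.Agent.Lib.MP_6ff8d9_an.N2
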