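import Pool.Agent.Lib.MP_6ff8d9_an_h8.SymRows2
import Pool.Agent.Lib.MP_6ff8d9_an_h23.Hfl
import Pool.Agent.Lib.MP_6ff8d9_an_h11.Linl

/-!
# MP_6ff8d9, dimension 2, row STB: the symmetry generator is unique up to affine changes
-/

open Metric Filter Topology MvPolynomial Matrix
open scoped ComplexConjugate

namespace Pool.Agent.Lib.MP_6ff8d9_an.N2

open Pool.Agent.Lib.MP_6ff8d9_an Pool.Agent.Lib.MP_6ff8d9_an.H22

noncomputable section

/-- the velocity of the flow -/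
lemma act_deriv (T : Matrix (Fin 3) (Fin 3) ℂ) (z : Fin 2 → ℂ) :
    HasDerivAt (fun s : ℝ => act (grp T (s * Complex.I)) z) (Complex.I • vf T z) 0 := by
  have h1 : ∀ i : Fin 3, HasDerivAt (fun s : ℝ => (grp T (s * Complex.I) *ᵥ hz z) i)
      (Complex.I * (T *ᵥ hz z) i) 0 := by
    intro i
    have h2 := grp_deriv T (hz z) ((0 : ℝ) * Complex.I) i
    have h3 : HasDerivAt (fun s : ℝ => (s : ℂ) * Complex.I) Complex.I 0 := by
      simpa using (Complex.ofRealCLM.hasDerivAt (x := (0 : ℝ))).mul_const Complex.I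
    have h4 := h2.scomp (0 : ℝ) h3
    rw [Complex.ofReal_zero, zero_mul, grp_zero, Matrix.one_mulVec, smul_eq_mul] at h4
    exact h4
  have hz0 : ∀ i : Fin 3, (grp T (((0 : ℝ) : ℂ) * Complex.I) *ᵥ hz z) i = hz z i := by
    intro i
    rw [Complex.ofReal_zero, zero_mul, grp_zero, Matrix.one_mulVec]
  have hne : (grp T (((0 : ℝ) : ℂ) * Complex.I) *ᵥ hz z) 0 ≠ 0 := by
    rw [hz0]
    exact one_ne_zero
  rw [hasDerivAt_pi]
  intro j
  fin_cases j
  · refine ((h1 1).fun_div (h1 0) hne).congr_deriv ?_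
    rw [hz0, hz0]
    show (Complex.I * (T *ᵥ hz z) 1 * 1 - z 0 * (Complex.I * (T *ᵥ hz z) 0)) / 1 ^ 2 =
      Complex.I * ((T *ᵥ hz z) 1 - z 0 * (T *ᵥ hz z) 0)
    ring
  · refine ((h1 2).fun_div (h1 0) hne).congr_deriv ?_
    rw [hz0, hz0]
    show (Complex.I * (T *ᵥ hz z) 2 * 1 - z 1 * (Complex.I * (T *ᵥ hz z) 0)) / 1 ^ 2 =
      Complex.I * ((T *ᵥ hz z) 2 - z 1 * (T *ᵥ hz z) 0)
    ring

/-- the derivative of an invariant function vanishes on the vector field -/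
lemma fderiv_vf {g : Cn 2 → ℂ} {T : Matrix (Fin 3) (Fin 3) ℂ}
    (hinv : ∀ z ∈ ball (0 : Cn 2) 1, ∀ s : ℝ, g (actC (grp T (s * Complex.I)) z) = g z)
    {z : Cn 2} (hzb : z ∈ ball (0 : Cn 2) 1) {L : Cn 2 →L[ℂ] ℂ} (hL : HasFDerivAt g L z) :
    L (WithLp.toLp 2 (vf T fun i => z i)) = 0 := by
  have h1 : HasDerivAt (fun s : ℝ => actC (grp T (s * Complex.I)) z)
      (WithLp.toLp 2 (Complex.I • vf T fun i => z i)) 0 := by
    have h2 := ((PiLp.continuousLinearEquiv 2 ℝ (fun _ : Fin 2 => ℂ)).symm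
      : (Fin 2 → ℂ) →L[ℝ] Cn 2).hasFDerivAt.comp_hasDerivAt (0 : ℝ)
      (act_deriv T fun i => z i)
    exact h2
  have hz0 : actC (grp T (((0 : ℝ) : ℂ) * Complex.I)) z = z := by
    rw [Complex.ofReal_zero, zero_mul, grp_zero]
    unfold actC act
    rw [Matrix.one_mulVec]
    ext j
    fin_cases j
    · show z 0 / 1 = z 0
      rw [div_one]
    · show z 1 / 1 = z 1
      rw [div_one]
  have hL' : HasFDerivAt g (L.restrictScalars ℝ)
      (actC (grp T (((0 : ℝ) : ℂ) * Complex.I)) z) := by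
    rw [hz0]
    exact hL.restrictScalars ℝ
  have h3 := hL'.comp_hasDerivAt (0 : ℝ) h1
  have h4 : HasDerivAt (g ∘ fun s : ℝ => actC (grp T (s * Complex.I)) z) 0 0 := by
    have h5 : (g ∘ fun s : ℝ => actC (grp T (s * Complex.I)) z) = fun _ => g z :=
      funext fun s => hinv z hzb s
    rw [h5]
    exact hasDerivAt_const _ _
  have h6 := h3.unique h4
  have h7 : L (WithLp.toLp 2 (Complex.I • vf T fun i => z i)) =
      Complex.I * L (WithLp.toLp 2 (vf T fun i => z i)) := by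
    rw [WithLp.toLp_smul, map_smul, smul_eq_mul]
  have h8 : L (WithLp.toLp 2 (Complex.I • vf T fun i => z i)) = 0 := h6
  rw [h7] at h8
  exact (mul_eq_zero.1 h8).resolve_left Complex.I_ne_zero

/-- the determinant -/
lemma det_hz (S T : Matrix (Fin 3) (Fin 3) ℂ) (z : Fin 2 → ℂ) :
    (Matrix.of ![hz z, S *ᵥ hz z, T *ᵥ hz z]).det =
      vf S z 0 * vf T z 1 - vf S z 1 * vf T z 0 := by
  rw [Matrix.det_fin_three]
  show 1 * (S *ᵥ hz z) 1 * (T *ᵥ hz z) 2 - 1 * (S *ᵥ hz z) 2 * (T *ᵥ hz z) 1 -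
    z 0 * (S *ᵥ hz z) 0 * (T *ᵥ hz z) 2 + z 0 * (S *ᵥ hz z) 2 * (T *ᵥ hz z) 0 +
    z 1 * (S *ᵥ hz z) 0 * (T *ᵥ hz z) 1 - z 1 * (S *ᵥ hz z) 1 * (T *ᵥ hz z) 0 =
    ((S *ᵥ hz z) 1 - z 0 * (S *ᵥ hz z) 0) * ((T *ᵥ hz z) 2 - z 1 * (T *ᵥ hz z) 0) -
    ((S *ᵥ hz z) 2 - z 1 * (S *ᵥ hz z) 0) * ((T *ᵥ hz z) 1 - z 0 * (T *ᵥ hz z) 0)
  ring

/-- two vectors with nonzero determinant span the plane -/
lemma clm_zero {L : Cn 2 →L[ℂ] ℂ} {u v : Fin 2 → ℂ} (hu : L (WithLp.toLp 2 u) = 0)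
    (hv : L (WithLp.toLp 2 v) = 0) (h : u 0 * v 1 - u 1 * v 0 ≠ 0) : L = 0 := by
  ext x
  set D := u 0 * v 1 - u 1 * v 0 with hD
  have h1 : x = ((x 0 * v 1 - x 1 * v 0) / D) • (WithLp.toLp 2 u : Cn 2) +
      ((u 0 * x 1 - u 1 * x 0) / D) • (WithLp.toLp 2 v : Cn 2) := by
    ext j
    fin_cases j
    · show x 0 = (x 0 * v 1 - x 1 * v 0) / D * u 0 + (u 0 * x 1 - u 1 * x 0) / D * v 0
      field_simp
      rw [hD]
      ring
    · show x 1 = (x 0 * v 1 - x 1 * v 0) / D * u 1 + (u 0 * x 1 - u 1 * x 0) / D * v 1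
      field_simp
      rw [hD]
      ring
  rw [h1, map_add, map_smul, map_smul, hu, hv]
  simp

/-- the determinant is zero on the ball -/
lemma det_ball {g : Cn 2 → ℂ} {T S : Matrix (Fin 3) (Fin 3) ℂ} (hg : g ∈ NB 2)
    (hnc : ∃ z ∈ ball (0 : Cn 2) 1, g z ≠ g 0)
    (hT : ∀ z ∈ ball (0 : Cn 2) 1, ∀ s : ℝ, g (actC (grp T (s * Complex.I)) z) = g z)
    (hS : ∀ z ∈ ball (0 : Cn 2) 1, ∀ s : ℝ, g (actC (grp S (s * Complex.I)) z) = g z) :
    ∀ z ∈ ball (0 : Cn 2) 1,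
      (Matrix.of ![hz fun i => z i, S *ᵥ hz fun i => z i, T *ᵥ hz fun i => z i]).det = 0 := by
  have hzero : ∀ z ∈ ball (0 : Cn 2) 1,
      (Matrix.of ![hz fun i => z i, S *ᵥ hz fun i => z i, T *ᵥ hz fun i => z i]).det ≠ 0 →
      fderiv ℂ g z = 0 := by
    intro z hzb hd
    have hL := (hg.1.differentiableAt (isOpen_ball.mem_nhds hzb)).hasFDerivAt
    rw [det_hz] at hd
    exact clm_zero (fderiv_vf hS hzb hL) (fderiv_vf hT hzb hL) hd
  intro z₀ hz₀
  by_contra hd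
  have hconst : ∀ w ∈ ball (0 : Cn 2) 1, g w = g z₀ := by
    intro w hw
    set γ : ℂ → Cn 2 := fun t => z₀ + t • (w - z₀) with hγ
    have hγd : ∀ t, HasDerivAt γ (w - z₀) t := by
      intro t
      have h1 := ((hasDerivAt_id t).smul_const (w - z₀)).const_add z₀
      rw [one_smul] at h1
      exact h1
    have hγc : Continuous γ := by
      rw [hγ]
      fun_prop
    set U : Set ℂ := γ ⁻¹' ball (0 : Cn 2) 1 with hU
    have hUo : IsOpen U := isOpen_ball.preimage hγc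
    have hUc : Convex ℝ U := by
      intro a ha b hb p q hp hq hpq
      have h1 : γ (p • a + q • b) = p • γ a + q • γ b := by
        simp only [hγ]
        have h2 : z₀ = p • z₀ + q • z₀ := by rw [← add_smul, hpq, one_smul]
        rw [smul_add, smul_add, add_smul, smul_assoc, smul_assoc]
        nth_rw 1 [h2]
        abel
      show γ (p • a + q • b) ∈ ball (0 : Cn 2) 1
      rw [h1]
      exact convex_ball (0 : Cn 2) 1 ha hb hp hq hpq
    have h0U : (0 : ℂ) ∈ U := by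
      show γ 0 ∈ ball (0 : Cn 2) 1
      simpa [hγ] using hz₀
    have h1U : (1 : ℂ) ∈ U := by
      show γ 1 ∈ ball (0 : Cn 2) 1
      simpa [hγ] using hw
    have hd1 : DifferentiableOn ℂ (fun t => g (γ t)) U := by
      intro t ht
      have h1 := (hg.1.differentiableAt (isOpen_ball.mem_nhds ht)).hasFDerivAt
      exact (h1.comp_hasDerivAt t (hγd t)).differentiableAt.differentiableWithinAt
    have han : AnalyticOnNhd ℂ (fun t => g (γ t)) U := hd1.analyticOnNhd hUo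
    have hdc : Continuous fun t => (Matrix.of ![hz fun i => γ t i, S *ᵥ hz fun i => γ t i,
        T *ᵥ hz fun i => γ t i]).det := by
      have : (fun t => (Matrix.of ![hz fun i => γ t i, S *ᵥ hz fun i => γ t i,
        T *ᵥ hz fun i => γ t i]).det) = fun t =>
        vf S (fun i => γ t i) 0 * vf T (fun i => γ t i) 1 -
          vf S (fun i => γ t i) 1 * vf T (fun i => γ t i) 0 := by
        funext t
        rw [det_hz]
      rw [this]
      have hc : ∀ i, Continuous fun t => γ t i := fun i =>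
        (EuclideanSpace.proj (𝕜 := ℂ) i).continuous.comp hγc
      have hc0 := hc 0
      have hc1 := hc 1
      simp only [vf, hz, Matrix.mulVec, dotProduct, Fin.sum_univ_three]
      simp only [Matrix.cons_val_zero, Matrix.cons_val_one, Matrix.cons_val]
      fun_prop
    have hev : ∀ᶠ t in 𝓝 (0 : ℂ), t ∈ U ∧ (Matrix.of ![hz fun i => γ t i,
        S *ᵥ hz fun i => γ t i, T *ᵥ hz fun i => γ t i]).det ≠ 0 := by
      refine Filter.Eventually.and (hUo.mem_nhds h0U) (hdc.continuousAt.eventually_ne ?_)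
      have : γ 0 = z₀ := by simp [hγ]
      rw [this]
      exact hd
    obtain ⟨r, hr, hball⟩ := Metric.eventually_nhds_iff_ball.1 hev
    have hloc : ∀ t ∈ ball (0 : ℂ) r, g (γ t) = g (γ 0) := by
      intro t ht
      have hdz : ∀ s ∈ ball (0 : ℂ) r, HasDerivAt (fun t => g (γ t)) 0 s := by
        intro s hs
        have h1 := (hg.1.differentiableAt (isOpen_ball.mem_nhds (hball s hs).1)).hasFDerivAt
        have h2 := h1.comp_hasDerivAt s (hγd s)
        rw [hzero _ (hball s hs).1 (hball s hs).2] at h2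
        exact h2
      exact isOpen_ball.is_const_of_deriv_eq_zero (convex_ball (0 : ℂ) r).isPreconnected
        (fun s hs => (hdz s hs).differentiableAt.differentiableWithinAt)
        (fun s hs => (hdz s hs).deriv) ht (mem_ball_self hr)
    have heq : (fun t => g (γ t)) =ᶠ[𝓝 0] fun _ => g (γ 0) :=
      Metric.eventually_nhds_iff_ball.2 ⟨r, hr, hloc⟩
    have h5 := han.eqOn_of_preconnected_of_eventuallyEq analyticOnNhd_const
      hUc.isPreconnected h0U heq h1U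
    have h6 : γ 0 = z₀ := by simp [hγ]
    have h7 : γ 1 = w := by simp [hγ]
    simp only [h6, h7] at h5
    exact h5
  obtain ⟨z, hz1, hz2⟩ := hnc
  exact hz2 ((hconst z hz1).trans (hconst 0 (mem_ball_self one_pos)).symm)

/-- homogeneity -/
lemma det_pr (S T : Matrix (Fin 3) (Fin 3) ℂ) (Y : Fin 3 → ℂ) (hY : Y 0 ≠ 0) :
    (Matrix.of ![Y, S *ᵥ Y, T *ᵥ Y]).det =
      Y 0 ^ 3 * (Matrix.of ![hz (pr Y), S *ᵥ hz (pr Y), T *ᵥ hz (pr Y)]).det := by
  have h1 : Y = Y 0 • hz (pr Y) := by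
    funext j
    fin_cases j
    · show Y 0 = Y 0 * 1
      rw [mul_one]
    · show Y 1 = Y 0 * (Y 1 / Y 0)
      field_simp
    · show Y 2 = Y 0 * (Y 2 / Y 0)
      field_simp
  conv_lhs => rw [h1, Matrix.mulVec_smul, Matrix.mulVec_smul]
  rw [Matrix.det_fin_three, Matrix.det_fin_three]
  show Y 0 * (hz (pr Y)) 0 * (Y 0 * (S *ᵥ hz (pr Y)) 1) * (Y 0 * (T *ᵥ hz (pr Y)) 2) -
    Y 0 * (hz (pr Y)) 0 * (Y 0 * (S *ᵥ hz (pr Y)) 2) * (Y 0 * (T *ᵥ hz (pr Y)) 1) -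
    Y 0 * (hz (pr Y)) 1 * (Y 0 * (S *ᵥ hz (pr Y)) 0) * (Y 0 * (T *ᵥ hz (pr Y)) 2) +
    Y 0 * (hz (pr Y)) 1 * (Y 0 * (S *ᵥ hz (pr Y)) 2) * (Y 0 * (T *ᵥ hz (pr Y)) 0) +
    Y 0 * (hz (pr Y)) 2 * (Y 0 * (S *ᵥ hz (pr Y)) 0) * (Y 0 * (T *ᵥ hz (pr Y)) 1) -
    Y 0 * (hz (pr Y)) 2 * (Y 0 * (S *ᵥ hz (pr Y)) 1) * (Y 0 * (T *ᵥ hz (pr Y)) 0) = Y 0 ^ 3 *
    ((hz (pr Y)) 0 * (S *ᵥ hz (pr Y)) 1 * (T *ᵥ hz (pr Y)) 2 -
    (hz (pr Y)) 0 * (S *ᵥ hz (pr Y)) 2 * (T *ᵥ hz (pr Y)) 1 -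
    (hz (pr Y)) 1 * (S *ᵥ hz (pr Y)) 0 * (T *ᵥ hz (pr Y)) 2 +
    (hz (pr Y)) 1 * (S *ᵥ hz (pr Y)) 2 * (T *ᵥ hz (pr Y)) 0 +
    (hz (pr Y)) 2 * (S *ᵥ hz (pr Y)) 0 * (T *ᵥ hz (pr Y)) 1 -
    (hz (pr Y)) 2 * (S *ᵥ hz (pr Y)) 1 * (T *ᵥ hz (pr Y)) 0)
  ring

/-- the third difference of a cubic form -/
lemma det_diff (S T : Matrix (Fin 3) (Fin 3) ℂ) (E Z : Fin 3 → ℂ) (e : ℂ) :
    (Matrix.of ![E + (3 * e) • Z, S *ᵥ (E + (3 * e) • Z), T *ᵥ (E + (3 * e) • Z)]).det -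
      3 * (Matrix.of ![E + (2 * e) • Z, S *ᵥ (E + (2 * e) • Z), T *ᵥ (E + (2 * e) • Z)]).det +
      3 * (Matrix.of ![E + e • Z, S *ᵥ (E + e • Z), T *ᵥ (E + e • Z)]).det -
      (Matrix.of ![E, S *ᵥ E, T *ᵥ E]).det =
      6 * e ^ 3 * (Matrix.of ![Z, S *ᵥ Z, T *ᵥ Z]).det := by
  simp only [Matrix.mulVec_add, Matrix.mulVec_smul]
  generalize S *ᵥ E = a
  generalize S *ᵥ Z = b
  generalize T *ᵥ E = c
  generalize T *ᵥ Z = d
  simp only [Matrix.det_fin_three, Matrix.of_apply, Matrix.cons_val_zero, Matrix.cons_val_one,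
    Matrix.cons_val, Pi.add_apply, Pi.smul_apply, smul_eq_mul]
  ring

/-- row STB -/
theorem stb : STB := by
  intro g T S hg hnc hTd hSd hS hT hSi
  have hball := det_ball hg hnc hT hSi
  have hall : ∀ Z : Fin 3 → ℂ, (Matrix.of ![Z, S *ᵥ Z, T *ᵥ Z]).det = 0 := by
    intro Z
    set E : Fin 3 → ℂ := ![1, 0, 0] with hE
    have hsm : ∀ᶠ e in 𝓝 (0 : ℂ), (E + e • Z) 0 ≠ 0 ∧
        (WithLp.toLp 2 (pr (E + e • Z)) : Cn 2) ∈ ball (0 : Cn 2) 1 := by
      have hc0 : Continuous fun e : ℂ => (E + e • Z) 0 := by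
        show Continuous fun e : ℂ => 1 + e * Z 0
        fun_prop
      have h1 : ∀ᶠ e in 𝓝 (0 : ℂ), (E + e • Z) 0 ≠ 0 := by
        refine hc0.continuousAt.eventually_ne ?_
        show (1 : ℂ) + 0 * Z 0 ≠ 0
        simp
      have h2 : ContinuousAt (fun e : ℂ => (WithLp.toLp 2 (pr (E + e • Z)) : Cn 2)) 0 := by
        refine (PiLp.continuous_toLp 2 (fun _ : Fin 2 => ℂ)).continuousAt.comp ?_
        rw [continuousAt_pi]
        intro j
        fin_cases j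
        · show ContinuousAt (fun e : ℂ => (0 + e * Z 1) / (1 + e * Z 0)) 0
          refine ContinuousAt.div (by fun_prop) (by fun_prop) (by simp)
        · show ContinuousAt (fun e : ℂ => (0 + e * Z 2) / (1 + e * Z 0)) 0
          refine ContinuousAt.div (by fun_prop) (by fun_prop) (by simp)
      have h3 : (WithLp.toLp 2 (pr (E + (0 : ℂ) • Z)) : Cn 2) = 0 := by
        ext j
        fin_cases j
        · show (0 + 0 * Z 1) / (1 + 0 * Z 0) = (0 : ℂ)
          simp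
        · show (0 + 0 * Z 2) / (1 + 0 * Z 0) = (0 : ℂ)
          simp
      have h4 : ball (0 : Cn 2) 1 ∈ 𝓝 (WithLp.toLp 2 (pr (E + (0 : ℂ) • Z)) : Cn 2) := by
        rw [h3]
        exact ball_mem_nhds _ one_pos
      exact h1.and (h2 h4)
    obtain ⟨r, hr, hb⟩ := Metric.eventually_nhds_iff_ball.1 hsm
    have hz : ∀ e ∈ ball (0 : ℂ) r, (Matrix.of ![E + e • Z, S *ᵥ (E + e • Z),
        T *ᵥ (E + e • Z)]).det = 0 := by
      intro e he
      rw [det_pr S T _ (hb e he).1]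
      have h1 := hball _ (hb e he).2
      have h2 : (fun i => (WithLp.toLp 2 (pr (E + e • Z)) : Cn 2) i) = pr (E + e • Z) := rfl
      rw [h2] at h1
      rw [h1, mul_zero]
    set e : ℂ := ((r / 4 : ℝ) : ℂ) with he
    have he0 : e ≠ 0 := by
      rw [he]
      exact_mod_cast (by positivity : r / 4 ≠ 0)
    have hin : ∀ c : ℝ, 0 ≤ c → c ≤ 3 → (c : ℂ) * e ∈ ball (0 : ℂ) r := by
      intro c hc0 hc3
      rw [mem_ball_zero_iff, he, ← Complex.ofReal_mul, Complex.norm_real, Real.norm_eq_abs,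
        abs_of_nonneg (by positivity)]
      nlinarith
    have d3 := hz _ (hin 3 (by norm_num) (by norm_num))
    have d2 := hz _ (hin 2 (by norm_num) (by norm_num))
    have d1 := hz _ (hin 1 (by norm_num) (by norm_num))
    have d0 := hz _ (hin 0 (by norm_num) (by norm_num))
    have hd := det_diff S T E Z e
    have e3 : (((3 : ℝ) : ℂ)) = 3 := by norm_num
    have e2 : (((2 : ℝ) : ℂ)) = 2 := by norm_num
    rw [e3] at d3
    rw [e2] at d2
    rw [Complex.ofReal_one, one_mul] at d1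
    rw [Complex.ofReal_zero, zero_mul, zero_smul, add_zero] at d0
    rw [d3, d2, d1, d0] at hd
    have h6 : 6 * e ^ 3 ≠ 0 := mul_ne_zero (by norm_num) (pow_ne_zero _ he0)
    have h7 : 6 * e ^ 3 * (Matrix.of ![Z, S *ᵥ Z, T *ᵥ Z]).det = 0 := by
      rw [← hd]
      ring
    exact (mul_eq_zero.1 h7).resolve_left h6
  obtain ⟨lam, mu, h⟩ := linl S T hS hall
  have hns : ∀ c : ℂ, S ≠ c • (1 : Matrix (Fin 3) (Fin 3) ℂ) := by
    rintro c rfl
    obtain ⟨Z, hZ⟩ := hS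
    apply hZ
    rw [Matrix.smul_mulVec, Matrix.one_mulVec, Matrix.det_fin_three]
    simp only [Matrix.of_apply, Matrix.cons_val_zero, Matrix.cons_val_one, Matrix.cons_val,
      Pi.smul_apply, smul_eq_mul]
    ring
  have hd2 : T = conj lam • S + conj mu • (1 : Matrix (Fin 3) (Fin 3) ℂ) := by
    have h1 : dag T = dag (lam • S + mu • (1 : Matrix (Fin 3) (Fin 3) ℂ)) := by rw [← h]
    have hJ : J3 * J3 = 1 := by
      rw [J3, Matrix.diagonal_mul_diagonal, ← Matrix.diagonal_one]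
      congr 1
      funext i
      fin_cases i <;> simp
    rw [hTd] at h1
    rw [h1]
    unfold dag at hSd ⊢
    rw [Matrix.conjTranspose_add, Matrix.conjTranspose_smul, Matrix.conjTranspose_smul,
      Matrix.conjTranspose_one, mul_add, add_mul, Matrix.mul_smul, Matrix.smul_mul, hSd,
      Matrix.mul_smul, Matrix.smul_mul, mul_one, hJ]
    rfl
  have hlam : conj lam = lam := by
    by_contra hne
    have h1 : (lam - conj lam) • S = (conj mu - mu) • (1 : Matrix (Fin 3) (Fin 3) ℂ) := by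
      have h2 := h.symm.trans hd2
      rw [sub_smul, sub_smul]
      have h3 : lam • S = conj lam • S + conj mu • (1 : Matrix (Fin 3) (Fin 3) ℂ) -
          mu • (1 : Matrix (Fin 3) (Fin 3) ℂ) := by
        rw [← h2, add_sub_cancel_right]
      rw [h3]
      abel
    have hne' : lam - conj lam ≠ 0 := sub_ne_zero.2 fun h' => hne h'.symm
    apply hns ((lam - conj lam)⁻¹ * (conj mu - mu))
    rw [mul_smul, ← h1, smul_smul, inv_mul_cancel₀ hne', one_smul]
  have hmu : conj mu = mu := by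
    have h2 := h.symm.trans hd2
    rw [hlam] at h2
    have h3 := congrFun (congrFun h2 0) 0
    simp only [Matrix.add_apply, Matrix.smul_apply, Matrix.one_apply_eq, smul_eq_mul,
      mul_one] at h3
    exact (add_left_cancel h3).symm
  obtain ⟨x, hx⟩ := Complex.conj_eq_iff_real.1 hlam
  obtain ⟨y, hy⟩ := Complex.conj_eq_iff_real.1 hmu
  exact ⟨x, y, by rw [h, hx, hy]⟩

end

end Pool.Agent.Lib.MP_6ff8d9_an.N2
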